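import Mathlib

set_option autoImplicit false

/-! Heat smoothing on tail spaces: definitions (helper187). -/

namespace Pool.Helper187.HS

open scoped BigOperators
open Polynomial Filter Topology

/-- The Walsh character of a finite set of coordinates (`true` is the sign `-1`). -/
noncomputable def chi {ι : Type*} (S : Finset ι) (x : ι → Bool) : ℝ :=
  ∏ i ∈ S, (if x i then (-1 : ℝ) else 1)

/-- Flip one coordinate. -/
def flip {ι : Type*} [DecidableEq ι] (x : ι → Bool) (i : ι) : ι → Bool :=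
  Function.update x i (!x i)

/-- The Laplacian on the discrete cube. -/
noncomputable def lap {ι : Type*} [Fintype ι] [DecidableEq ι] (f : (ι → Bool) → ℝ) :
    (ι → Bool) → ℝ :=
  fun x => ∑ i : ι, (f x - f (flip x i)) / 2

/-- Mean value on the discrete cube. -/
noncomputable def mean {ι : Type*} [Fintype ι] [DecidableEq ι] (f : (ι → Bool) → ℝ) : ℝ :=
  (∑ x : ι → Bool, f x) / (2 : ℝ) ^ (Fintype.card ι)

/-- Normalised `L^p` norm on the discrete cube. -/
noncomputable def nrm {ι : Type*} [Fintype ι] [DecidableEq ι] (p : ℝ)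
    (f : (ι → Bool) → ℝ) : ℝ :=
  (mean (fun x => |f x| ^ p)) ^ (1 / p)

/-- `f` has no Walsh coefficient of level `< d`. -/
def Tail {ι : Type*} [Fintype ι] [DecidableEq ι] (d : ℕ) (f : (ι → Bool) → ℝ) : Prop :=
  ∀ S : Finset ι, S.card < d → ∑ x : ι → Bool, f x * chi S x = 0

/-- The Laplacian of the block cube as a linear map. -/
noncomputable def lapL (M : ℕ) : Module.End ℝ ((Fin M → Bool) → ℝ) where
  toFun f := lap f
  map_add' := by
    intro u v
    funext x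
    simp only [lap, Pi.add_apply]
    rw [← Finset.sum_add_distrib]
    exact Finset.sum_congr rfl (fun i _ => by ring)
  map_smul' := by
    intro c u
    funext x
    simp only [lap, Pi.smul_apply, smul_eq_mul, RingHom.id_apply]
    rw [Finset.mul_sum]
    exact Finset.sum_congr rfl (fun i _ => by ring)

/-- number of `true` coordinates -/
def cnt {M : ℕ} (y : Fin M → Bool) : ℕ := (Finset.univ.filter (fun i => y i = true)).card

/-- a function of `cnt - k0` on the block cube -/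
def ucnt (M k0 : ℕ) (φ : ℤ → ℝ) : (Fin M → Bool) → ℝ := fun y => φ ((cnt y : ℤ) - (k0 : ℤ))

/-- indicator of the level `k0 + i` -/
noncomputable def lev (M k0 : ℕ) (i : ℤ) : (Fin M → Bool) → ℝ :=
  fun y => if (cnt y : ℤ) = (k0 : ℤ) + i then 1 else 0

/-- Coordinates of the big cube: `n` signs and `n` blocks of `M` coordinates. -/
abbrev Idx (n M : ℕ) : Type := Fin n ⊕ (Fin n × Fin M)

/-- `j`-th block of a point of the big cube -/
def blk {n M : ℕ} (x : Idx n M → Bool) (j : Fin n) : Fin M → Bool := fun i => x (Sum.inr (j, i))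

/-- `Y_u = ∑_j ε_j u(x_j)` -/
noncomputable def Ysum (n M : ℕ) (u : (Fin M → Bool) → ℝ) : (Idx n M → Bool) → ℝ :=
  fun x => ∑ j : Fin n, (if x (Sum.inl j) then (-1 : ℝ) else 1) * u (blk x j)

/-- General Jacobi operator on sequences indexed by `ℤ`. -/
noncomputable def JacG (cp cm : ℤ → ℝ) : Module.End ℝ (ℤ → ℝ) where
  toFun ψ := fun i => ψ i / 2 - (cp i * ψ (i + 1) + cm i * ψ (i - 1)) / 2
  map_add' := by
    intro u v
    funext i
    simp only [Pi.add_apply]
    ring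
  map_smul' := by
    intro c u
    funext i
    simp only [Pi.smul_apply, smul_eq_mul, RingHom.id_apply]
    ring

/-- The limit Jacobi operator (constant coefficients). -/
noncomputable def Jop (b : ℝ) : Module.End ℝ (ℤ → ℝ) := JacG (fun _ => b) (fun _ => b)

/-- the spectral hypothesis on a sequence -/
def Spec (b : ℝ) (h : ℤ → ℝ) : Prop :=
  ∀ (Φ : ℝ[X]) (K : ℝ), 0 ≤ K → (∀ x ∈ Set.Icc (0 : ℝ) (1 / 4), |Φ.eval x| ≤ K) →
    ∀ ψ : ℤ → ℝ, (Function.support ψ).Finite →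
      |∑' i, h i * (Polynomial.aeval (Jop b) Φ ψ) i| ≤ K * Real.sqrt (∑' i, ψ i ^ 2)

/-- the finite spectral hypothesis on a window `R` -/
def FL (R : Finset ℤ) (cp cm h : ℤ → ℝ) : Prop :=
  ∀ (Φ : ℝ[X]) (K : ℝ), 0 ≤ K → (∀ x ∈ Set.Icc (0 : ℝ) (1 / 4), |Φ.eval x| ≤ K) →
    ∀ ψ : ℤ → ℝ, (∀ i, i ∉ R → ψ i = 0) →
      |∑ i ∈ R, h i * (Polynomial.aeval (JacG cp cm) Φ ψ) i| ≤
        K * Real.sqrt (∑ i ∈ R, ψ i ^ 2)

/-- intensity of the level `k0 + i` (junk value `1` outside the range) -/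
noncomputable def lamz (n M k0 : ℕ) (i : ℤ) : ℝ :=
  if 0 ≤ (k0 : ℤ) + i ∧ (k0 : ℤ) + i ≤ (M : ℤ) then
    (n : ℝ) * (M.choose ((k0 : ℤ) + i).toNat : ℝ) / 2 ^ M else 1

/-- range of levels, shifted by `k0` -/
noncomputable def Rng (M k0 : ℕ) : Finset ℤ := Finset.Icc (-(k0 : ℤ)) ((M : ℤ) - (k0 : ℤ))

/-- unsymmetrised coefficients -/
noncomputable def cpA (M k0 : ℕ) (i : ℤ) : ℝ := ((M : ℝ) - (k0 : ℝ) - (i : ℝ)) / (M : ℝ)
/-- unsymmetrised coefficients -/
noncomputable def cmA (M k0 : ℕ) (i : ℤ) : ℝ := ((k0 : ℝ) + (i : ℝ)) / (M : ℝ)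

/-- symmetrised coefficients -/
noncomputable def cpS (n M k0 : ℕ) (i : ℤ) : ℝ :=
  cpA M k0 i * (Real.sqrt (lamz n M k0 i) / Real.sqrt (lamz n M k0 (i + 1)))
/-- symmetrised coefficients -/
noncomputable def cmS (n M k0 : ℕ) (i : ℤ) : ℝ :=
  cmA M k0 i * (Real.sqrt (lamz n M k0 i) / Real.sqrt (lamz n M k0 (i - 1)))

/-- The properties of the linear functional coming from Hahn-Banach. -/
structure Good (n M k0 d : ℕ) (G : ((Fin M → Bool) → ℝ) →ₗ[ℝ] ℝ) : Prop where
  ha : ∀ u, |G u| ≤ Real.sqrt ((n : ℝ) * mean (fun y => u y ^ 2))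
  hb : ∀ i ∈ Rng M k0, |G (lev M k0 i)| ≤ (lamz n M k0 i) ^ (3 / 4 : ℝ)
  hc : ∀ u, Tail d u → G u = 0

/-- the sequence `h` of a functional -/
noncomputable def hseq (n M k0 : ℕ) (G : ((Fin M → Bool) → ℝ) →ₗ[ℝ] ℝ) (i : ℤ) : ℝ :=
  G (lev M k0 i) / Real.sqrt (lamz n M k0 i)

/-- parameters: block length, central level, degree -/
def MM (L m : ℕ) : ℕ := 4 * (2 * L + 1) * m
/-- central level -/
def KK (L m : ℕ) : ℕ := 4 * L * m
/-- degree -/
def DD (L m : ℕ) : ℕ := (2 * L + 1) * m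

/-- the smooth profile of width `L` -/
noncomputable def prof (L : ℕ) (i : ℤ) : ℝ :=
  if |(i : ℝ)| ≤ (L : ℝ) then (1 - ((i : ℝ) / (L : ℝ)) ^ 2) ^ 2 else 0

end Pool.Helper187.HS
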