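import Pool.Agent.Helper187.HS.Defs

set_option autoImplicit false

/-! Heat smoothing on tail spaces: definitions (helper187). -/

namespace Pool.Helper187.HS
open scoped BigOperators
open Polynomial Filter Topology


theorem G_ucnt (M k0 : ℕ) (G : ((Fin M → Bool) → ℝ) →ₗ[ℝ] ℝ) (φ : ℤ → ℝ) :
    G (ucnt M k0 φ) = ∑ i ∈ Rng M k0, φ i * G (lev M k0 i) := by
  have h : ucnt M k0 φ = ∑ i ∈ Rng M k0, φ i • lev M k0 i := by
    funext y
    rw [Finset.sum_apply]
    have hc : cnt y ≤ M := by
      unfold cnt
      refine (Finset.card_filter_le _ _).trans ?_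
      simp
    rw [Finset.sum_eq_single ((cnt y : ℤ) - (k0 : ℤ))]
    · simp [ucnt, lev]
    · intro i _ hi
      have : ¬ ((cnt y : ℤ) = (k0 : ℤ) + i) := by
        intro h'
        apply hi
        omega
      simp [lev, this]
    · intro hn
      exfalso
      apply hn
      rw [Rng, Finset.mem_Icc]
      constructor <;> omega
  rw [h, map_sum]
  refine Finset.sum_congr rfl (fun i _ => ?_)
  rw [map_smul, smul_eq_mul]

end Pool.Helper187.HS
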