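import Pool.Agent.Helper187.HS.Defs

set_option autoImplicit false

/-! Heat smoothing on tail spaces: definitions (helper187). -/

namespace Pool.Helper187.HS
open scoped BigOperators
open Polynomial Filter Topology


theorem JacG_support_aux_pow (cp cm : ℤ → ℝ) (ψ : ℤ → ℝ) (s : ℕ)
    (hs : ∀ i : ℤ, (s : ℤ) < |i| → ψ i = 0) (k : ℕ) :
    ∀ i : ℤ, ((s + k : ℕ) : ℤ) < |i| → ((JacG cp cm) ^ k) ψ i = 0 := by
  induction k with
  | zero =>
    intro i hi
    simpa using hs i (by simpa using hi)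
  | succ k ih =>
    intro i hi
    rw [pow_succ', Module.End.mul_apply]
    show (((JacG cp cm) ^ k) ψ) i / 2 - (cp i * (((JacG cp cm) ^ k) ψ) (i + 1)
      + cm i * (((JacG cp cm) ^ k) ψ) (i - 1)) / 2 = 0
    have h1 : ((JacG cp cm) ^ k) ψ i = 0 := ih i (by push_cast at hi ⊢; linarith)
    have h2 : ((JacG cp cm) ^ k) ψ (i + 1) = 0 := by
      apply ih
      push_cast at hi ⊢
      have : |i| ≤ |i + 1| + 1 := by
        have := abs_sub (i + 1) 1
        simpa using this
      linarith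
    have h3 : ((JacG cp cm) ^ k) ψ (i - 1) = 0 := by
      apply ih
      push_cast at hi ⊢
      have : |i| ≤ |i - 1| + 1 := by
        have := abs_add_le (i - 1) 1
        simpa using this
      linarith
    rw [h1, h2, h3]
    simp

theorem JacG_support (Φ : ℝ[X]) (ψ : ℤ → ℝ) (hψ : (Function.support ψ).Finite) :
    ∃ W : Finset ℤ, (∀ i, i ∉ W → ψ i = 0) ∧ ∀ (cp cm : ℤ → ℝ) (i : ℤ), i ∉ W →
      (Polynomial.aeval (JacG cp cm) Φ ψ) i = 0 := by
  obtain ⟨s, hs⟩ : ∃ s : ℕ, ∀ i : ℤ, (s : ℤ) < |i| → ψ i = 0 := by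
    refine ⟨∑ i ∈ hψ.toFinset, i.natAbs, ?_⟩
    intro i hi
    by_contra h
    have hmem : i ∈ hψ.toFinset := by
      rw [Set.Finite.mem_toFinset]
      exact h
    have h1 : i.natAbs ≤ ∑ i ∈ hψ.toFinset, i.natAbs :=
      Finset.single_le_sum (f := fun i : ℤ => i.natAbs) (fun _ _ => Nat.zero_le _) hmem
    have h2 : (i.natAbs : ℤ) = |i| := Int.natCast_natAbs i
    rw [← h2] at hi
    exact absurd (by exact_mod_cast hi) (not_lt.mpr h1)
  refine ⟨Finset.Icc (-((s + Φ.natDegree : ℕ) : ℤ)) ((s + Φ.natDegree : ℕ) : ℤ), ?_, ?_⟩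
  · intro i hi
    apply hs
    rw [Finset.mem_Icc, ← abs_le, not_le] at hi
    push_cast at hi
    have : (0 : ℤ) ≤ (Φ.natDegree : ℤ) := Int.natCast_nonneg _
    linarith
  · intro cp cm i hi
    rw [Finset.mem_Icc, ← abs_le, not_le] at hi
    rw [Polynomial.aeval_eq_sum_range, LinearMap.sum_apply, Finset.sum_apply]
    apply Finset.sum_eq_zero
    intro k hk
    rw [LinearMap.smul_apply, Pi.smul_apply]
    rw [JacG_support_aux_pow cp cm ψ s hs k i, smul_zero]
    have hk' : k ≤ Φ.natDegree := by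
      have := Finset.mem_range.mp hk
      omega
    have hk'' : ((s + k : ℕ) : ℤ) ≤ ((s + Φ.natDegree : ℕ) : ℤ) := by
      exact_mod_cast Nat.add_le_add_left hk' s
    linarith

end Pool.Helper187.HS
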