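import Pool.Agent.Helper187.HS.Defs

set_option autoImplicit false

/-! Heat smoothing on tail spaces: definitions (helper187). -/

namespace Pool.Helper187.HS
open scoped BigOperators
open Polynomial Filter Topology


theorem JacG_apply' (cp cm : ℤ → ℝ) (ψ : ℤ → ℝ) (i : ℤ) :
    (JacG cp cm ψ) i = ψ i / 2 - (cp i * ψ (i + 1) + cm i * ψ (i - 1)) / 2 := rfl

theorem JacG_pow_tendsto (F : Filter ℕ) (b : ℝ) (cp cm : ℕ → ℤ → ℝ)
    (hcp : ∀ i, Tendsto (fun m => cp m i) F (nhds b))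
    (hcm : ∀ i, Tendsto (fun m => cm m i) F (nhds b)) (ψ : ℤ → ℝ) (k : ℕ) :
    ∀ i, Tendsto (fun m => (((JacG (cp m) (cm m)) ^ k) ψ) i) F
      (nhds (((Jop b ^ k) ψ) i)) := by
  induction k with
  | zero =>
    intro i
    simp only [pow_zero, Module.End.one_apply]
    exact tendsto_const_nhds
  | succ k ih =>
    intro i
    simp only [pow_succ', Module.End.mul_apply]
    unfold Jop
    simp only [JacG_apply']
    refine ((ih i).div_const 2).sub ((((hcp i).mul (ih (i + 1))).add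
      ((hcm i).mul (ih (i - 1)))).div_const 2)

theorem JacG_tendsto (F : Filter ℕ) (b : ℝ) (cp cm : ℕ → ℤ → ℝ)
    (hcp : ∀ i, Tendsto (fun m => cp m i) F (nhds b))
    (hcm : ∀ i, Tendsto (fun m => cm m i) F (nhds b)) (Φ : ℝ[X]) (ψ : ℤ → ℝ) (i : ℤ) :
    Tendsto (fun m => (Polynomial.aeval (JacG (cp m) (cm m)) Φ ψ) i) F
      (nhds ((Polynomial.aeval (Jop b) Φ ψ) i)) := by
  simp only [Polynomial.aeval_eq_sum_range, LinearMap.sum_apply, LinearMap.smul_apply,
    Finset.sum_apply, Pi.smul_apply, smul_eq_mul]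
  exact tendsto_finset_sum _ (fun k _ =>
    (JacG_pow_tendsto F b cp cm hcp hcm ψ k i).const_mul _)

end Pool.Helper187.HS
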