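import Pool.Agent.Helper187.HS.Defs

set_option autoImplicit false

/-! Heat smoothing on tail spaces: definitions (helper187). -/

namespace Pool.Helper187.HS
open scoped BigOperators
open Polynomial Filter Topology


theorem Jop_alt_one (b : ℝ) (v : ℤ → ℝ) :
    Jop b (fun j => (-1 : ℝ) ^ j * v j) = fun j => (-1 : ℝ) ^ j * ((1 - Jop b) v) j := by
  funext j
  have h1 : (-1 : ℝ) ^ (j + 1) = -(-1 : ℝ) ^ j := by
    rw [zpow_add₀ (by norm_num : (-1 : ℝ) ≠ 0), zpow_one]
    ring
  have h2 : (-1 : ℝ) ^ (j - 1) = -(-1 : ℝ) ^ j := by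
    rw [zpow_sub₀ (by norm_num : (-1 : ℝ) ≠ 0), zpow_one]
    ring
  show (-1 : ℝ) ^ j * v j / 2 - (b * ((-1 : ℝ) ^ (j + 1) * v (j + 1))
    + b * ((-1 : ℝ) ^ (j - 1) * v (j - 1))) / 2 =
    (-1 : ℝ) ^ j * (v j - (v j / 2 - (b * v (j + 1) + b * v (j - 1)) / 2))
  rw [h1, h2]
  ring

theorem Jop_alt_pow (b : ℝ) (n : ℕ) : ∀ v : ℤ → ℝ,
    (Jop b ^ n) (fun j => (-1 : ℝ) ^ j * v j) = fun j => (-1 : ℝ) ^ j * (((1 - Jop b) ^ n) v) j := by
  induction n with
  | zero => intro v; rfl
  | succ n ih =>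
    intro v
    rw [pow_succ, pow_succ, Module.End.mul_apply, Module.End.mul_apply, Jop_alt_one, ih]

theorem Jop_alt (b : ℝ) (Φ : ℝ[X]) (v : ℤ → ℝ) :
    Polynomial.aeval (Jop b) Φ (fun j => (-1 : ℝ) ^ j * v j) =
      fun j => (-1 : ℝ) ^ j * (Polynomial.aeval (Jop b) (Φ.comp (1 - X)) v) j := by
  have hcomp : Polynomial.aeval (Jop b) (Φ.comp (1 - X)) = Polynomial.aeval (1 - Jop b) Φ := by
    rw [Polynomial.aeval_comp, map_sub, map_one, Polynomial.aeval_X]
  rw [hcomp]
  induction Φ using Polynomial.induction_on' with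
  | add p q hp hq =>
    have hp' := hp (by rw [Polynomial.aeval_comp, map_sub, map_one, Polynomial.aeval_X])
    have hq' := hq (by rw [Polynomial.aeval_comp, map_sub, map_one, Polynomial.aeval_X])
    rw [map_add, map_add, LinearMap.add_apply, LinearMap.add_apply, hp', hq']
    funext j
    simp only [Pi.add_apply]
    ring
  | monomial n a =>
    rw [Polynomial.aeval_monomial, Polynomial.aeval_monomial]
    rw [Module.End.mul_apply, Module.End.mul_apply, Jop_alt_pow]
    rw [Module.algebraMap_end_apply, Module.algebraMap_end_apply]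
    funext j
    simp only [Pi.smul_apply, smul_eq_mul]
    ring

end Pool.Helper187.HS
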