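import Pool.Agent.Helper187.HS.Defs

set_option autoImplicit false

/-! Heat smoothing on tail spaces: definitions (helper187). -/

namespace Pool.Helper187.HS
open scoped BigOperators
open Polynomial Filter Topology


/-- reflection -/
def Jrefl (n : ℤ) : Module.End ℝ (ℤ → ℝ) where
  toFun v := fun j => v (n - j)
  map_add' := by intro u v; rfl
  map_smul' := by intro c u; rfl

theorem Jrefl_comm (b : ℝ) (n : ℤ) : Commute (Jop b) (Jrefl n) := by
  refine LinearMap.ext fun v => ?_
  funext j
  show v (n - j) / 2 - (b * v (n - (j + 1)) + b * v (n - (j - 1))) / 2 =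
    v (n - j) / 2 - (b * v (n - j + 1) + b * v (n - j - 1)) / 2
  have h1 : n - (j + 1) = n - j - 1 := by ring
  have h2 : n - (j - 1) = n - j + 1 := by ring
  rw [h1, h2]
  ring

theorem Jrefl_aeval (b : ℝ) (n : ℤ) (Φ : ℝ[X]) :
    Commute (Polynomial.aeval (Jop b) Φ) (Jrefl n) := by
  induction Φ using Polynomial.induction_on' with
  | add p q hp hq =>
    rw [map_add]
    exact hp.add_left hq
  | monomial k a =>
    rw [Polynomial.aeval_monomial]
    exact (Algebra.commute_algebraMap_left a (Jrefl n)).mul_left ((Jrefl_comm b n).pow_left k)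

theorem Jop_reflect (b : ℝ) (Φ : ℝ[X]) (v : ℤ → ℝ) (n : ℤ) :
    Polynomial.aeval (Jop b) Φ (fun j => v (n - j)) =
      fun j => (Polynomial.aeval (Jop b) Φ v) (n - j) := by
  have h := congrArg (fun A : Module.End ℝ (ℤ → ℝ) => A v) (Jrefl_aeval b n Φ).eq
  exact h

end Pool.Helper187.HS
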