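import Pool.Agent.Helper187.HS.Defs

set_option autoImplicit false

/-! Heat smoothing on tail spaces: definitions (helper187). -/

namespace Pool.Helper187.HS
open scoped BigOperators
open Polynomial Filter Topology


theorem Jop_sq_summable_step (b : ℝ) (v : ℤ → ℝ) (hv : Summable fun i => v i ^ 2) :
    Summable fun i => (Jop b v) i ^ 2 := by
  have h1 : Summable fun i : ℤ => v (i + 1) ^ 2 :=
    ((Equiv.addRight (1:ℤ)).summable_iff (f := fun i : ℤ => v i ^ 2)).2 hv
  have h2 : Summable fun i : ℤ => v (i - 1) ^ 2 :=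
    ((Equiv.subRight (1:ℤ)).summable_iff (f := fun i : ℤ => v i ^ 2)).2 hv
  refine Summable.of_nonneg_of_le (fun i => sq_nonneg _) (fun i => ?_)
    ((hv.mul_left (3 / 4)).add ((h1.mul_left (3 * b ^ 2 / 4)).add (h2.mul_left (3 * b ^ 2 / 4))))
  show (v i / 2 - (b * v (i + 1) + b * v (i - 1)) / 2) ^ 2 ≤ _
  nlinarith [sq_nonneg (v i + b * v (i + 1)), sq_nonneg (v i + b * v (i - 1)),
    sq_nonneg (b * v (i + 1) - b * v (i - 1))]

theorem Jop_sq_summable_pow (b : ℝ) (n : ℕ) (v : ℤ → ℝ) (hv : Summable fun i => v i ^ 2) :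
    Summable fun i => ((Jop b ^ n) v) i ^ 2 := by
  induction n with
  | zero => simpa using hv
  | succ n ih =>
    rw [pow_succ']
    exact Jop_sq_summable_step b _ ih

theorem Jop_sq_summable (b : ℝ) (Φ : ℝ[X]) (v : ℤ → ℝ) (hv : Summable fun i => v i ^ 2) :
    Summable fun i => (Polynomial.aeval (Jop b) Φ v) i ^ 2 := by
  induction Φ using Polynomial.induction_on' with
  | add p q hp hq =>
    refine Summable.of_nonneg_of_le (fun i => sq_nonneg _) (fun i => ?_)
      ((hp.mul_left 2).add (hq.mul_left 2))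
    rw [map_add, LinearMap.add_apply, Pi.add_apply]
    nlinarith [sq_nonneg ((Polynomial.aeval (Jop b) p v) i - (Polynomial.aeval (Jop b) q v) i)]
  | monomial n a =>
    have h := (Jop_sq_summable_pow b n v hv).mul_left (a ^ 2)
    refine h.congr (fun i => ?_)
    rw [Polynomial.aeval_monomial, Module.End.mul_apply, Module.algebraMap_end_apply,
      Pi.smul_apply, smul_eq_mul]
    ring

end Pool.Helper187.HS
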