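import Pool.Agent.Helper187.HS.Defs
import Pool.Agent.Helper187.HS.P_Jop_sq_summable

set_option autoImplicit false

/-! Heat smoothing on tail spaces: definitions (helper187). -/

namespace Pool.Helper187.HS
open scoped BigOperators
open Polynomial Filter Topology


theorem Jop_selfadj_prod (u v : ℤ → ℝ) (hu : Summable fun i => u i ^ 2)
    (hv : Summable fun i => v i ^ 2) : Summable fun i => u i * v i := by
  refine Summable.of_norm_bounded (hu.add hv) fun i => ?_
  rw [Real.norm_eq_abs, abs_mul]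
  have h1 := sq_nonneg (|u i| - |v i|)
  have h2 := sq_abs (u i)
  have h3 := sq_abs (v i)
  nlinarith [sq_nonneg (u i), sq_nonneg (v i)]

theorem Jop_selfadj_sh (v : ℤ → ℝ) (k : ℤ) (hv : Summable fun i => v i ^ 2) :
    Summable fun i => v (i + k) ^ 2 :=
  (Equiv.summable_iff (Equiv.addRight k) (f := fun i => v i ^ 2)).2 hv

theorem Jop_selfadj_base (b : ℝ) (u v : ℤ → ℝ) (hu : Summable fun i => u i ^ 2)
    (hv : Summable fun i => v i ^ 2) :
    ∑' i, u i * (Jop b v) i = ∑' i, (Jop b u) i * v i := by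
  have hJ : ∀ (w : ℤ → ℝ) (i : ℤ), (Jop b w) i = w i / 2 - (b * w (i + 1) + b * w (i - 1)) / 2 :=
    fun w i => rfl
  have e1 : ∑' i, u i * (Jop b v) i = (∑' i, u i * v i) * (1 / 2)
      - (∑' i, u i * v (i + 1)) * (b / 2) - (∑' i, u i * v (i + (-1))) * (b / 2) := by
    have s0 := Jop_selfadj_prod u v hu hv
    have s1 := Jop_selfadj_prod u (fun i => v (i + 1)) hu (Jop_selfadj_sh v 1 hv)
    have s2 := Jop_selfadj_prod u (fun i => v (i + (-1))) hu (Jop_selfadj_sh v (-1) hv)
    rw [← tsum_mul_right, ← tsum_mul_right, ← tsum_mul_right,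
      ← (s0.mul_right _).tsum_sub (s1.mul_right _),
      ← ((s0.mul_right _).sub (s1.mul_right _)).tsum_sub (s2.mul_right _)]
    refine tsum_congr fun i => ?_
    rw [hJ, sub_eq_add_neg i 1]
    ring
  have e2 : ∑' i, (Jop b u) i * v i = (∑' i, u i * v i) * (1 / 2)
      - (∑' i, u (i + (-1)) * v i) * (b / 2) - (∑' i, u (i + 1) * v i) * (b / 2) := by
    have s0 := Jop_selfadj_prod u v hu hv
    have s1 := Jop_selfadj_prod (fun i => u (i + (-1))) v (Jop_selfadj_sh u (-1) hu) hv
    have s2 := Jop_selfadj_prod (fun i => u (i + 1)) v (Jop_selfadj_sh u 1 hu) hv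
    rw [← tsum_mul_right, ← tsum_mul_right, ← tsum_mul_right,
      ← (s0.mul_right _).tsum_sub (s1.mul_right _),
      ← ((s0.mul_right _).sub (s1.mul_right _)).tsum_sub (s2.mul_right _)]
    refine tsum_congr fun i => ?_
    rw [hJ, sub_eq_add_neg i 1]
    ring
  have e3 : ∑' i, u i * v (i + 1) = ∑' i, u (i + (-1)) * v i := by
    rw [← (Equiv.addRight (-1 : ℤ)).tsum_eq (fun i => u i * v (i + 1))]
    refine tsum_congr fun i => ?_
    simp
  have e4 : ∑' i, u i * v (i + (-1)) = ∑' i, u (i + 1) * v i := by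
    rw [← (Equiv.addRight (1 : ℤ)).tsum_eq (fun i => u i * v (i + (-1)))]
    refine tsum_congr fun i => ?_
    simp
  rw [e1, e2, e3, e4]

theorem Jop_selfadj_pow (b : ℝ) (n : ℕ) (u : ℤ → ℝ) (hu : Summable fun i => u i ^ 2) :
    ∀ v : ℤ → ℝ, (Summable fun i => v i ^ 2) →
    ∑' i, u i * (((Jop b) ^ n) v) i = ∑' i, (((Jop b) ^ n) u) i * v i := by
  induction n with
  | zero => intro v _; rfl
  | succ n ih =>
    intro v hv
    have h1 : ((Jop b) ^ (n + 1)) v = ((Jop b) ^ n) (Jop b v) := by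
      rw [pow_succ]; rfl
    have h2 : ((Jop b) ^ (n + 1)) u = Jop b (((Jop b) ^ n) u) := by
      rw [pow_succ']; rfl
    have hJv : Summable fun i => (Jop b v) i ^ 2 := by
      have := Jop_sq_summable b X v hv
      simpa using this
    have hJu : Summable fun i => (((Jop b) ^ n) u) i ^ 2 := by
      have := Jop_sq_summable b (X ^ n) u hu
      simpa using this
    rw [h1, h2, ih _ hJv, Jop_selfadj_base b _ v hJu hv]

theorem Jop_selfadj (b : ℝ) (Φ : ℝ[X]) (u v : ℤ → ℝ) (hu : Summable fun i => u i ^ 2)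
    (hv : Summable fun i => v i ^ 2) :
    ∑' i, u i * (Polynomial.aeval (Jop b) Φ v) i =
      ∑' i, (Polynomial.aeval (Jop b) Φ u) i * v i := by
  induction Φ using Polynomial.induction_on' with
  | add p q hp hq =>
    have h1 : ∀ w : ℤ → ℝ, (aeval (Jop b) (p + q)) w
        = fun i => (aeval (Jop b) p w) i + (aeval (Jop b) q w) i := by
      intro w
      rw [map_add]
      rfl
    rw [h1, h1]
    simp only [mul_add, add_mul]
    rw [(Jop_selfadj_prod u _ hu (Jop_sq_summable b p v hv)).tsum_add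
      (Jop_selfadj_prod u _ hu (Jop_sq_summable b q v hv)),
      (Jop_selfadj_prod _ v (Jop_sq_summable b p u hu) hv).tsum_add
      (Jop_selfadj_prod _ v (Jop_sq_summable b q u hu) hv), hp, hq]
  | monomial n a =>
    have h1 : ∀ w : ℤ → ℝ, (aeval (Jop b) (monomial n a)) w
        = fun i => a * (((Jop b) ^ n) w) i := by
      intro w
      rw [aeval_monomial]
      rfl
    rw [h1, h1]
    have h2 := Jop_selfadj_pow b n u hu v hv
    have h3 : ∀ i, u i * (a * (((Jop b) ^ n) v) i) = a * (u i * (((Jop b) ^ n) v) i) := by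
      intro i; ring
    have h4 : ∀ i, a * (((Jop b) ^ n) u) i * v i = a * ((((Jop b) ^ n) u) i * v i) := by
      intro i; ring
    simp only [h3, h4]
    rw [tsum_mul_left, tsum_mul_left, h2]
end Pool.Helper187.HS
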