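import Pool.Agent.Helper187.HS.Defs

set_option autoImplicit false

/-! Heat smoothing on tail spaces: definitions (helper187). -/

namespace Pool.Helper187.HS
open scoped BigOperators
open Polynomial Filter Topology


theorem Rng_ev (L : ℕ) (hL : 1 ≤ L) (i : ℤ) : ∀ᶠ m in atTop, i ∈ Rng (MM L m) (KK L m) := by
  filter_upwards [eventually_ge_atTop i.natAbs] with m hm
  unfold Rng MM KK
  rw [Finset.mem_Icc]
  have h1 : (i.natAbs : ℤ) ≤ (m : ℤ) := by exact_mod_cast hm
  have h2 : |i| ≤ (m : ℤ) := by rwa [Int.abs_eq_natAbs]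
  have h3 := abs_le.mp h2
  have h4 : (1 : ℤ) ≤ (L : ℤ) := by exact_mod_cast hL
  have hm0 : (0 : ℤ) ≤ (m : ℤ) := Int.natCast_nonneg m
  have h5 : (m : ℤ) ≤ (L : ℤ) * m := by nlinarith
  push_cast
  constructor
  · nlinarith
  · nlinarith

end Pool.Helper187.HS
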