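import Pool.Agent.Helper187.HS.Defs
import Pool.Agent.Helper187.HS.P_Jop_sq_summable
import Pool.Agent.Helper187.HS.P_Jop_selfadj

set_option autoImplicit false

/-! Heat smoothing on tail spaces: definitions (helper187). -/

namespace Pool.Helper187.HS
open scoped BigOperators
open Polynomial Filter Topology


theorem Spec_norm (b : ℝ) (h : ℤ → ℝ) (h2 : Summable fun i => h i ^ 2) (H : Spec b h)
    (Φ : ℝ[X]) (K : ℝ) (hK : 0 ≤ K) (hΦ : ∀ x ∈ Set.Icc (0 : ℝ) (1 / 4), |Φ.eval x| ≤ K) :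
    ∑' i, (Polynomial.aeval (Jop b) Φ h) i ^ 2 ≤ K ^ 2 := by
  classical
  have hg := Jop_sq_summable b Φ h h2
  refine hg.tsum_le_of_sum_le (fun s => ?_)
  set g := Polynomial.aeval (Jop b) Φ h with hgdef
  let ψ : ℤ → ℝ := fun i => if i ∈ s then g i else 0
  have hψ0 : ∀ i, i ∉ s → ψ i = 0 := fun i hi => if_neg hi
  have hψ1 : ∀ i, i ∈ s → ψ i = g i := fun i hi => if_pos hi
  have hfin : (Function.support ψ).Finite := by
    apply (Finset.finite_toSet s).subset
    intro i hi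
    by_contra hc
    exact hi (hψ0 i hc)
  have hA : ∑' i, ψ i ^ 2 = ∑ i ∈ s, g i ^ 2 := by
    rw [tsum_eq_sum (s := s) (fun i hi => by rw [hψ0 i hi]; norm_num)]
    exact Finset.sum_congr rfl (fun i hi => by rw [hψ1 i hi])
  have hψs : Summable fun i => ψ i ^ 2 :=
    summable_of_ne_finset_zero (s := s) (fun i hi => by rw [hψ0 i hi]; norm_num)
  have hB := H Φ K hK hΦ ψ hfin
  rw [Jop_selfadj b Φ h ψ h2 hψs, hA, ← hgdef] at hB
  have hC : ∑' i, g i * ψ i = ∑ i ∈ s, g i ^ 2 := by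
    rw [tsum_eq_sum (s := s) (fun i hi => by rw [hψ0 i hi, mul_zero])]
    exact Finset.sum_congr rfl (fun i hi => by rw [hψ1 i hi]; ring)
  rw [hC] at hB
  set A := ∑ i ∈ s, g i ^ 2 with hAdef
  have hA0 : 0 ≤ A := Finset.sum_nonneg (fun i _ => sq_nonneg _)
  rw [abs_of_nonneg hA0] at hB
  have hs0 := Real.sqrt_nonneg A
  have hs1 := Real.sq_sqrt hA0
  rcases hs0.eq_or_lt with h0 | h0
  · rw [← h0] at hs1
    have : A = 0 := by nlinarith
    rw [this]; positivity
  · have h3 : Real.sqrt A ≤ K := by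
      have : Real.sqrt A * Real.sqrt A ≤ K * Real.sqrt A := by nlinarith
      exact le_of_mul_le_mul_right this h0
    nlinarith

end Pool.Helper187.HS
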