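import Pool.Agent.Helper187.HS.Defs

set_option autoImplicit false

/-! Heat smoothing on tail spaces: definitions (helper187). -/

namespace Pool.Helper187.HS
open scoped BigOperators
open Polynomial Filter Topology


theorem exists_sep (ε : ℝ) (hε : 0 < ε) : ∃ Φ : ℝ[X],
    (∀ x ∈ Set.Icc (0 : ℝ) (1 / 4), |(Φ.comp (1 - X)).eval x| ≤ ε) ∧
    (∀ x ∈ Set.Icc (0 : ℝ) (1 / 4), |(1 - Φ).eval x| ≤ ε) := by
  have t1 : Filter.Tendsto (fun a : ℕ => ((1 : ℝ) / 2) ^ a) Filter.atTop (nhds 0) :=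
    tendsto_pow_atTop_nhds_zero_of_lt_one (by norm_num) (by norm_num)
  have t2 : Filter.Tendsto (fun a : ℕ => Real.exp (-((3 / 2 : ℝ) ^ a))) Filter.atTop (nhds 0) :=
    Real.tendsto_exp_neg_atTop_nhds_zero.comp
      (tendsto_pow_atTop_atTop_of_one_lt (by norm_num))
  obtain ⟨a, ha1, ha2⟩ := ((t1.eventually (gt_mem_nhds hε)).and
    (t2.eventually (gt_mem_nhds hε))).exists
  refine ⟨1 - (1 - (1 - Polynomial.X) ^ a) ^ (2 ^ a), ?_, ?_⟩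
  · intro x hx
    have hx0 : 0 ≤ x := hx.1
    have hx1 : x ≤ 1 / 4 := hx.2
    have hxa : x ^ a ≤ (1 / 4 : ℝ) ^ a := pow_le_pow_left₀ hx0 hx1 a
    have hxa0 : 0 ≤ x ^ a := pow_nonneg hx0 a
    have h4 : (1 / 4 : ℝ) ^ a ≤ 1 := pow_le_one₀ (by norm_num) (by norm_num)
    have he : Polynomial.eval x ((1 - (1 - (1 - (Polynomial.X : ℝ[X])) ^ a) ^ (2 ^ a)).comp
        (1 - Polynomial.X)) = 1 - (1 - x ^ a) ^ (2 ^ a) := by
      simp
    rw [he, abs_of_nonneg (sub_nonneg.mpr (pow_le_one₀ (by linarith) (by linarith)))]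
    have hb := one_add_mul_le_pow (show (-2 : ℝ) ≤ -(x ^ a) by linarith) (2 ^ a)
    have hc : (1 + -(x ^ a)) = 1 - x ^ a := by ring
    rw [hc] at hb
    have h5 : ((2 ^ a : ℕ) : ℝ) * (1 / 4 : ℝ) ^ a = (1 / 2 : ℝ) ^ a := by
      push_cast
      rw [← mul_pow]
      norm_num
    have h6 : ((2 ^ a : ℕ) : ℝ) * x ^ a ≤ ((2 ^ a : ℕ) : ℝ) * (1 / 4 : ℝ) ^ a :=
      mul_le_mul_of_nonneg_left hxa (Nat.cast_nonneg _)
    nlinarith
  · intro x hx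
    have hx0 : 0 ≤ x := hx.1
    have hx1 : x ≤ 1 / 4 := hx.2
    have he : Polynomial.eval x (1 - (1 - (1 - (1 - (Polynomial.X : ℝ[X])) ^ a) ^ (2 ^ a)))
        = (1 - (1 - x) ^ a) ^ (2 ^ a) := by
      simp
    have h1 : (3 / 4 : ℝ) ^ a ≤ (1 - x) ^ a := pow_le_pow_left₀ (by norm_num) (by linarith) a
    have h2 : (1 - x) ^ a ≤ 1 := pow_le_one₀ (by linarith) (by linarith)
    have h3 : 0 ≤ 1 - (1 - x) ^ a := by linarith
    rw [he, abs_of_nonneg (pow_nonneg h3 _)]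
    have h4 : 1 - (1 - x) ^ a ≤ Real.exp (-((3 / 4 : ℝ) ^ a)) := by
      have := Real.add_one_le_exp (-((3 / 4 : ℝ) ^ a))
      linarith
    have h5 : (1 - (1 - x) ^ a) ^ (2 ^ a) ≤ Real.exp (-((3 / 4 : ℝ) ^ a)) ^ (2 ^ a) :=
      pow_le_pow_left₀ h3 h4 _
    rw [← Real.exp_nat_mul] at h5
    have h6 : ((2 ^ a : ℕ) : ℝ) * -((3 / 4 : ℝ) ^ a) = -((3 / 2 : ℝ) ^ a) := by
      push_cast
      rw [mul_neg, ← mul_pow]
      norm_num
    rw [h6] at h5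
    linarith

end Pool.Helper187.HS
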