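import Pool.Agent.Helper187.HS.Defs
import Pool.Agent.Helper187.HS.P_Jop_sq_summable
import Pool.Agent.Helper187.HS.P_Jop_selfadj
import Pool.Agent.Helper187.HS.P_Jop_reflect
import Pool.Agent.Helper187.HS.P_Jop_alt
import Pool.Agent.Helper187.HS.P_exists_sep
import Pool.Agent.Helper187.HS.P_Spec_norm

set_option autoImplicit false

/-! Heat smoothing on tail spaces: definitions (helper187). -/

namespace Pool.Helper187.HS
open scoped BigOperators
open Polynomial Filter Topology


theorem Spec_conv_cs (f g : ℤ → ℝ) (hf : Summable fun i => f i ^ 2) (hg : Summable fun i => g i ^ 2)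
    (t : ℝ) (ht : 0 < t) :
    (Summable fun i => f i * g i) ∧
      |∑' i, f i * g i| ≤ (t * ∑' i, f i ^ 2 + (∑' i, g i ^ 2) / t) / 2 := by
  have hb : ∀ i, |f i * g i| ≤ (t * f i ^ 2 + g i ^ 2 / t) / 2 := by
    intro i
    rw [abs_mul]
    have h1 : 0 ≤ (t * |f i| - |g i|) ^ 2 / t := by positivity
    have h2 : (t * |f i| - |g i|) ^ 2 / t = t * f i ^ 2 + g i ^ 2 / t - 2 * (|f i| * |g i|) := by
      rw [← sq_abs (f i), ← sq_abs (g i)]
      field_simp
      ring
    linarith
  have hs : Summable fun i => (t * f i ^ 2 + g i ^ 2 / t) / 2 :=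
    ((hf.mul_left t).add (hg.div_const t)).div_const 2
  have hsa : Summable fun i => |f i * g i| :=
    Summable.of_nonneg_of_le (fun i => abs_nonneg _) hb hs
  refine ⟨hsa.of_abs, ?_⟩
  calc |∑' i, f i * g i| ≤ ∑' i, |f i * g i| := by
        have := norm_tsum_le_tsum_norm (f := fun i => f i * g i) (by simpa using hsa)
        simpa using this
    _ ≤ ∑' i, (t * f i ^ 2 + g i ^ 2 / t) / 2 := hsa.tsum_le_tsum hb hs
    _ = (t * ∑' i, f i ^ 2 + (∑' i, g i ^ 2) / t) / 2 := by
        rw [tsum_div_const, (hf.mul_left t).tsum_add (hg.div_const t), tsum_mul_left, tsum_div_const]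

theorem Spec_conv (b : ℝ) (h : ℤ → ℝ) (h2 : Summable fun i => h i ^ 2) (H : Spec b h) (n : ℤ) :
    ∑' j : ℤ, (-1 : ℝ) ^ j * h j * h (n - j) = 0 := by
  set A : ℝ := ∑' i, h i ^ 2 with hA
  have hA0 : 0 ≤ A := tsum_nonneg (fun i => sq_nonneg _)
  set u : ℤ → ℝ := fun j => (-1 : ℝ) ^ j * h j with hu
  set v : ℤ → ℝ := fun j => h (n - j) with hv
  have sgn : ∀ j : ℤ, ((-1 : ℝ) ^ j) ^ 2 = 1 := by
    intro j
    rw [← zpow_natCast, ← zpow_mul, mul_comm, zpow_mul]
    norm_num
  have refl_sum : ∀ w : ℤ → ℝ, (Summable fun i => w i ^ 2) →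
      (Summable fun i => w (n - i) ^ 2) ∧ ∑' i, w (n - i) ^ 2 = ∑' i, w i ^ 2 := by
    intro w hw
    constructor
    · exact (Equiv.subLeft n).summable_iff.mpr hw
    · exact (Equiv.subLeft n).tsum_eq (fun i => w i ^ 2)
  have alt_sum : ∀ w : ℤ → ℝ, ∀ j, ((-1 : ℝ) ^ j * w j) ^ 2 = w j ^ 2 := by
    intro w j
    rw [mul_pow, sgn, one_mul]
  have hu2 : Summable fun i => u i ^ 2 := by
    have : (fun i => u i ^ 2) = fun i => h i ^ 2 := by
      funext i; exact alt_sum h i
    rw [this]; exact h2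
  have huA : ∑' i, u i ^ 2 = A := by
    have : (fun i => u i ^ 2) = fun i => h i ^ 2 := by
      funext i; exact alt_sum h i
    rw [this]
  have hv2 : Summable fun i => v i ^ 2 := (refl_sum h h2).1
  have hvA : ∑' i, v i ^ 2 = A := (refl_sum h h2).2
  have key : ∀ ε : ℝ, 0 < ε → |∑' j, u j * v j| ≤ ε * (A + 1) := by
    intro ε hε
    obtain ⟨Φ, hΦ1, hΦ2⟩ := exists_sep ε hε
    have s1 : Summable fun i => (Polynomial.aeval (Jop b) Φ v) i ^ 2 := Jop_sq_summable b Φ v hv2
    have s2 : Summable fun i => (Polynomial.aeval (Jop b) (1 - Φ) v) i ^ 2 := Jop_sq_summable b _ v hv2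
    have hsplit : ∀ j, u j * v j = u j * (Polynomial.aeval (Jop b) Φ v) j
        + u j * (Polynomial.aeval (Jop b) (1 - Φ) v) j := by
      intro j
      have : (Polynomial.aeval (Jop b) (1 - Φ) v) = v - (Polynomial.aeval (Jop b) Φ v) := by
        rw [map_sub, map_one, LinearMap.sub_apply, Module.End.one_apply]
      rw [this, Pi.sub_apply]
      ring
    have c1 := Spec_conv_cs u (Polynomial.aeval (Jop b) Φ v) hu2 s1 ε hε
    have c2 := Spec_conv_cs u (Polynomial.aeval (Jop b) (1 - Φ) v) hu2 s2 ε hε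
    have hsum : ∑' j, u j * v j = ∑' j, u j * (Polynomial.aeval (Jop b) Φ v) j
        + ∑' j, u j * (Polynomial.aeval (Jop b) (1 - Φ) v) j := by
      rw [← c1.1.tsum_add c2.1]
      exact tsum_congr hsplit
    -- second part
    have e2 : ∑' i, (Polynomial.aeval (Jop b) (1 - Φ) v) i ^ 2 ≤ ε ^ 2 := by
      have r : (Polynomial.aeval (Jop b) (1 - Φ) v) = fun j => (Polynomial.aeval (Jop b) (1 - Φ) h) (n - j) :=
        Jop_reflect b (1 - Φ) h n
      rw [r]
      have s3 : Summable fun i => (Polynomial.aeval (Jop b) (1 - Φ) h) i ^ 2 := Jop_sq_summable b _ h h2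
      have := (refl_sum _ s3).2
      simp only []
      rw [this]
      exact Spec_norm b h h2 H (1 - Φ) ε hε.le hΦ2
    have d2 : |∑' j, u j * (Polynomial.aeval (Jop b) (1 - Φ) v) j| ≤ ε * (A + 1) / 2 := by
      refine c2.2.trans ?_
      rw [huA]
      have : (∑' i, (Polynomial.aeval (Jop b) (1 - Φ) v) i ^ 2) / ε ≤ ε := by
        rw [div_le_iff₀ hε]; linarith [e2]
      linarith
    -- first part
    have a1 : ∑' j, u j * (Polynomial.aeval (Jop b) Φ v) j = ∑' j, (Polynomial.aeval (Jop b) Φ u) j * v j :=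
      Jop_selfadj b Φ u v hu2 hv2
    have s4 : Summable fun i => (Polynomial.aeval (Jop b) Φ u) i ^ 2 := Jop_sq_summable b Φ u hu2
    have e1 : ∑' i, (Polynomial.aeval (Jop b) Φ u) i ^ 2 ≤ ε ^ 2 := by
      have r : (Polynomial.aeval (Jop b) Φ u) = fun j => (-1 : ℝ) ^ j * (Polynomial.aeval (Jop b) (Φ.comp (1 - X)) h) j :=
        Jop_alt b Φ h
      rw [r]
      have : (fun i => ((fun j => (-1 : ℝ) ^ j * (Polynomial.aeval (Jop b) (Φ.comp (1 - X)) h) j) i) ^ 2)
          = fun i => (Polynomial.aeval (Jop b) (Φ.comp (1 - X)) h) i ^ 2 := by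
        funext i
        exact alt_sum _ i
      rw [this]
      exact Spec_norm b h h2 H _ ε hε.le hΦ1
    have c3 := Spec_conv_cs v (Polynomial.aeval (Jop b) Φ u) hv2 s4 ε hε
    have d1 : |∑' j, u j * (Polynomial.aeval (Jop b) Φ v) j| ≤ ε * (A + 1) / 2 := by
      rw [a1]
      have sw : ∑' j, (Polynomial.aeval (Jop b) Φ u) j * v j = ∑' j, v j * (Polynomial.aeval (Jop b) Φ u) j :=
        tsum_congr (fun j => mul_comm _ _)
      rw [sw]
      refine c3.2.trans ?_
      rw [hvA]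
      have : (∑' i, (Polynomial.aeval (Jop b) Φ u) i ^ 2) / ε ≤ ε := by
        rw [div_le_iff₀ hε]; linarith [e1]
      linarith
    rw [hsum]
    refine (abs_add_le _ _).trans ?_
    linarith
  have hfin : |∑' j, u j * v j| ≤ 0 := by
    by_contra hcon
    push Not at hcon
    have := key (|∑' j, u j * v j| / (2 * (A + 1))) (by positivity)
    have h3 : |∑' j, u j * v j| / (2 * (A + 1)) * (A + 1) = |∑' j, u j * v j| / 2 := by
      field_simp
    rw [h3] at this
    linarith
  have h4 : ∑' j, u j * v j = 0 := abs_nonpos_iff.mp hfin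
  exact h4

end Pool.Helper187.HS
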