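import Pool.Agent.Helper187.HS.Defs

set_option autoImplicit false

/-! Heat smoothing on tail spaces: definitions (helper187). -/

namespace Pool.Helper187.HS
open scoped BigOperators
open Polynomial Filter Topology


theorem Y4_succ {Ω : Type} [Fintype Ω] (n : ℕ) (F : (Fin (n + 1) → Ω) → ℝ) :
    ∑ z : Fin (n + 1) → Ω, F z = ∑ w : Ω, ∑ z : Fin n → Ω, F (Fin.cons w z) := by
  rw [← Fintype.sum_prod_type' (f := fun (w : Ω) (z : Fin n → Ω) => F (Fin.cons w z))]
  symm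
  exact Fintype.sum_equiv (Fin.consEquiv (fun _ : Fin (n + 1) => Ω)) _ _ (fun p => rfl)

theorem Y4_one {Ω : Type} [Fintype Ω] (f : Ω → ℝ) (h1 : ∑ w, f w = 0) (n : ℕ) :
    ∑ z : Fin n → Ω, (∑ j, f (z j)) = 0 := by
  induction n with
  | zero => simp
  | succ n ih =>
    rw [Y4_succ]
    have e : ∀ w : Ω, ∑ z : Fin n → Ω, ∑ j : Fin (n + 1), f ((Fin.cons w z : Fin (n + 1) → Ω) j) =
        (Fintype.card (Fin n → Ω) : ℝ) * f w := by
      intro w
      have e1 : ∀ z : Fin n → Ω, ∑ j : Fin (n + 1), f ((Fin.cons w z : Fin (n + 1) → Ω) j) =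
          f w + ∑ j, f (z j) := by
        intro z
        rw [Fin.sum_univ_succ]
        simp
      rw [Finset.sum_congr rfl (fun z _ => e1 z), Finset.sum_add_distrib, ih]
      simp
    rw [Finset.sum_congr rfl (fun w _ => e w), ← Finset.mul_sum, h1, mul_zero]

theorem Y4_two {Ω : Type} [Fintype Ω] (f : Ω → ℝ) (h1 : ∑ w, f w = 0) (n : ℕ) :
    (Fintype.card Ω : ℝ) * ∑ z : Fin n → Ω, (∑ j, f (z j)) ^ 2 =
      n * (∑ w, f w ^ 2) * (Fintype.card Ω : ℝ) ^ n := by
  induction n with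
  | zero => simp
  | succ n ih =>
    rw [Y4_succ]
    have e : ∀ w : Ω, ∑ z : Fin n → Ω,
        (∑ j : Fin (n + 1), f ((Fin.cons w z : Fin (n + 1) → Ω) j)) ^ 2 =
        (Fintype.card Ω : ℝ) ^ n * f w ^ 2 + ∑ z : Fin n → Ω, (∑ j, f (z j)) ^ 2 := by
      intro w
      have e1 : ∀ z : Fin n → Ω, (∑ j : Fin (n + 1), f ((Fin.cons w z : Fin (n + 1) → Ω) j)) ^ 2 =
          f w ^ 2 + 2 * f w * (∑ j, f (z j)) + (∑ j, f (z j)) ^ 2 := by
        intro z
        rw [Fin.sum_univ_succ]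
        simp only [Fin.cons_zero, Fin.cons_succ]
        ring
      rw [Finset.sum_congr rfl (fun z _ => e1 z), Finset.sum_add_distrib,
        Finset.sum_add_distrib, ← Finset.mul_sum, Y4_one f h1 n]
      simp
    rw [Finset.sum_congr rfl (fun w _ => e w), Finset.sum_add_distrib, ← Finset.mul_sum]
    simp only [Finset.sum_const, Finset.card_univ, nsmul_eq_mul]
    rw [ih]
    push_cast
    ring

theorem Y4_four {Ω : Type} [Fintype Ω] (f : Ω → ℝ) (h1 : ∑ w, f w = 0)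
    (h3 : ∑ w, f w ^ 3 = 0) (n : ℕ) :
    (Fintype.card Ω : ℝ) ^ 2 * ∑ z : Fin n → Ω, (∑ j, f (z j)) ^ 4 =
      (Fintype.card Ω : ℝ) ^ n * (n * (Fintype.card Ω : ℝ) * (∑ w, f w ^ 4) +
        3 * n * (n - 1) * (∑ w, f w ^ 2) ^ 2) := by
  induction n with
  | zero => simp
  | succ n ih =>
    rw [Y4_succ]
    have e : ∀ w : Ω, ∑ z : Fin n → Ω,
        (∑ j : Fin (n + 1), f ((Fin.cons w z : Fin (n + 1) → Ω) j)) ^ 4 =
        (Fintype.card Ω : ℝ) ^ n * f w ^ 4 +
          6 * (∑ z : Fin n → Ω, (∑ j, f (z j)) ^ 2) * f w ^ 2 +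
          4 * (∑ z : Fin n → Ω, (∑ j, f (z j)) ^ 3) * f w +
          ∑ z : Fin n → Ω, (∑ j, f (z j)) ^ 4 := by
      intro w
      have e1 : ∀ z : Fin n → Ω, (∑ j : Fin (n + 1), f ((Fin.cons w z : Fin (n + 1) → Ω) j)) ^ 4 =
          f w ^ 4 + 4 * f w ^ 3 * (∑ j, f (z j)) + 6 * f w ^ 2 * (∑ j, f (z j)) ^ 2 +
            4 * f w * (∑ j, f (z j)) ^ 3 + (∑ j, f (z j)) ^ 4 := by
        intro z
        rw [Fin.sum_univ_succ]
        simp only [Fin.cons_zero, Fin.cons_succ]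
        ring
      rw [Finset.sum_congr rfl (fun z _ => e1 z)]
      rw [Finset.sum_add_distrib, Finset.sum_add_distrib, Finset.sum_add_distrib,
        Finset.sum_add_distrib, ← Finset.mul_sum, ← Finset.mul_sum, ← Finset.mul_sum,
        Y4_one f h1 n]
      simp only [Finset.sum_const, Finset.card_univ, nsmul_eq_mul, Fintype.card_pi,
        Finset.prod_const, Fintype.card_fin, Nat.cast_pow]
      ring
    rw [Finset.sum_congr rfl (fun w _ => e w), Finset.sum_add_distrib, Finset.sum_add_distrib,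
      Finset.sum_add_distrib, ← Finset.mul_sum, ← Finset.mul_sum, ← Finset.mul_sum, h1]
    simp only [Finset.sum_const, Finset.card_univ, nsmul_eq_mul]
    have h2 := Y4_two f h1 n
    set c : ℝ := (Fintype.card Ω : ℝ)
    set S2 := ∑ z : Fin n → Ω, (∑ j, f (z j)) ^ 2
    set S4 := ∑ z : Fin n → Ω, (∑ j, f (z j)) ^ 4
    set A2 := ∑ w, f w ^ 2
    set A4 := ∑ w, f w ^ 4
    push_cast
    linear_combination c * ih + 6 * A2 * c * h2

/-- regrouping the coordinates -/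
def Y4_equiv (n M : ℕ) : (Idx n M → Bool) ≃ (Fin n → Bool × (Fin M → Bool)) where
  toFun x j := (x (Sum.inl j), blk x j)
  invFun z := Sum.elim (fun j => (z j).1) (fun p => (z p.1).2 p.2)
  left_inv x := by funext i; rcases i with j | ⟨j, i⟩ <;> rfl
  right_inv z := by funext j; rfl

theorem Ysum_four (n M : ℕ) (u : (Fin M → Bool) → ℝ) :
    mean (fun x => Ysum n M u x ^ 4) ≤
      3 * ((n : ℝ) * mean (fun y => u y ^ 4) + ((n : ℝ) * mean (fun y => u y ^ 2)) ^ 2) := by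
  classical
  set f : Bool × (Fin M → Bool) → ℝ := fun p => (if p.1 then (-1 : ℝ) else 1) * u p.2 with hf
  have h1 : ∑ w, f w = 0 := by
    rw [Fintype.sum_prod_type, Fintype.sum_bool]
    simp [hf]
  have h3 : ∑ w, f w ^ 3 = 0 := by
    rw [Fintype.sum_prod_type, Fintype.sum_bool]
    simp only [hf, if_true, Bool.false_eq_true, if_false, ← Finset.sum_add_distrib]
    exact Finset.sum_eq_zero (fun y _ => by ring)
  have h2 : ∑ w, f w ^ 2 = 2 * ∑ y, u y ^ 2 := by
    rw [Fintype.sum_prod_type, Fintype.sum_bool, Finset.mul_sum]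
    simp only [hf, if_true, Bool.false_eq_true, if_false, ← Finset.sum_add_distrib]
    exact Finset.sum_congr rfl (fun y _ => by ring)
  have h4 : ∑ w, f w ^ 4 = 2 * ∑ y, u y ^ 4 := by
    rw [Fintype.sum_prod_type, Fintype.sum_bool, Finset.mul_sum]
    simp only [hf, if_true, Bool.false_eq_true, if_false, ← Finset.sum_add_distrib]
    exact Finset.sum_congr rfl (fun y _ => by ring)
  have hS : ∑ x : Idx n M → Bool, Ysum n M u x ^ 4 =
      ∑ z : Fin n → Bool × (Fin M → Bool), (∑ j, f (z j)) ^ 4 :=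
    Fintype.sum_equiv (Y4_equiv n M) _ _ (fun x => rfl)
  have hc : (Fintype.card (Bool × (Fin M → Bool)) : ℝ) = 2 * 2 ^ M := by
    simp
  have key := Y4_four f h1 h3 n
  rw [← hS, h2, h4, hc] at key
  have hm2 : mean (fun y => u y ^ 2) = (∑ y, u y ^ 2) / 2 ^ M := by
    simp [mean]
  have hm4 : mean (fun y => u y ^ 4) = (∑ y, u y ^ 4) / 2 ^ M := by
    simp [mean]
  have hmY : mean (fun x => Ysum n M u x ^ 4) =
      (∑ x : Idx n M → Bool, Ysum n M u x ^ 4) / (2 * 2 ^ M) ^ n := by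
    have e : (2 : ℝ) ^ (Fintype.card (Idx n M)) = (2 * 2 ^ M) ^ n := by
      simp only [Idx, Fintype.card_sum, Fintype.card_prod, Fintype.card_fin]
      rw [mul_pow, ← pow_mul, pow_add]
      ring
    unfold mean
    rw [e]
  have hpos : (0 : ℝ) < 2 ^ M := by positivity
  have hposn : (0 : ℝ) < (2 * 2 ^ M) ^ n := by positivity
  have hS2 : ∑ y, u y ^ 2 = 2 ^ M * mean (fun y => u y ^ 2) := by
    rw [hm2]; field_simp
  have hS4 : ∑ y, u y ^ 4 = 2 ^ M * mean (fun y => u y ^ 4) := by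
    rw [hm4]; field_simp
  have hSY : ∑ x : Idx n M → Bool, Ysum n M u x ^ 4 =
      (2 * 2 ^ M) ^ n * mean (fun x => Ysum n M u x ^ 4) := by
    rw [hmY]; field_simp
  rw [hS2, hS4, hSY] at key
  have hm4n : 0 ≤ mean (fun y => u y ^ 4) := by
    rw [hm4]
    apply div_nonneg _ hpos.le
    exact Finset.sum_nonneg (fun y _ => by positivity)
  set m2 := mean (fun y => u y ^ 2)
  set m4 := mean (fun y => u y ^ 4)
  set mY := mean (fun x => Ysum n M u x ^ 4)
  have key2 : mY = n * m4 + 3 * n * (n - 1) * m2 ^ 2 := by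
    have hne : ((2 * 2 ^ M : ℝ) ^ 2 * (2 * 2 ^ M) ^ n) ≠ 0 := by positivity
    apply mul_left_cancel₀ hne
    linear_combination key
  rw [key2]
  have hn : (0 : ℝ) ≤ n := Nat.cast_nonneg n
  have e1 : 0 ≤ (n : ℝ) * m4 := mul_nonneg hn hm4n
  have e2 : 0 ≤ (n : ℝ) * m2 ^ 2 := by positivity
  nlinarith [e1, e2]

end Pool.Helper187.HS
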