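import Pool.Agent.Helper187.HS.Defs

set_option autoImplicit false

namespace Pool.Helper187.HS

open scoped BigOperators
open Polynomial Filter Topology

theorem yl_blk_inl {n M : ℕ} (x : Idx n M → Bool) (l j : Fin n) :
    blk (flip x (Sum.inl l)) j = blk x j := by
  funext i
  simp [blk, flip, Function.update_of_ne]

theorem yl_sign_inr {n M : ℕ} (x : Idx n M → Bool) (l : Fin n × Fin M) (j : Fin n) :
    flip x (Sum.inr l) (Sum.inl j) = x (Sum.inl j) := by
  simp [flip, Function.update_of_ne]

theorem yl_blk_inr_ne {n M : ℕ} (x : Idx n M → Bool) (l : Fin n) (i : Fin M) (j : Fin n)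
    (h : j ≠ l) : blk (flip x (Sum.inr (l, i))) j = blk x j := by
  funext k
  have : (Sum.inr (j, k) : Idx n M) ≠ Sum.inr (l, i) := by
    intro h'
    apply h
    have := Sum.inr.inj h'
    exact congrArg Prod.fst this
  simp [blk, flip, Function.update_of_ne this]

theorem yl_blk_inr_eq {n M : ℕ} (x : Idx n M → Bool) (l : Fin n) (i : Fin M) :
    blk (flip x (Sum.inr (l, i))) l = flip (blk x l) i := by
  funext k
  by_cases hk : k = i
  · subst hk
    simp [blk, flip]
  · have : (Sum.inr (l, k) : Idx n M) ≠ Sum.inr (l, i) := by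
      intro h'
      apply hk
      have := Sum.inr.inj h'
      exact congrArg Prod.snd this
    simp [blk, flip, Function.update_of_ne this, Function.update_of_ne hk]

theorem Ysum_lap (n M : ℕ) (u : (Fin M → Bool) → ℝ) :
    lap (Ysum n M u) = Ysum n M (fun y => u y + lap u y) := by
  funext x
  unfold lap
  rw [Fintype.sum_sum_type, Fintype.sum_prod_type]
  have h1 : ∀ l : Fin n, (Ysum n M u x - Ysum n M u (flip x (Sum.inl l))) / 2 =
      (if x (Sum.inl l) then (-1 : ℝ) else 1) * u (blk x l) := by
    intro l
    unfold Ysum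
    rw [← Finset.sum_sub_distrib, Finset.sum_eq_single l]
    · rw [yl_blk_inl]
      cases hx : x (Sum.inl l) <;> simp [flip, hx] <;> ring
    · intro j _ hj
      rw [yl_blk_inl]
      have : flip x (Sum.inl l) (Sum.inl j) = x (Sum.inl j) := by
        have h' : (Sum.inl j : Idx n M) ≠ Sum.inl l := fun h => hj (Sum.inl.inj h)
        simp [flip, Function.update_of_ne h']
      rw [this]; ring
    · intro h; exact absurd (Finset.mem_univ l) h
  have h2 : ∀ (l : Fin n) (i : Fin M),
      (Ysum n M u x - Ysum n M u (flip x (Sum.inr (l, i)))) / 2 =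
      (if x (Sum.inl l) then (-1 : ℝ) else 1) * ((u (blk x l) - u (flip (blk x l) i)) / 2) := by
    intro l i
    unfold Ysum
    rw [← Finset.sum_sub_distrib, Finset.sum_eq_single l]
    · rw [yl_blk_inr_eq, yl_sign_inr]; ring
    · intro j _ hj
      rw [yl_blk_inr_ne x l i j hj, yl_sign_inr]; ring
    · intro h; exact absurd (Finset.mem_univ l) h
  simp only [h1, h2]
  unfold Ysum
  rw [← Finset.sum_add_distrib]
  refine Finset.sum_congr rfl (fun l _ => ?_)
  rw [← Finset.mul_sum]
  ring

end Pool.Helper187.HS
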