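import Pool.Agent.Helper187.HS.Defs

set_option autoImplicit false

/-! Heat smoothing on tail spaces: definitions (helper187). -/

namespace Pool.Helper187.HS
open scoped BigOperators
open Polynomial Filter Topology


theorem Ysum_sq_flip {ι : Type*} [DecidableEq ι] (x : ι → Bool) (i : ι) :
    flip (flip x i) i = x := by
  unfold flip
  funext k
  by_cases h : k = i
  · subst h; simp
  · simp [h]

/-- xor on the block `j` -/
def Ysum_sq_T {n M : ℕ} (j : Fin n) (z : Fin M → Bool) (x : Idx n M → Bool) : Idx n M → Bool :=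
  fun i => match i with
    | Sum.inl a => x (Sum.inl a)
    | Sum.inr (a, k) => if a = j then xor (x (Sum.inr (a, k))) (z k) else x (Sum.inr (a, k))

theorem Ysum_sq_T_invol {n M : ℕ} (j : Fin n) (z : Fin M → Bool) :
    Function.Involutive (Ysum_sq_T (n := n) j z) := by
  intro x
  funext i
  rcases i with a | ⟨a, k⟩
  · rfl
  · by_cases h : a = j
    · simp [Ysum_sq_T, h]
    · simp [Ysum_sq_T, h]

theorem Ysum_sq_mean (n M : ℕ) (v : (Fin M → Bool) → ℝ) (j : Fin n) :
    mean (fun x : Idx n M → Bool => v (blk x j)) = mean v := by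
  have h1 : ∀ z : Fin M → Bool, ∑ x : Idx n M → Bool, v (blk x j) =
      ∑ x : Idx n M → Bool, v (fun k => xor (blk x j k) (z k)) := by
    intro z
    rw [← Equiv.sum_comp (Ysum_sq_T_invol (n := n) j z).toPerm]
    apply Finset.sum_congr rfl
    intro x _
    congr 1
    funext k
    simp [blk, Ysum_sq_T]
  have h2 : ∀ b : Fin M → Bool, ∑ z : Fin M → Bool, v (fun k => xor (b k) (z k)) =
      ∑ y : Fin M → Bool, v y := by
    intro b
    have hinv : Function.Involutive (fun (z : Fin M → Bool) (k : Fin M) => xor (b k) (z k)) := by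
      intro z
      funext k
      simp
    exact Equiv.sum_comp hinv.toPerm v
  have h3 : (2 : ℝ) ^ M * ∑ x : Idx n M → Bool, v (blk x j) =
      (2 : ℝ) ^ (Fintype.card (Idx n M)) * ∑ y : Fin M → Bool, v y := by
    have e1 : (2 : ℝ) ^ M * ∑ x : Idx n M → Bool, v (blk x j) =
        ∑ _z : Fin M → Bool, ∑ x : Idx n M → Bool, v (blk x j) := by
      rw [Finset.sum_const, Finset.card_univ, Fintype.card_pi, nsmul_eq_mul]
      simp
    have e2 : (2 : ℝ) ^ (Fintype.card (Idx n M)) * ∑ y : Fin M → Bool, v y =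
        ∑ _x : Idx n M → Bool, ∑ y : Fin M → Bool, v y := by
      rw [Finset.sum_const, Finset.card_univ, Fintype.card_pi, nsmul_eq_mul]
      simp
    rw [e1, e2, Finset.sum_congr rfl (fun z _ => h1 z), Finset.sum_comm]
    apply Finset.sum_congr rfl
    intro x _
    exact h2 (blk x j)
  unfold mean
  rw [Fintype.card_fin, div_eq_div_iff (by positivity) (by positivity)]
  linarith

theorem Ysum_sq (n M : ℕ) (u : (Fin M → Bool) → ℝ) :
    mean (fun x => Ysum n M u x ^ 2) = (n : ℝ) * mean (fun y => u y ^ 2) := by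
  have hcross : ∀ j l : Fin n, j ≠ l → ∑ x : Idx n M → Bool,
      ((if x (Sum.inl j) then (-1 : ℝ) else 1) * u (blk x j)) *
      ((if x (Sum.inl l) then (-1 : ℝ) else 1) * u (blk x l)) = 0 := by
    intro j l hjl
    have hinv : Function.Involutive (fun x : Idx n M → Bool => flip x (Sum.inl j)) :=
      fun x => Ysum_sq_flip x _
    let T : Equiv.Perm (Idx n M → Bool) := hinv.toPerm
    have h1 := Equiv.sum_comp T (fun x : Idx n M → Bool =>
      ((if x (Sum.inl j) then (-1 : ℝ) else 1) * u (blk x j)) *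
      ((if x (Sum.inl l) then (-1 : ℝ) else 1) * u (blk x l)))
    have h2 : ∀ x : Idx n M → Bool,
        (fun x : Idx n M → Bool =>
          ((if x (Sum.inl j) then (-1 : ℝ) else 1) * u (blk x j)) *
          ((if x (Sum.inl l) then (-1 : ℝ) else 1) * u (blk x l))) (T x) =
        -(((if x (Sum.inl j) then (-1 : ℝ) else 1) * u (blk x j)) *
          ((if x (Sum.inl l) then (-1 : ℝ) else 1) * u (blk x l))) := by
      intro x
      have e1 : (T x) (Sum.inl j) = !(x (Sum.inl j)) := by
        show flip x (Sum.inl j) (Sum.inl j) = _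
        simp [flip]
      have e2 : (T x) (Sum.inl l) = x (Sum.inl l) := by
        show flip x (Sum.inl j) (Sum.inl l) = _
        simp [flip, Ne.symm hjl]
      have e3 : ∀ k : Fin n, blk (T x) k = blk x k := by
        intro k
        funext i
        show flip x (Sum.inl j) (Sum.inr (k, i)) = x (Sum.inr (k, i))
        simp [flip]
      simp only [e1, e2, e3]
      cases x (Sum.inl j) <;> cases x (Sum.inl l) <;> simp
    rw [Finset.sum_congr rfl (fun x _ => h2 x), Finset.sum_neg_distrib] at h1
    linarith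
  have hdiag : ∀ j : Fin n, ∑ x : Idx n M → Bool,
      ((if x (Sum.inl j) then (-1 : ℝ) else 1) * u (blk x j)) *
      ((if x (Sum.inl j) then (-1 : ℝ) else 1) * u (blk x j)) =
      ∑ x : Idx n M → Bool, u (blk x j) ^ 2 := by
    intro j
    apply Finset.sum_congr rfl
    intro x _
    cases x (Sum.inl j) <;> simp <;> ring
  have hsum : ∑ x : Idx n M → Bool, Ysum n M u x ^ 2 =
      ∑ j : Fin n, ∑ x : Idx n M → Bool, u (blk x j) ^ 2 := by
    have e1 : ∀ x : Idx n M → Bool, Ysum n M u x ^ 2 = ∑ j : Fin n, ∑ l : Fin n,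
        ((if x (Sum.inl j) then (-1 : ℝ) else 1) * u (blk x j)) *
        ((if x (Sum.inl l) then (-1 : ℝ) else 1) * u (blk x l)) := by
      intro x
      unfold Ysum
      rw [sq, Finset.sum_mul_sum]
    rw [Finset.sum_congr rfl (fun x _ => e1 x), Finset.sum_comm]
    apply Finset.sum_congr rfl
    intro j _
    rw [Finset.sum_comm, Finset.sum_eq_single j]
    · exact hdiag j
    · intro l _ hl
      exact hcross j l (Ne.symm hl)
    · intro h; exact absurd (Finset.mem_univ _) h
  have hm : ∀ j : Fin n, (∑ x : Idx n M → Bool, u (blk x j) ^ 2) /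
      (2 : ℝ) ^ (Fintype.card (Idx n M)) = mean (fun y => u y ^ 2) := fun j =>
    Ysum_sq_mean n M (fun y => u y ^ 2) j
  show (∑ x : Idx n M → Bool, Ysum n M u x ^ 2) / (2 : ℝ) ^ (Fintype.card (Idx n M)) = _
  rw [hsum, Finset.sum_div, Finset.sum_congr rfl (fun j _ => hm j), Finset.sum_const,
    Finset.card_univ, Fintype.card_fin, nsmul_eq_mul]

end Pool.Helper187.HS
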