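import Pool.Agent.Helper187.HS.Defs

set_option autoImplicit false

/-! Heat smoothing on tail spaces: definitions (helper187). -/

namespace Pool.Helper187.HS
open scoped BigOperators
open Polynomial Filter Topology


theorem mean_ucnt_card (M k : ℕ) :
    (Finset.univ.filter (fun y : Fin M → Bool => cnt y = k)).card = M.choose k := by
  have h : (Finset.univ.filter (fun y : Fin M → Bool => cnt y = k)).card
      = ((Finset.univ : Finset (Fin M)).powersetCard k).card := by
    refine Finset.card_nbij' (fun y => Finset.univ.filter (fun i => y i = true))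
      (fun s => fun i => decide (i ∈ s)) ?_ ?_ ?_ ?_
    · intro y hy
      have hy' : cnt y = k := by simpa using hy
      exact Finset.mem_coe.2 (Finset.mem_powersetCard.2 ⟨Finset.subset_univ _, hy'⟩)
    · intro s hs
      have hs' : s.card = k := by
        have := Finset.mem_powersetCard.1 (Finset.mem_coe.1 hs)
        exact this.2
      simp [cnt, hs']
    · intro y _
      funext i
      simp
    · intro s _
      ext i
      simp
  rw [h, Finset.card_powersetCard, Finset.card_univ, Fintype.card_fin]

theorem mean_ucnt (n M k0 : ℕ) (φ : ℤ → ℝ) :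
    (n : ℝ) * mean (ucnt M k0 φ) = ∑ i ∈ Rng M k0, lamz n M k0 i * φ i := by
  have hcnt : ∀ y : Fin M → Bool, cnt y ≤ M := by
    intro y
    have := Finset.card_le_univ (Finset.univ.filter (fun i => y i = true))
    rw [Fintype.card_fin] at this
    exact this
  have h1 : (∑ y : Fin M → Bool, ucnt M k0 φ y)
      = ∑ i ∈ Rng M k0, (M.choose ((k0 : ℤ) + i).toNat : ℝ) * φ i := by
    rw [← Finset.sum_fiberwise_of_maps_to (s := Finset.univ) (t := Rng M k0)
      (g := fun y : Fin M → Bool => (cnt y : ℤ) - (k0 : ℤ))]
    · refine Finset.sum_congr rfl fun i hi => ?_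
      rw [Rng, Finset.mem_Icc] at hi
      have e : (Finset.univ.filter (fun y : Fin M → Bool => (cnt y : ℤ) - (k0 : ℤ) = i))
          = Finset.univ.filter (fun y : Fin M → Bool => cnt y = ((k0 : ℤ) + i).toNat) := by
        ext y
        simp only [Finset.mem_filter, Finset.mem_univ, true_and]
        omega
      have e2 : ∀ y ∈ Finset.univ.filter (fun y : Fin M → Bool => (cnt y : ℤ) - (k0 : ℤ) = i),
          ucnt M k0 φ y = φ i := by
        intro y hy
        simp only [Finset.mem_filter, Finset.mem_univ, true_and] at hy
        rw [ucnt, hy]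
      rw [Finset.sum_congr rfl e2, Finset.sum_const, e, mean_ucnt_card, nsmul_eq_mul]
    · intro y _
      rw [Rng, Finset.mem_Icc]
      have := hcnt y
      constructor <;> omega
  rw [mean, h1, Fintype.card_fin, Finset.sum_div, Finset.mul_sum]
  refine Finset.sum_congr rfl fun i hi => ?_
  rw [Rng, Finset.mem_Icc] at hi
  rw [lamz, if_pos ⟨by omega, by omega⟩]
  ring

end Pool.Helper187.HS
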