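import Pool.Agent.Helper187.HS.Defs
import Pool.Agent.Helper187.HS.P_mean_ucnt
import Pool.Agent.Helper187.HS.P_Ysum_sq

set_option autoImplicit false

/-! Heat smoothing on tail spaces: definitions (helper187). -/

namespace Pool.Helper187.HS
open scoped BigOperators
open Polynomial Filter Topology


theorem aux_Ysum_int (n M k0 : ℕ) (i : ℤ) (x : Idx n M → Bool) :
    ∃ z : ℤ, Ysum n M (lev M k0 i) x = (z : ℝ) := by
  refine ⟨∑ j : Fin n, (if x (Sum.inl j) then (-1 : ℤ) else 1) *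
    (if (cnt (blk x j) : ℤ) = (k0 : ℤ) + i then 1 else 0), ?_⟩
  unfold Ysum lev
  push_cast
  refine Finset.sum_congr rfl fun j _ => ?_
  split_ifs <;> simp

theorem Ysum_lev (n M k0 : ℕ) (i : ℤ) (hi : i ∈ Rng M k0) (hn : 0 < n) :
    nrm (4 / 3) (Ysum n M (lev M k0 i)) ≤ (lamz n M k0 i) ^ (3 / 4 : ℝ) := by
  classical
  have h1 : ∀ x, |Ysum n M (lev M k0 i) x| ^ (4 / 3 : ℝ) ≤ (Ysum n M (lev M k0 i) x) ^ 2 := by
    intro x
    obtain ⟨z, hz⟩ := aux_Ysum_int n M k0 i x
    rw [hz]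
    rcases eq_or_ne z 0 with h0 | h0
    · subst h0
      simp
    · have h2 : (1 : ℝ) ≤ |(z : ℝ)| := by
        have := Int.one_le_abs h0
        exact_mod_cast this
      calc |(z : ℝ)| ^ (4 / 3 : ℝ) ≤ |(z : ℝ)| ^ (2 : ℝ) :=
            Real.rpow_le_rpow_of_exponent_le h2 (by norm_num)
        _ = |(z : ℝ)| ^ 2 := by
            rw [← Real.rpow_natCast]; norm_num
        _ = (z : ℝ) ^ 2 := sq_abs _
  have h2 : mean (fun x => |Ysum n M (lev M k0 i) x| ^ (4 / 3 : ℝ)) ≤
      mean (fun x => (Ysum n M (lev M k0 i) x) ^ 2) := by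
    unfold mean
    exact div_le_div_of_nonneg_right (Finset.sum_le_sum fun x _ => h1 x) (by positivity)
  have h3 : (n : ℝ) * mean (fun y => lev M k0 i y ^ 2) = lamz n M k0 i := by
    have h4 : (fun y => lev M k0 i y ^ 2) = ucnt M k0 (fun j => if j = i then 1 else 0) := by
      funext y
      unfold lev ucnt
      beta_reduce
      by_cases hy : (cnt y : ℤ) = (k0 : ℤ) + i
      · rw [if_pos hy, if_pos (by omega)]; norm_num
      · rw [if_neg hy, if_neg (by omega)]; norm_num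
    rw [h4, mean_ucnt]
    simp [hi]
  rw [Ysum_sq, h3] at h2
  unfold nrm
  have h5 : (1 / (4 / 3 : ℝ)) = 3 / 4 := by norm_num
  rw [h5]
  refine Real.rpow_le_rpow ?_ h2 (by norm_num)
  unfold mean
  refine div_nonneg (Finset.sum_nonneg fun x _ => ?_) (by positivity)
  positivity

end Pool.Helper187.HS
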