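import Pool.Agent.Helper187.HS.Defs

set_option autoImplicit false

/-! Heat smoothing on tail spaces: definitions (helper187). -/

namespace Pool.Helper187.HS
open scoped BigOperators
open Polynomial Filter Topology


theorem flip_invol {ι : Type*} [DecidableEq ι] (c : ι) :
    Function.Involutive (fun x : ι → Bool => flip x c) := by
  intro x
  simp [flip]

theorem flip_same {ι : Type*} [DecidableEq ι] (x : ι → Bool) (c : ι) : flip x c c = !x c := by
  simp [flip]

theorem flip_ne {ι : Type*} [DecidableEq ι] (x : ι → Bool) (c i : ι) (h : i ≠ c) :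
    flip x c i = x i := by
  simp [flip, h]

theorem flip_sum_zero {ι : Type*} [Fintype ι] [DecidableEq ι] (c : ι) (G : (ι → Bool) → ℝ)
    (hG : ∀ x, G (flip x c) = - G x) : ∑ x, G x = 0 := by
  have h1 : ∑ x, G (flip x c) = ∑ x, G x :=
    Equiv.sum_comp (Function.Involutive.toPerm _ (flip_invol c)) G
  have h2 : ∑ x, G (flip x c) = - ∑ x, G x := by
    rw [← Finset.sum_neg_distrib]
    exact Finset.sum_congr rfl (fun x _ => hG x)
  linarith

theorem sgn_not (b : Bool) : (if (!b) = true then (-1 : ℝ) else 1) = -(if b = true then (-1 : ℝ) else 1) := by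
  cases b <;> simp

theorem chi_flip_mem {ι : Type*} [DecidableEq ι] (S : Finset ι) (x : ι → Bool) (c : ι)
    (hc : c ∈ S) : chi S (flip x c) = - chi S x := by
  unfold chi
  rw [← Finset.mul_prod_erase S _ hc, ← Finset.mul_prod_erase S _ hc, flip_same, sgn_not,
    neg_mul]
  congr 2
  apply Finset.prod_congr rfl
  intro i hi
  rw [flip_ne _ _ _ (Finset.ne_of_mem_erase hi)]

theorem chi_flip_not {ι : Type*} [DecidableEq ι] (S : Finset ι) (x : ι → Bool) (c : ι)
    (hc : c ∉ S) : chi S (flip x c) = chi S x := by
  unfold chi
  apply Finset.prod_congr rfl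
  intro i hi
  have hne : i ≠ c := by
    rintro rfl
    exact hc hi
  rw [flip_ne _ _ _ hne]

theorem sum_blk_zero {n M : ℕ} (F : (Fin M → Bool) → ℝ) (hF : ∑ y, F y = 0) (j : Fin n) :
    ∑ x : Idx n M → Bool, F (blk x j) = 0 := by
  let sh : (Fin M → Bool) → (Idx n M → Bool) → (Idx n M → Bool) := fun z x c =>
    Sum.elim (fun l => x (Sum.inl l))
      (fun p => if p.1 = j then xor (x (Sum.inr p)) (z p.2) else x (Sum.inr p)) c
  have hsh : ∀ z, Function.Involutive (sh z) := by
    intro z x
    funext c
    rcases c with l | p
    · rfl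
    · by_cases h : p.1 = j
      · simp [sh, h]
      · simp [sh, h]
  have hxor : ∀ y : Fin M → Bool,
      Function.Involutive (fun (z : Fin M → Bool) => (fun i => xor (y i) (z i))) := by
    intro y z
    funext i
    simp
  have key : ∀ z : Fin M → Bool, ∑ x : Idx n M → Bool, F (blk x j) =
      ∑ x : Idx n M → Bool, F (fun i => xor (blk x j i) (z i)) := by
    intro z
    have h1 : ∑ x, F (blk (sh z x) j) = ∑ x : Idx n M → Bool, F (blk x j) :=
      Equiv.sum_comp (Function.Involutive.toPerm _ (hsh z)) (fun x => F (blk x j))
    rw [← h1]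
    apply Finset.sum_congr rfl
    intro x _
    congr 1
    funext i
    simp [sh, blk]
  have h2 : ∑ _z : Fin M → Bool, ∑ x : Idx n M → Bool, F (blk x j) = 0 := by
    rw [Finset.sum_congr rfl (fun z _ => key z), Finset.sum_comm]
    apply Finset.sum_eq_zero
    intro x _
    have h3 := Equiv.sum_comp (Function.Involutive.toPerm _ (hxor (blk x j))) F
    rw [← hF, ← h3]
    rfl
  rw [Finset.sum_const, nsmul_eq_mul] at h2
  rcases mul_eq_zero.1 h2 with h | h
  · exfalso
    have : (0 : ℝ) < (Finset.univ : Finset (Fin M → Bool)).card := by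
      exact_mod_cast Finset.card_pos.2 Finset.univ_nonempty
    linarith
  · exact h

theorem Ysum_tail (n M d : ℕ) (u : (Fin M → Bool) → ℝ) (hu : Tail d u) :
    Tail d (Ysum n M u) := by
  intro S hS
  have h0 : ∀ x : Idx n M → Bool, Ysum n M u x * chi S x =
      ∑ j : Fin n, (if x (Sum.inl j) then (-1 : ℝ) else 1) * u (blk x j) * chi S x := by
    intro x
    rw [Ysum, Finset.sum_mul]
  rw [Finset.sum_congr rfl (fun x _ => h0 x), Finset.sum_comm]
  apply Finset.sum_eq_zero
  intro j _
  by_cases hj : Sum.inl j ∈ S
  · by_cases hc : ∃ c ∈ S, c ≠ Sum.inl j ∧ ∀ i : Fin M, c ≠ Sum.inr (j, i)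
    · obtain ⟨c, hcS, hc1, hc2⟩ := hc
      apply flip_sum_zero c
      intro x
      have hb : blk (flip x c) j = blk x j := by
        funext i
        exact flip_ne _ _ _ (fun h => hc2 i h.symm)
      rw [chi_flip_mem S x c hcS, hb, flip_ne x c _ (fun h => hc1 h.symm)]
      ring
    · push Not at hc
      let T : Finset (Fin M) := Finset.univ.filter (fun i => (Sum.inr (j, i) : Idx n M) ∈ S)
      have hST : S = insert (Sum.inl j) (T.image (fun i => (Sum.inr (j, i) : Idx n M))) := by
        ext c
        constructor
        · intro hcS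
          by_cases h1 : c = Sum.inl j
          · rw [h1]
            exact Finset.mem_insert_self _ _
          · obtain ⟨i, hi⟩ := hc c hcS h1
            apply Finset.mem_insert_of_mem
            rw [Finset.mem_image]
            refine ⟨i, ?_, hi.symm⟩
            simp only [T, Finset.mem_filter, Finset.mem_univ, true_and]
            rw [← hi]
            exact hcS
        · intro h
          rw [Finset.mem_insert] at h
          rcases h with h | h
          · rw [h]; exact hj
          · rw [Finset.mem_image] at h
            obtain ⟨i, hi, rfl⟩ := h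
            simpa [T] using hi
      have hnot : (Sum.inl j : Idx n M) ∉ T.image (fun i => (Sum.inr (j, i) : Idx n M)) := by
        intro h
        rw [Finset.mem_image] at h
        obtain ⟨i, _, hi⟩ := h
        cases hi
      have hinj : Function.Injective (fun i : Fin M => (Sum.inr (j, i) : Idx n M)) := by
        intro a b hab
        simpa using hab
      have hcard : T.card < d := by
        have h1 : S.card = T.card + 1 := by
          rw [hST, Finset.card_insert_of_notMem hnot, Finset.card_image_of_injective _ hinj]
        omega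
      have hG : ∀ x : Idx n M → Bool,
          (if x (Sum.inl j) then (-1 : ℝ) else 1) * u (blk x j) * chi S x =
          u (blk x j) * chi T (blk x j) := by
        intro x
        have h1 : chi S x = (if x (Sum.inl j) then (-1 : ℝ) else 1) * chi T (blk x j) := by
          rw [hST]
          unfold chi
          rw [Finset.prod_insert hnot, Finset.prod_image (fun a _ b _ h => hinj h)]
          rfl
        rw [h1]
        have h2 : (if x (Sum.inl j) = true then (-1 : ℝ) else 1) *
            (if x (Sum.inl j) = true then (-1 : ℝ) else 1) = 1 := by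
          split_ifs <;> norm_num
        calc _ = ((if x (Sum.inl j) = true then (-1 : ℝ) else 1) *
            (if x (Sum.inl j) = true then (-1 : ℝ) else 1)) * (u (blk x j) * chi T (blk x j)) := by
              ring
          _ = _ := by rw [h2, one_mul]
      rw [Finset.sum_congr rfl (fun x _ => hG x)]
      exact sum_blk_zero (fun y => u y * chi T y) (hu T hcard) j
  · apply flip_sum_zero (Sum.inl j)
    intro x
    have hb : blk (flip x (Sum.inl j)) j = blk x j := by
      funext i
      exact flip_ne _ _ _ (by simp)
    rw [chi_flip_not S x _ hj, hb, flip_same, sgn_not]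
    ring

end Pool.Helper187.HS
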