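import Pool.Agent.Helper187.HS.Defs

set_option autoImplicit false

/-! Heat smoothing on tail spaces: definitions (helper187). -/

namespace Pool.Helper187.HS
open scoped BigOperators
open Polynomial Filter Topology


theorem lamz_pos (n M k0 : ℕ) (hn : 0 < n) (i : ℤ) : 0 < lamz n M k0 i := by
  unfold lamz
  split_ifs with h
  · have h1 : ((k0 : ℤ) + i).toNat ≤ M := by omega
    have h2 : 0 < M.choose ((k0 : ℤ) + i).toNat := Nat.choose_pos h1
    positivity
  · exact one_pos

theorem aeval_intertwine {V : Type*} [AddCommGroup V] [Module ℝ V] (T T' S : Module.End ℝ V)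
    (h : T * S = S * T') (Φ : ℝ[X]) :
    Polynomial.aeval T Φ * S = S * Polynomial.aeval T' Φ := by
  induction Φ using Polynomial.induction_on' with
  | add p q hp hq => rw [map_add, map_add, add_mul, mul_add, hp, hq]
  | monomial k a =>
    have hk : ∀ k : ℕ, T ^ k * S = S * T' ^ k := by
      intro k
      induction k with
      | zero => simp
      | succ k ih => rw [pow_succ, mul_assoc, h, ← mul_assoc, ih, mul_assoc, ← pow_succ]
    rw [Polynomial.aeval_monomial, Polynomial.aeval_monomial, mul_assoc, hk,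
      ← mul_assoc, ← mul_assoc, Algebra.commutes]

theorem aeval_conj (n M k0 : ℕ) (hn : 0 < n) (Φ : ℝ[X]) (ψ : ℤ → ℝ) :
    Polynomial.aeval (JacG (cpS n M k0) (cmS n M k0)) Φ ψ =
      fun i => Real.sqrt (lamz n M k0 i) *
        (Polynomial.aeval (JacG (cpA M k0) (cmA M k0)) Φ
          (fun j => ψ j / Real.sqrt (lamz n M k0 j))) i := by
  have hs : ∀ i, 0 < Real.sqrt (lamz n M k0 i) := fun i => Real.sqrt_pos.mpr (lamz_pos n M k0 hn i)
  let S : Module.End ℝ (ℤ → ℝ) :=
    { toFun := fun ψ i => Real.sqrt (lamz n M k0 i) * ψ i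
      map_add' := by intro u v; funext i; simp only [Pi.add_apply]; ring
      map_smul' := by
        intro c u; funext i
        simp only [Pi.smul_apply, smul_eq_mul, RingHom.id_apply]; ring }
  have hS : ∀ (u : ℤ → ℝ) (i : ℤ), S u i = Real.sqrt (lamz n M k0 i) * u i := fun u i => rfl
  have hcomm : JacG (cpS n M k0) (cmS n M k0) * S = S * JacG (cpA M k0) (cmA M k0) := by
    apply LinearMap.ext
    intro u
    funext i
    show (S u i) / 2 - (cpS n M k0 i * (S u (i + 1)) + cmS n M k0 i * (S u (i - 1))) / 2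
      = Real.sqrt (lamz n M k0 i) *
        (u i / 2 - (cpA M k0 i * u (i + 1) + cmA M k0 i * u (i - 1)) / 2)
    rw [hS, hS, hS, cpS, cmS]
    have h1 := (hs (i + 1)).ne'
    have h2 := (hs (i - 1)).ne'
    field_simp
  have h := aeval_intertwine _ _ S hcomm Φ
  have h2 := congrArg (fun T : Module.End ℝ (ℤ → ℝ) =>
    T (fun j => ψ j / Real.sqrt (lamz n M k0 j))) h
  have h3 : S (fun j => ψ j / Real.sqrt (lamz n M k0 j)) = ψ := by
    funext i
    rw [hS]
    exact mul_div_cancel₀ _ (hs i).ne'
  simp only [Module.End.mul_apply] at h2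
  rw [h3] at h2
  rw [h2]
  funext i
  exact hS _ i

end Pool.Helper187.HS
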