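import Pool.Agent.Helper187.HS.Defs

set_option autoImplicit false

/-! Heat smoothing on tail spaces: definitions (helper187). -/

namespace Pool.Helper187.HS
open scoped BigOperators
open Polynomial Filter Topology


lemma lap_ucnt_cnt {M : ℕ} (y : Fin M → Bool) :
    (cnt y : ℤ) = ∑ j, if y j = true then (1 : ℤ) else 0 := by
  unfold cnt
  rw [Finset.card_filter]
  push_cast
  rfl

lemma lap_ucnt_flip {M : ℕ} (y : Fin M → Bool) (i : Fin M) :
    (cnt (flip y i) : ℤ) = if y i = true then (cnt y : ℤ) - 1 else (cnt y : ℤ) + 1 := by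
  have h : (cnt (flip y i) : ℤ) - (cnt y : ℤ) =
      (if flip y i i = true then (1 : ℤ) else 0) - (if y i = true then (1 : ℤ) else 0) := by
    rw [lap_ucnt_cnt, lap_ucnt_cnt, ← Finset.sum_sub_distrib]
    rw [Finset.sum_eq_single i]
    · intro j _ hj
      simp [flip, Function.update_of_ne hj]
    · intro h; exact absurd (Finset.mem_univ i) h
  have h2 : flip y i i = !(y i) := by simp [flip]
  rw [h2] at h
  cases hy : y i <;> simp [hy] at h ⊢ <;> linarith

theorem lap_ucnt (M k0 : ℕ) (φ : ℤ → ℝ) (y : Fin M → Bool) :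
    lap (ucnt M k0 φ) y =
      (((M : ℝ) - (cnt y : ℝ)) * (φ ((cnt y : ℤ) - k0) - φ ((cnt y : ℤ) - k0 + 1)) +
        (cnt y : ℝ) * (φ ((cnt y : ℤ) - k0) - φ ((cnt y : ℤ) - k0 - 1))) / 2 := by
  set A : ℝ := φ ((cnt y : ℤ) - k0) - φ ((cnt y : ℤ) - k0 - 1) with hA
  set B : ℝ := φ ((cnt y : ℤ) - k0) - φ ((cnt y : ℤ) - k0 + 1) with hB
  have h1 : ∀ i, (ucnt M k0 φ y - ucnt M k0 φ (flip y i)) / 2 =
      B / 2 + (if y i = true then (A - B) / 2 else 0) := by
    intro i
    unfold ucnt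
    rw [lap_ucnt_flip]
    cases hy : y i
    · simp only [Bool.false_eq_true, if_false, add_zero, hB]
      rw [show (cnt y : ℤ) + 1 - (k0 : ℤ) = (cnt y : ℤ) - k0 + 1 by ring]
    · simp only [if_true, hA]
      rw [show (cnt y : ℤ) - 1 - (k0 : ℤ) = (cnt y : ℤ) - k0 - 1 by ring]
      ring
  unfold lap
  simp_rw [h1]
  rw [Finset.sum_add_distrib, ← Finset.sum_filter, Finset.sum_const, Finset.sum_const,
    Finset.card_univ, Fintype.card_fin, nsmul_eq_mul, nsmul_eq_mul]
  have h2 : ((Finset.univ.filter (fun i => y i = true)).card : ℝ) = (cnt y : ℝ) := rfl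
  rw [h2]
  ring

end Pool.Helper187.HS
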