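import Pool.Agent.Helper187.HS.Defs
import Pool.Agent.Helper187.HS.P_lap_ucnt

set_option autoImplicit false

/-! Heat smoothing on tail spaces: definitions (helper187). -/

namespace Pool.Helper187.HS
open scoped BigOperators
open Polynomial Filter Topology


theorem aeval_ucnt_step (M k0 : ℕ) (hM : 0 < M) (φ : ℤ → ℝ) :
    ((M : ℝ)⁻¹ • lapL M) (ucnt M k0 φ) =
      ucnt M k0 (JacG (cpA M k0) (cmA M k0) φ) := by
  funext y
  have hM' : (M : ℝ) ≠ 0 := by exact_mod_cast hM.ne'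
  have h1 : ((M : ℝ)⁻¹ • lapL M) (ucnt M k0 φ) y = (M : ℝ)⁻¹ * lap (ucnt M k0 φ) y := rfl
  have h2 : ucnt M k0 (JacG (cpA M k0) (cmA M k0) φ) y =
      φ ((cnt y : ℤ) - k0) / 2 - (cpA M k0 ((cnt y : ℤ) - k0) * φ ((cnt y : ℤ) - k0 + 1) +
        cmA M k0 ((cnt y : ℤ) - k0) * φ ((cnt y : ℤ) - k0 - 1)) / 2 := rfl
  rw [h1, h2, lap_ucnt, cpA, cmA]
  push_cast
  field_simp
  ring

theorem aeval_ucnt_pow (M k0 : ℕ) (hM : 0 < M) (n : ℕ) : ∀ (φ : ℤ → ℝ),
    (((M : ℝ)⁻¹ • lapL M) ^ n) (ucnt M k0 φ) =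
      ucnt M k0 (((JacG (cpA M k0) (cmA M k0)) ^ n) φ) := by
  induction n with
  | zero => intro φ; rfl
  | succ n ih =>
    intro φ
    rw [pow_succ, pow_succ, Module.End.mul_apply, Module.End.mul_apply, aeval_ucnt_step M k0 hM,
      ih]

theorem aeval_ucnt (M k0 : ℕ) (hM : 0 < M) (Φ : ℝ[X]) (φ : ℤ → ℝ) :
    Polynomial.aeval ((M : ℝ)⁻¹ • lapL M) Φ (ucnt M k0 φ) =
      ucnt M k0 (Polynomial.aeval (JacG (cpA M k0) (cmA M k0)) Φ φ) := by
  induction Φ using Polynomial.induction_on' with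
  | add p q hp hq =>
    rw [map_add, map_add, LinearMap.add_apply, LinearMap.add_apply, hp, hq]
    rfl
  | monomial n a =>
    rw [Polynomial.aeval_monomial, Polynomial.aeval_monomial, Module.End.mul_apply,
      Module.End.mul_apply, aeval_ucnt_pow M k0 hM, Module.algebraMap_end_apply,
      Module.algebraMap_end_apply]
    rfl

end Pool.Helper187.HS
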