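import Pool.Agent.Helper187.HS.Defs

set_option autoImplicit false

/-! Heat smoothing on tail spaces: definitions (helper187). -/

namespace Pool.Helper187.HS
open scoped BigOperators
open Polynomial Filter Topology


theorem nrm_le_sq {ι : Type*} [Fintype ι] [DecidableEq ι] (f : (ι → Bool) → ℝ) :
    nrm (4 / 3) f ≤ Real.sqrt (mean (fun x => f x ^ 2)) := by
  have h2 : (0 : ℝ) < 2 ^ (Fintype.card ι) := by positivity
  have hsum : ∑ _x : ι → Bool, (1 / 2 ^ (Fintype.card ι) : ℝ) = 1 := by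
    rw [Finset.sum_const, Finset.card_univ, Fintype.card_fun, Fintype.card_bool, nsmul_eq_mul]
    push_cast
    field_simp
  have hm : ∀ g : (ι → Bool) → ℝ, mean g = ∑ x, (1 / 2 ^ (Fintype.card ι) : ℝ) * g x := by
    intro g
    unfold mean
    rw [Finset.sum_div]
    apply Finset.sum_congr rfl
    intro x _
    ring
  have hj := Real.rpow_arith_mean_le_arith_mean_rpow Finset.univ
    (fun _ : ι → Bool => (1 / 2 ^ (Fintype.card ι) : ℝ)) (fun x => |f x| ^ (4 / 3 : ℝ))
    (fun _ _ => by positivity) hsum (fun _ _ => by positivity) (p := 3 / 2) (by norm_num)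
  have he : ∀ x, (|f x| ^ (4 / 3 : ℝ)) ^ (3 / 2 : ℝ) = f x ^ 2 := by
    intro x
    rw [← Real.rpow_mul (abs_nonneg _)]
    norm_num
  simp only [he] at hj
  rw [← hm, ← hm] at hj
  have hm0 : 0 ≤ mean (fun x => |f x| ^ (4 / 3 : ℝ)) := by
    unfold mean
    exact div_nonneg (Finset.sum_nonneg (fun x _ => by positivity)) h2.le
  unfold nrm
  rw [Real.sqrt_eq_rpow]
  have e : (mean fun x => |f x| ^ (4 / 3 : ℝ)) ^ (1 / (4 / 3) : ℝ) =
      ((mean fun x => |f x| ^ (4 / 3 : ℝ)) ^ (3 / 2 : ℝ)) ^ (1 / 2 : ℝ) := by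
    rw [← Real.rpow_mul hm0]
    norm_num
  rw [e]
  exact Real.rpow_le_rpow (Real.rpow_nonneg hm0 _) hj (by norm_num)

end Pool.Helper187.HS
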