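import Pool.Agent.Helper187.HS.Defs
import Pool.Agent.Helper187.HS.P_nrm_le_sq
import Pool.Agent.Helper187.HS.P_Ysum_sq
import Pool.Agent.Helper187.HS.P_Ysum_tail
import Pool.Agent.Helper187.HS.P_Ysum_lev

set_option autoImplicit false

/-! Heat smoothing on tail spaces: definitions (helper187). -/

namespace Pool.Helper187.HS
open scoped BigOperators
open Polynomial Filter Topology


theorem good_aux_add (n M : ℕ) (u v : (Fin M → Bool) → ℝ) :
    Ysum n M (u + v) = Ysum n M u + Ysum n M v := by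
  funext x
  simp only [Ysum, Pi.add_apply]
  rw [← Finset.sum_add_distrib]
  exact Finset.sum_congr rfl (fun j _ => by ring)

theorem good_aux_smul (n M : ℕ) (c : ℝ) (u : (Fin M → Bool) → ℝ) :
    Ysum n M (c • u) = c • Ysum n M u := by
  funext x
  simp only [Ysum, Pi.smul_apply, smul_eq_mul]
  rw [Finset.mul_sum]
  exact Finset.sum_congr rfl (fun j _ => by ring)

theorem good_of_functional (n M k0 d : ℕ) (hn : 0 < n)
    (g : ((Idx n M → Bool) → ℝ) →ₗ[ℝ] ℝ) (hg : ∀ Y, |g Y| ≤ nrm (4 / 3) Y)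
    (h0 : ∀ w, Tail d w → g w = 0) :
    ∃ G : ((Fin M → Bool) → ℝ) →ₗ[ℝ] ℝ, Good n M k0 d G ∧ ∀ u, G u = g (Ysum n M u) := by
  refine ⟨{ toFun := fun u => g (Ysum n M u)
            map_add' := fun u v => by rw [good_aux_add, map_add]
            map_smul' := fun c u => by rw [good_aux_smul, map_smul]; rfl }, ⟨?_, ?_, ?_⟩,
    fun u => rfl⟩
  · intro u
    refine (hg (Ysum n M u)).trans ((nrm_le_sq _).trans ?_)
    rw [Ysum_sq]
  · intro i hi
    exact (hg _).trans (Ysum_lev n M k0 i hi hn)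
  · intro u hu
    exact h0 _ (Ysum_tail n M d u hu)

end Pool.Helper187.HS
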