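import Pool.Agent.Helper187.HS.Defs

set_option autoImplicit false

/-! Heat smoothing on tail spaces: definitions (helper187). -/

namespace Pool.Helper187.HS
open scoped BigOperators
open Polynomial Filter Topology


theorem hb_fact : (1 : ENNReal) ≤ ENNReal.ofReal (4 / 3) := by
  rw [ENNReal.one_le_ofReal]; norm_num

theorem hb_toReal : (ENNReal.ofReal (4 / 3)).toReal = 4 / 3 := by
  rw [ENNReal.toReal_ofReal (by norm_num)]

theorem nrm_eq_piLp {ι : Type*} [Fintype ι] [DecidableEq ι] (f : (ι → Bool) → ℝ) :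
    nrm (4 / 3) f = (((2 : ℝ) ^ (Fintype.card ι)) ^ (3 / 4 : ℝ))⁻¹ *
      ‖(WithLp.toLp (ENNReal.ofReal (4 / 3)) f : PiLp (ENNReal.ofReal (4 / 3))
        (fun _ : ι → Bool => ℝ))‖ := by
  rw [PiLp.norm_eq_sum (by rw [hb_toReal]; norm_num), hb_toReal, nrm, mean]
  have h0 : 0 ≤ ∑ x : ι → Bool, |f x| ^ (4 / 3 : ℝ) :=
    Finset.sum_nonneg fun x _ => Real.rpow_nonneg (abs_nonneg _) _
  rw [Real.div_rpow h0 (by positivity)]
  have h1 : (1 / (4 / 3) : ℝ) = 3 / 4 := by norm_num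
  rw [h1, div_eq_inv_mul]
  simp only [Real.norm_eq_abs]

/-- the tail functions as a submodule -/
noncomputable def tailSub (ι : Type*) [Fintype ι] [DecidableEq ι] (d : ℕ) :
    Submodule ℝ ((ι → Bool) → ℝ) where
  carrier := {w | Tail d w}
  add_mem' := by
    intro a b ha hb S hS
    simp only [Pi.add_apply, add_mul, Finset.sum_add_distrib, ha S hS, hb S hS, add_zero]
  zero_mem' := by
    intro S hS
    simp
  smul_mem' := by
    intro c a ha S hS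
    simp only [Pi.smul_apply, smul_eq_mul, mul_assoc, ← Finset.mul_sum, ha S hS, mul_zero]

theorem hahn_banach {ι : Type*} [Fintype ι] [DecidableEq ι] (d : ℕ) (F : (ι → Bool) → ℝ)
    (η : ℝ)
    (hF : ∀ g : ((ι → Bool) → ℝ) →ₗ[ℝ] ℝ, (∀ Y, |g Y| ≤ nrm (4 / 3) Y) →
      (∀ w, Tail d w → g w = 0) → |g F| ≤ η) (ε : ℝ) (hε : 0 < ε) :
    ∃ w : (ι → Bool) → ℝ, Tail d w ∧ nrm (4 / 3) (fun x => F x - w x) ≤ η + ε := by
  haveI : Fact ((1 : ENNReal) ≤ ENNReal.ofReal (4 / 3)) := ⟨hb_fact⟩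
  let p : ENNReal := ENNReal.ofReal (4 / 3)
  let E := PiLp p (fun _ : ι → Bool => ℝ)
  let e : ((ι → Bool) → ℝ) →ₗ[ℝ] E := (WithLp.linearEquiv p ℝ ((ι → Bool) → ℝ)).symm.toLinearMap
  let e' : E →ₗ[ℝ] ((ι → Bool) → ℝ) := (WithLp.linearEquiv p ℝ ((ι → Bool) → ℝ)).toLinearMap
  let W : Submodule ℝ E := (tailSub ι d).comap e'
  set c : ℝ := (((2 : ℝ) ^ (Fintype.card ι)) ^ (3 / 4 : ℝ))⁻¹ with hc
  have hc0 : 0 < c := by positivity
  have hn : ∀ f : (ι → Bool) → ℝ, nrm (4 / 3) f = c * ‖e f‖ := fun f => nrm_eq_piLp f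
  obtain ⟨g0, hg0, hg1⟩ := exists_dual_vector'' ℝ (W.mkQ (e F))
  let g : ((ι → Bool) → ℝ) →ₗ[ℝ] ℝ := c • (g0.toLinearMap ∘ₗ W.mkQ ∘ₗ e)
  have hgval : ∀ Y, g Y = c * g0 (W.mkQ (e Y)) := fun Y => rfl
  have h1 : |g F| ≤ η := by
    apply hF g
    · intro Y
      rw [hgval, abs_mul, abs_of_pos hc0, hn]
      refine mul_le_mul_of_nonneg_left ?_ hc0.le
      have h2 : |g0 (W.mkQ (e Y))| ≤ ‖g0‖ * ‖W.mkQ (e Y)‖ := by
        rw [← Real.norm_eq_abs]
        exact g0.le_opNorm _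
      have h3 : ‖W.mkQ (e Y)‖ ≤ ‖e Y‖ := Submodule.Quotient.norm_mk_le W (e Y)
      calc |g0 (W.mkQ (e Y))| ≤ ‖g0‖ * ‖W.mkQ (e Y)‖ := h2
        _ ≤ 1 * ‖e Y‖ := mul_le_mul hg0 h3 (norm_nonneg _) zero_le_one
        _ = ‖e Y‖ := one_mul _
    · intro w hw
      rw [hgval]
      have : W.mkQ (e w) = 0 := by
        rw [Submodule.mkQ_apply, Submodule.Quotient.mk_eq_zero]
        exact hw
      rw [this, map_zero, mul_zero]
  rw [hgval, hg1, abs_mul, abs_of_pos hc0] at h1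
  have h1' : c * ‖W.mkQ (e F)‖ ≤ η := by
    refine le_trans ?_ h1
    exact le_of_eq (by rw [RCLike.ofReal_real_eq_id, id, abs_of_nonneg (norm_nonneg _)])
  obtain ⟨m, hm1, hm2⟩ := Submodule.Quotient.norm_mk_lt (W.mkQ (e F)) (div_pos hε hc0)
  have hmem : e F - m ∈ W := by
    rw [Submodule.mkQ_apply] at hm1
    have := (Submodule.Quotient.eq W).1 hm1.symm
    exact this
  refine ⟨e' (e F - m), hmem, ?_⟩
  have hfun : (fun x => F x - e' (e F - m) x) = e' m := by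
    have : e' (e F - m) = F - e' m := by
      rw [map_sub]
      rfl
    rw [this]
    funext x
    simp
  rw [hfun, hn]
  have hem : e (e' m) = m := rfl
  rw [hem]
  have h5 : c * ‖m‖ ≤ c * (‖W.mkQ (e F)‖ + ε / c) := mul_le_mul_of_nonneg_left hm2.le hc0.le
  have h6 : c * (‖W.mkQ (e F)‖ + ε / c) = c * ‖W.mkQ (e F)‖ + ε := by
    field_simp
  linarith

end Pool.Helper187.HS
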