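import Pool.Agent.Helper187.HS.Defs

set_option autoImplicit false

/-! Heat smoothing on tail spaces: definitions (helper187). -/

namespace Pool.Helper187.HS
open scoped BigOperators
open Polynomial Filter Topology


lemma lamz_left_val (n M K i : ℕ) (hi : i ≤ K) (hK : K ≤ M) :
    lamz n M K (-(i : ℤ)) = (n : ℝ) * (M.choose (K - i) : ℝ) / 2 ^ M := by
  unfold lamz
  have h1 : 0 ≤ (K : ℤ) + -(i : ℤ) ∧ (K : ℤ) + -(i : ℤ) ≤ (M : ℤ) := by omega
  rw [if_pos h1]
  have h2 : ((K : ℤ) + -(i : ℤ)).toNat = K - i := by omega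
  rw [h2]

lemma lamz_left_choose (L m k : ℕ) (hm : 1 ≤ m) (hk : k + 1 ≤ KK L m) :
    (MM L m).choose k * (L + 1) ≤ (MM L m).choose (k + 1) * L := by
  have h1 := Nat.choose_succ_right_eq (MM L m) k
  have hM : MM L m = KK L m + 4 * (L + 1) * m := by unfold MM KK; ring
  have h2 : 4 * (L + 1) * m ≤ MM L m - k := by omega
  have h3 : (MM L m).choose k * (4 * (L + 1) * m) ≤ (MM L m).choose (k + 1) * (4 * L * m) := by
    calc (MM L m).choose k * (4 * (L + 1) * m) ≤ (MM L m).choose k * (MM L m - k) :=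
          Nat.mul_le_mul_left _ h2
      _ = (MM L m).choose (k + 1) * (k + 1) := h1.symm
      _ ≤ (MM L m).choose (k + 1) * (4 * L * m) := Nat.mul_le_mul_left _ hk
  have h4 : 0 < 4 * m := by omega
  apply Nat.le_of_mul_le_mul_left _ h4
  calc 4 * m * ((MM L m).choose k * (L + 1)) = (MM L m).choose k * (4 * (L + 1) * m) := by ring
    _ ≤ (MM L m).choose (k + 1) * (4 * L * m) := h3
    _ = 4 * m * ((MM L m).choose (k + 1) * L) := by ring

theorem lamz_left (L m n : ℕ) (hL : 1 ≤ L) (hm : 1 ≤ m)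
    (h2 : lamz n (MM L m) (KK L m) 0 ≤ 2) (i : ℕ) (hi : i ≤ KK L m) :
    lamz n (MM L m) (KK L m) (-(i : ℤ)) ≤ 2 * ((L : ℝ) / (L + 1)) ^ i := by
  have hKM : KK L m ≤ MM L m := by
    have hM : MM L m = KK L m + 4 * (L + 1) * m := by unfold MM KK; ring
    omega
  induction i with
  | zero => simpa using h2
  | succ i ih =>
    have h3 := ih (by omega)
    rw [lamz_left_val _ _ _ _ (by omega) hKM] at h3
    rw [lamz_left_val _ _ _ _ hi hKM]
    have h4 := lamz_left_choose L m (KK L m - (i + 1)) hm (by omega)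
    have h5 : KK L m - (i + 1) + 1 = KK L m - i := by omega
    rw [h5] at h4
    have h6 : ((MM L m).choose (KK L m - (i + 1)) : ℝ) * ((L : ℝ) + 1) ≤
        ((MM L m).choose (KK L m - i) : ℝ) * L := by exact_mod_cast h4
    have hL1 : (0 : ℝ) < (L : ℝ) + 1 := by positivity
    have h7 : ((MM L m).choose (KK L m - (i + 1)) : ℝ) ≤
        ((MM L m).choose (KK L m - i) : ℝ) * ((L : ℝ) / (L + 1)) := by
      rw [mul_div_assoc', le_div_iff₀ hL1]; exact h6
    calc (n : ℝ) * ((MM L m).choose (KK L m - (i + 1)) : ℝ) / 2 ^ (MM L m)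
        ≤ (n : ℝ) * (((MM L m).choose (KK L m - i) : ℝ) * ((L : ℝ) / (L + 1))) / 2 ^ (MM L m) := by
          gcongr
      _ = ((n : ℝ) * ((MM L m).choose (KK L m - i) : ℝ) / 2 ^ (MM L m)) * ((L : ℝ) / (L + 1)) := by
          ring
      _ ≤ (2 * ((L : ℝ) / (L + 1)) ^ i) * ((L : ℝ) / (L + 1)) := by
          apply mul_le_mul_of_nonneg_right h3; positivity
      _ = 2 * ((L : ℝ) / (L + 1)) ^ (i + 1) := by ring

end Pool.Helper187.HS
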