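import Pool.Agent.Helper187.HS.Defs

set_option autoImplicit false

/-! Heat smoothing on tail spaces: definitions (helper187). -/

namespace Pool.Helper187.HS
open scoped BigOperators
open Polynomial Filter Topology


theorem lamz_right_nat (n M k0 i : ℕ) (h : k0 + i ≤ M) :
    lamz n M k0 (i : ℤ) = (n : ℝ) * (M.choose (k0 + i) : ℝ) / 2 ^ M := by
  unfold lamz
  rw [if_pos ⟨by omega, by omega⟩]
  have h1 : ((k0 : ℤ) + (i : ℤ)).toNat = k0 + i := by omega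
  rw [h1]

theorem lamz_right_step (L m k : ℕ) (hL : 1 ≤ L) (hk : KK L m ≤ k) (hkM : k ≤ MM L m) :
    ((MM L m).choose (k + 1) : ℝ) ≤ ((L : ℝ) + 1) / L * ((MM L m).choose k : ℝ) := by
  have h1 := Nat.choose_succ_right_eq (MM L m) k
  have h2 : (((MM L m).choose (k + 1) * (k + 1) : ℕ) : ℝ) =
      (((MM L m).choose k * (MM L m - k) : ℕ) : ℝ) := by rw [h1]
  rw [Nat.cast_mul, Nat.cast_mul, Nat.cast_sub hkM] at h2
  have hM : (MM L m : ℝ) = 4 * (2 * L + 1) * m := by unfold MM; push_cast; ring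
  have hK : (KK L m : ℝ) ≤ k := by exact_mod_cast hk
  have hK2 : (KK L m : ℝ) = 4 * L * m := by unfold KK; push_cast; ring
  have hL0 : (0 : ℝ) < L := by exact_mod_cast hL
  have hk0 : (0 : ℝ) ≤ k := Nat.cast_nonneg k
  have hm0 : (0 : ℝ) ≤ m := Nat.cast_nonneg m
  have hC : (0 : ℝ) ≤ ((MM L m).choose k : ℝ) := Nat.cast_nonneg _
  have hC1 : (0 : ℝ) ≤ ((MM L m).choose (k + 1) : ℝ) := Nat.cast_nonneg _
  have h3 : ((MM L m : ℝ) - k) * L ≤ ((L : ℝ) + 1) * (k + 1) := by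
    rw [hM]
    rw [hK2] at hK
    nlinarith
  have h4 : ((k + 1 : ℕ) : ℝ) = (k : ℝ) + 1 := by push_cast; ring
  rw [h4] at h2
  have h5 : (0 : ℝ) < (k : ℝ) + 1 := by linarith
  rw [div_mul_eq_mul_div, le_div_iff₀ hL0]
  refine le_of_mul_le_mul_right ?_ h5
  calc ((MM L m).choose (k + 1) : ℝ) * L * ((k : ℝ) + 1)
      = (((MM L m).choose (k + 1) : ℝ) * ((k : ℝ) + 1)) * L := by ring
    _ = ((MM L m).choose k : ℝ) * (((MM L m : ℝ) - k) * L) := by rw [h2]; ring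
    _ ≤ ((MM L m).choose k : ℝ) * (((L : ℝ) + 1) * (k + 1)) := mul_le_mul_of_nonneg_left h3 hC
    _ = _ := by ring

theorem lamz_right (L m n : ℕ) (hL : 1 ≤ L) (hm : 1 ≤ m)
    (h2 : lamz n (MM L m) (KK L m) 0 ≤ 2) (i : ℕ) (hi : KK L m + i ≤ MM L m) :
    lamz n (MM L m) (KK L m) (i : ℤ) ≤ 2 * (((L : ℝ) + 1) / L) ^ i := by
  induction i with
  | zero =>
    rw [pow_zero, mul_one]
    exact h2
  | succ i ih =>
    have h3 := ih (by omega)
    rw [lamz_right_nat n _ _ i (by omega)] at h3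
    rw [lamz_right_nat n _ _ (i + 1) hi]
    have h4 := lamz_right_step L m (KK L m + i) hL (by omega) (by omega)
    have hL0 : (0 : ℝ) < L := by exact_mod_cast hL
    have hr : 0 ≤ ((L : ℝ) + 1) / L := by positivity
    have h5 : (0 : ℝ) ≤ (n : ℝ) / 2 ^ (MM L m) := by positivity
    calc (n : ℝ) * ((MM L m).choose (KK L m + (i + 1)) : ℝ) / 2 ^ (MM L m)
        = ((n : ℝ) / 2 ^ (MM L m)) * ((MM L m).choose (KK L m + i + 1) : ℝ) := by
          rw [← add_assoc]; ring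
      _ ≤ ((n : ℝ) / 2 ^ (MM L m)) * (((L : ℝ) + 1) / L * ((MM L m).choose (KK L m + i) : ℝ)) :=
          mul_le_mul_of_nonneg_left h4 h5
      _ = (((L : ℝ) + 1) / L) * ((n : ℝ) * ((MM L m).choose (KK L m + i) : ℝ) / 2 ^ (MM L m)) := by
          ring
      _ ≤ (((L : ℝ) + 1) / L) * (2 * (((L : ℝ) + 1) / L) ^ i) :=
          mul_le_mul_of_nonneg_left h3 hr
      _ = 2 * (((L : ℝ) + 1) / L) ^ (i + 1) := by rw [pow_succ]; ring

end Pool.Helper187.HS
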