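import Pool.Agent.Helper187.HS.Defs

set_option autoImplicit false

/-! Heat smoothing on tail spaces: definitions (helper187). -/

namespace Pool.Helper187.HS
open scoped BigOperators
open Polynomial Filter Topology


theorem cmS_formula (n M k0 : ℕ) (hn : 0 < n) (i : ℤ) (h1 : 1 ≤ (k0 : ℤ) + i)
    (h2 : (k0 : ℤ) + i ≤ (M : ℤ)) :
    cmS n M k0 i = (((k0 : ℝ) + (i : ℝ)) / (M : ℝ)) *
      Real.sqrt (((M : ℝ) - ((k0 : ℝ) + (i : ℝ)) + 1) / ((k0 : ℝ) + (i : ℝ))) := by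
  obtain ⟨k, hk⟩ : ∃ k : ℕ, (k0 : ℤ) + i = (k : ℤ) + 1 := by
    refine ⟨((k0 : ℤ) + i - 1).toNat, ?_⟩
    rw [Int.toNat_of_nonneg (by omega)]; ring
  have hk' : (k0 : ℤ) + (i - 1) = (k : ℤ) := by omega
  have hkM : k + 1 ≤ M := by omega
  have hkR : (k0 : ℝ) + (i : ℝ) = (k : ℝ) + 1 := by exact_mod_cast hk
  have hl1 : lamz n M k0 i = (n : ℝ) * (M.choose (k + 1) : ℝ) / 2 ^ M := by
    unfold lamz
    rw [if_pos ⟨by omega, h2⟩]
    have : ((k0 : ℤ) + i).toNat = k + 1 := by omega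
    rw [this]
  have hl2 : lamz n M k0 (i - 1) = (n : ℝ) * (M.choose k : ℝ) / 2 ^ M := by
    unfold lamz
    rw [if_pos ⟨by omega, by omega⟩]
    have : ((k0 : ℤ) + (i - 1)).toNat = k := by omega
    rw [this]
  have hc : (0 : ℝ) < (M.choose k : ℝ) := by
    exact_mod_cast Nat.choose_pos (by omega)
  have hn' : (0 : ℝ) < (n : ℝ) := by exact_mod_cast hn
  have hratio : lamz n M k0 i / lamz n M k0 (i - 1) = ((M : ℝ) - k) / ((k : ℝ) + 1) := by
    rw [hl1, hl2]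
    have h3 := Nat.choose_succ_right_eq M k
    have h4 : (M.choose (k + 1) : ℝ) * ((k : ℝ) + 1) = (M.choose k : ℝ) * ((M : ℝ) - k) := by
      have h5 : ((M - k : ℕ) : ℝ) = (M : ℝ) - k := Nat.cast_sub (by omega)
      rw [← h5]
      exact_mod_cast h3
    have hk1 : (0 : ℝ) < (k : ℝ) + 1 := by positivity
    rw [div_div_div_cancel_right₀ (by positivity), mul_div_mul_left _ _ hn'.ne',
      div_eq_div_iff hc.ne' hk1.ne']
    linarith
  unfold cmS cmA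
  rw [← Real.sqrt_div (by rw [hl1]; positivity), hratio, hkR]
  congr 3
  ring

theorem cmS_tendsto (L : ℕ) (hL : 1 ≤ L) (n : ℕ → ℕ) (hn : ∀ m, 0 < n m) (i : ℤ) :
    Tendsto (fun m => cmS (n m) (MM L m) (KK L m) i) atTop
      (nhds (Real.sqrt ((L : ℝ) * (L + 1)) / (2 * L + 1))) := by
  have hL' : (0 : ℝ) < L := by exact_mod_cast hL
  have hev : ∀ᶠ m : ℕ in atTop, cmS (n m) (MM L m) (KK L m) i =
      ((4 * (L : ℝ) + (i : ℝ) / (m : ℝ)) / (4 * (2 * (L : ℝ) + 1))) *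
      Real.sqrt ((4 * ((L : ℝ) + 1) + (1 - (i : ℝ)) / (m : ℝ)) / (4 * (L : ℝ) + (i : ℝ) / (m : ℝ))) := by
    filter_upwards [eventually_ge_atTop (i.natAbs + 1)] with m hm
    have hm0 : 0 < m := by omega
    have hmR : (0 : ℝ) < m := by exact_mod_cast hm0
    have hm1 : (m : ℤ) ≤ (L : ℤ) * (m : ℤ) := by
      have : (1 : ℤ) ≤ (L : ℤ) := by exact_mod_cast hL
      nlinarith
    have h1 : 1 ≤ ((KK L m : ℕ) : ℤ) + i := by
      unfold KK
      push_cast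
      have h3 : 4 * (L : ℤ) * (m : ℤ) = 4 * ((L : ℤ) * (m : ℤ)) := by ring
      rw [h3]
      omega
    have h2 : ((KK L m : ℕ) : ℤ) + i ≤ ((MM L m : ℕ) : ℤ) := by
      unfold KK MM
      push_cast
      have h3 : 4 * (L : ℤ) * (m : ℤ) = 4 * ((L : ℤ) * (m : ℤ)) := by ring
      have h4 : 4 * (2 * (L : ℤ) + 1) * (m : ℤ) = 8 * ((L : ℤ) * (m : ℤ)) + 4 * (m : ℤ) := by ring
      rw [h3, h4]
      omega
    rw [cmS_formula _ _ _ (hn m) i h1 h2]
    have hK : ((KK L m : ℕ) : ℝ) = 4 * L * m := by unfold KK; push_cast; ring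
    have hM : ((MM L m : ℕ) : ℝ) = 4 * (2 * L + 1) * m := by unfold MM; push_cast; ring
    rw [hK, hM]
    have e1 : (4 * (L : ℝ) * m + i) / (4 * (2 * L + 1) * m) =
        (4 * (L : ℝ) + (i : ℝ) / (m : ℝ)) / (4 * (2 * (L : ℝ) + 1)) := by
      field_simp
    have e2 : (4 * (2 * (L : ℝ) + 1) * m - (4 * L * m + i) + 1) / (4 * L * m + i) =
        (4 * ((L : ℝ) + 1) + (1 - (i : ℝ)) / (m : ℝ)) / (4 * (L : ℝ) + (i : ℝ) / (m : ℝ)) := by
      have e3 : 4 * (2 * (L : ℝ) + 1) * m - (4 * L * m + i) + 1 =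
          (4 * ((L : ℝ) + 1) + (1 - (i : ℝ)) / (m : ℝ)) * m := by
        field_simp; ring
      have e4 : 4 * (L : ℝ) * m + i = (4 * (L : ℝ) + (i : ℝ) / (m : ℝ)) * m := by
        field_simp
      rw [e3, e4, mul_div_mul_right _ _ hmR.ne']
    rw [e1, e2]
  have hz1 : Tendsto (fun m : ℕ => (i : ℝ) / (m : ℝ)) atTop (nhds 0) :=
    tendsto_const_div_atTop_nhds_zero_nat _
  have hz2 : Tendsto (fun m : ℕ => (1 - (i : ℝ)) / (m : ℝ)) atTop (nhds 0) :=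
    tendsto_const_div_atTop_nhds_zero_nat _
  have t1 : Tendsto (fun m : ℕ => (4 * (L : ℝ) + (i : ℝ) / (m : ℝ)) / (4 * (2 * (L : ℝ) + 1)))
      atTop (nhds ((4 * (L : ℝ) + 0) / (4 * (2 * (L : ℝ) + 1)))) :=
    (hz1.const_add _).div_const _
  have t2 : Tendsto (fun m : ℕ => Real.sqrt ((4 * ((L : ℝ) + 1) + (1 - (i : ℝ)) / (m : ℝ)) /
      (4 * (L : ℝ) + (i : ℝ) / (m : ℝ)))) atTop
      (nhds (Real.sqrt ((4 * ((L : ℝ) + 1) + 0) / (4 * (L : ℝ) + 0)))) := by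
    apply (Real.continuous_sqrt.tendsto _).comp
    exact (hz2.const_add _).div (hz1.const_add _) (by positivity)
  have t3 := t1.mul t2
  have hlim : (4 * (L : ℝ) + 0) / (4 * (2 * (L : ℝ) + 1)) *
      Real.sqrt ((4 * ((L : ℝ) + 1) + 0) / (4 * (L : ℝ) + 0)) =
      Real.sqrt ((L : ℝ) * (L + 1)) / (2 * L + 1) := by
    have e1 : (4 * ((L : ℝ) + 1) + 0) / (4 * (L : ℝ) + 0) = ((L : ℝ) * (L + 1)) / (L : ℝ) ^ 2 := by
      field_simp; ring
    rw [e1, Real.sqrt_div (by positivity), Real.sqrt_sq hL'.le]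
    field_simp
    ring
  rw [hlim] at t3
  exact t3.congr' (hev.mono fun m hm => hm.symm)

end Pool.Helper187.HS
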