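import Pool.Agent.Helper187.HS.Defs

set_option autoImplicit false

/-! Heat smoothing on tail spaces: definitions (helper187). -/

namespace Pool.Helper187.HS
open scoped BigOperators
open Polynomial Filter Topology


theorem strip_analytic (h : ℤ → ℝ) (B r : ℝ) (hr : 1 < r) (hB : ∀ i, |h i| ≤ B)
    (hdec : ∀ i : ℕ, |h (-(i : ℤ))| ≤ B * (1 / r) ^ i) :
    DifferentiableOn ℂ (fun w : ℂ => ∑' j : ℤ, (h j : ℂ) * Complex.exp ((j : ℂ) * w))
      {w : ℂ | -Real.log r < w.re ∧ w.re < 0} := by
  have hB0 : 0 ≤ B := (abs_nonneg _).trans (hB 0)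
  have hr0 : 0 < r := by linarith
  intro w0 hw0
  obtain ⟨hw1, hw2⟩ := hw0
  obtain ⟨s1, hs1, hs1'⟩ := exists_between hw1
  obtain ⟨s2, hs2, hs2'⟩ := exists_between hw2
  set V : Set ℂ := {w : ℂ | s1 < w.re ∧ w.re < s2} with hV
  have hVo : IsOpen V :=
    (isOpen_lt continuous_const Complex.continuous_re).inter
      (isOpen_lt Complex.continuous_re continuous_const)
  have hw0V : w0 ∈ V := ⟨hs1', hs2⟩
  set u : ℤ → ℝ := fun j => |h j| * (Real.exp ((j : ℝ) * s2) + Real.exp ((j : ℝ) * s1)) with hu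
  have hu0 : ∀ j, 0 ≤ u j := fun j => by
    simp only [hu]; positivity
  have hs12 : s1 < s2 := hs1'.trans hs2
  have hsum : Summable u := by
    refine Summable.of_nat_of_neg ?_ ?_
    · have hg : Summable (fun n : ℕ => 2 * B * Real.exp s2 ^ n) :=
        (summable_geometric_of_lt_one (Real.exp_pos _).le
          (by rw [Real.exp_lt_one_iff]; exact hs2')).mul_left _
      refine Summable.of_nonneg_of_le (fun n => hu0 _) (fun n => ?_) hg
      simp only [hu]
      have e1 : Real.exp (((n : ℤ) : ℝ) * s2) = Real.exp s2 ^ n := by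
        rw [Int.cast_natCast, Real.exp_nat_mul]
      have e2 : Real.exp (((n : ℤ) : ℝ) * s1) ≤ Real.exp (((n : ℤ) : ℝ) * s2) := by
        apply Real.exp_le_exp.2
        rw [Int.cast_natCast]
        exact mul_le_mul_of_nonneg_left hs12.le (Nat.cast_nonneg n)
      rw [← e1]
      calc |h n| * (Real.exp (((n : ℤ) : ℝ) * s2) + Real.exp (((n : ℤ) : ℝ) * s1))
          ≤ B * (Real.exp (((n : ℤ) : ℝ) * s2) + Real.exp (((n : ℤ) : ℝ) * s2)) := by
            apply mul_le_mul (hB _) (by linarith) (by positivity) hB0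
        _ = 2 * B * Real.exp (((n : ℤ) : ℝ) * s2) := by ring
    · have hlt : (1 / r) * Real.exp (-s1) < 1 := by
        have h1 : Real.exp (-s1) < r := by
          rw [← Real.exp_log hr0]
          apply Real.exp_lt_exp.2
          linarith
        rw [one_div, inv_mul_lt_iff₀ hr0, mul_one]
        exact h1
      have hg : Summable (fun n : ℕ => 2 * B * ((1 / r) * Real.exp (-s1)) ^ n) :=
        (summable_geometric_of_lt_one (by positivity) hlt).mul_left _
      refine Summable.of_nonneg_of_le (fun n => hu0 _) (fun n => ?_) hg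
      simp only [hu]
      have e1 : Real.exp (((-(n : ℤ) : ℤ) : ℝ) * s1) = Real.exp (-s1) ^ n := by
        rw [← Real.exp_nat_mul]
        congr 1
        push_cast
        ring
      have e2 : Real.exp (((-(n : ℤ) : ℤ) : ℝ) * s2) ≤ Real.exp (((-(n : ℤ) : ℤ) : ℝ) * s1) := by
        apply Real.exp_le_exp.2
        push_cast
        have := mul_le_mul_of_nonneg_left hs12.le (Nat.cast_nonneg (α := ℝ) n)
        linarith
      rw [mul_pow, ← e1]
      calc |h (-(n : ℤ))| * (Real.exp (((-(n : ℤ) : ℤ) : ℝ) * s2) +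
            Real.exp (((-(n : ℤ) : ℤ) : ℝ) * s1))
          ≤ (B * (1 / r) ^ n) * (Real.exp (((-(n : ℤ) : ℤ) : ℝ) * s1) +
            Real.exp (((-(n : ℤ) : ℤ) : ℝ) * s1)) := by
            apply mul_le_mul (hdec n) (by linarith) (by positivity) (by positivity)
        _ = 2 * B * ((1 / r) ^ n * Real.exp (((-(n : ℤ) : ℤ) : ℝ) * s1)) := by ring
  have hD : DifferentiableOn ℂ (fun w : ℂ => ∑' j : ℤ, (h j : ℂ) * Complex.exp ((j : ℂ) * w)) V := by
    refine Complex.differentiableOn_tsum_of_summable_norm hsum (fun j => ?_) hVo ?_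
    · exact (((differentiable_id.const_mul (j : ℂ)).cexp).const_mul (h j : ℂ)).differentiableOn
    · intro j w hw
      rw [norm_mul, Complex.norm_real, Real.norm_eq_abs, Complex.norm_exp]
      simp only [hu]
      apply mul_le_mul_of_nonneg_left _ (abs_nonneg _)
      have e1 : ((j : ℂ) * w).re = (j : ℝ) * w.re := by
        rw [← Complex.ofReal_intCast, Complex.re_ofReal_mul]
      rw [e1]
      rcases le_total 0 (j : ℝ) with hj | hj
      · have h1 : Real.exp ((j : ℝ) * w.re) ≤ Real.exp ((j : ℝ) * s2) :=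
          Real.exp_le_exp.2 (mul_le_mul_of_nonneg_left hw.2.le hj)
        have h2 := Real.exp_pos ((j : ℝ) * s1)
        linarith
      · have h1 : Real.exp ((j : ℝ) * w.re) ≤ Real.exp ((j : ℝ) * s1) :=
          Real.exp_le_exp.2 (mul_le_mul_of_nonpos_left hw.1.le hj)
        have h2 := Real.exp_pos ((j : ℝ) * s2)
        linarith
  exact (hD.differentiableAt (hVo.mem_nhds hw0V)).differentiableWithinAt

end Pool.Helper187.HS
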