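import Pool.Agent.Helper187.HS.Defs

set_option autoImplicit false

/-! Heat smoothing on tail spaces: definitions (helper187). -/

namespace Pool.Helper187.HS
open scoped BigOperators
open Polynomial Filter Topology


theorem strip_coeff (h : ℤ → ℝ) (B r : ℝ) (hr : 1 < r) (hB : ∀ i, |h i| ≤ B)
    (hdec : ∀ i : ℕ, |h (-(i : ℤ))| ≤ B * (1 / r) ^ i)
    (hz : ∀ w : ℂ, -Real.log r < w.re → w.re < 0 →
      ∑' j : ℤ, (h j : ℂ) * Complex.exp ((j : ℂ) * w) = 0) :
    ∀ i, h i = 0 := by
  intro m
  have hlog : 0 < Real.log r := Real.log_pos hr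
  have hr0 : 0 < r := by linarith
  have hB0 : 0 ≤ B := le_trans (abs_nonneg _) (hB 0)
  set x : ℝ := -Real.log r / 2 with hx
  have hx0 : x < 0 := by rw [hx]; linarith
  have hx1 : -Real.log r < x := by rw [hx]; linarith
  -- summability
  have hsum : Summable (fun j : ℤ => |h j| * Real.exp ((j : ℝ) * x)) := by
    refine Summable.of_nat_of_neg ?_ ?_
    · refine Summable.of_nonneg_of_le (fun n => by positivity) (fun n => ?_)
        ((summable_geometric_of_lt_one (Real.exp_pos x).le (Real.exp_lt_one_iff.mpr hx0)).mul_left B)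
      have e1 : Real.exp (((n : ℤ) : ℝ) * x) = Real.exp x ^ n := by
        rw [← Real.exp_nat_mul]
        push_cast
        rfl
      rw [e1]
      exact mul_le_mul_of_nonneg_right (hB _) (by positivity)
    · have hlt : 1 / r * Real.exp (-x) < 1 := by
        rw [one_div, inv_mul_lt_iff₀ hr0, mul_one]
        calc Real.exp (-x) < Real.exp (Real.log r) := Real.exp_lt_exp.mpr (by linarith)
          _ = r := Real.exp_log hr0
      refine Summable.of_nonneg_of_le (fun n => by positivity) (fun n => ?_)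
        ((summable_geometric_of_lt_one (by positivity) hlt).mul_left B)
      have e1 : Real.exp (((-(n : ℤ) : ℤ) : ℝ) * x) = Real.exp (-x) ^ n := by
        rw [← Real.exp_nat_mul]
        push_cast
        congr 1
        ring
      rw [e1, mul_pow, ← mul_assoc]
      exact mul_le_mul_of_nonneg_right (hdec n) (by positivity)
  let Fj : ℤ → ℝ → ℂ := fun j θ =>
    ((h j : ℂ) * Complex.exp ((j : ℂ) * ((x : ℂ) + θ * Complex.I))) *
      Complex.exp (-(m : ℂ) * θ * Complex.I)
  have hcont : ∀ j, Continuous (Fj j) := by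
    intro j
    simp only [Fj]
    fun_prop
  have hnorm : ∀ j θ, ‖Fj j θ‖ = |h j| * Real.exp ((j : ℝ) * x) := by
    intro j θ
    simp only [Fj]
    rw [norm_mul, norm_mul, Complex.norm_exp, Complex.norm_exp, Complex.norm_real, Real.norm_eq_abs]
    have e1 : ((j : ℂ) * ((x : ℂ) + θ * Complex.I)).re = (j : ℝ) * x := by
      simp
    have e2 : (-(m : ℂ) * θ * Complex.I).re = 0 := by
      simp
    rw [e1, e2, Real.exp_zero, mul_one]
  have hpi : (0 : ℝ) ≤ 2 * Real.pi := by positivity
  have hint : ∀ j, MeasureTheory.Integrable (Fj j)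
      (MeasureTheory.volume.restrict (Set.Ioc (0 : ℝ) (2 * Real.pi))) := by
    intro j
    have := (hcont j).intervalIntegrable (μ := MeasureTheory.volume) 0 (2 * Real.pi)
    rw [intervalIntegrable_iff_integrableOn_Ioc_of_le hpi] at this
    exact this
  have hHS := MeasureTheory.hasSum_integral_of_summable_integral_norm
    (μ := MeasureTheory.volume.restrict (Set.Ioc (0 : ℝ) (2 * Real.pi))) (F := Fj) hint (by
      have : (fun j => ∫ a, ‖Fj j a‖ ∂(MeasureTheory.volume.restrict (Set.Ioc (0 : ℝ) (2 * Real.pi))))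
          = fun j => (2 * Real.pi) * (|h j| * Real.exp ((j : ℝ) * x)) := by
        funext j
        simp only [hnorm]
        rw [MeasureTheory.integral_const]
        simp [hpi, Real.pi_pos.le]
      rw [this]
      exact hsum.mul_left _)
  have hzero : ∀ θ : ℝ, ∑' j, Fj j θ = 0 := by
    intro θ
    simp only [Fj]
    rw [tsum_mul_right]
    rw [hz ((x : ℂ) + θ * Complex.I) (by simpa using hx1) (by simpa using hx0)]
    simp
  have h0 : (∫ a, ∑' j, Fj j a ∂(MeasureTheory.volume.restrict (Set.Ioc (0 : ℝ) (2 * Real.pi)))) = 0 := by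
    simp only [hzero]
    simp
  rw [h0] at hHS
  have hval : ∀ j, (∫ a, Fj j a ∂(MeasureTheory.volume.restrict (Set.Ioc (0 : ℝ) (2 * Real.pi))))
      = if j = m then ((2 * Real.pi : ℝ) : ℂ) * ((h m : ℂ) * Complex.exp ((m : ℂ) * (x : ℂ))) else 0 := by
    intro j
    have e0 : ∀ θ : ℝ, Fj j θ = ((h j : ℂ) * Complex.exp ((j : ℂ) * (x : ℂ))) *
        Complex.exp ((((j : ℂ) - (m : ℂ)) * Complex.I) * θ) := by
      intro θ
      simp only [Fj]
      rw [mul_assoc (h j : ℂ), mul_assoc (h j : ℂ), ← Complex.exp_add, ← Complex.exp_add]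
      congr 2
      ring
    rw [← intervalIntegral.integral_of_le hpi]
    have e00 : (fun θ : ℝ => Fj j θ) = fun θ : ℝ => ((h j : ℂ) * Complex.exp ((j : ℂ) * (x : ℂ))) *
        Complex.exp ((((j : ℂ) - (m : ℂ)) * Complex.I) * θ) := funext e0
    have e01 : (∫ θ in (0:ℝ)..(2 * Real.pi), Fj j θ) = ∫ θ in (0:ℝ)..(2 * Real.pi), ((h j : ℂ) * Complex.exp ((j : ℂ) * (x : ℂ))) *
        Complex.exp ((((j : ℂ) - (m : ℂ)) * Complex.I) * θ) := by
      rw [show (fun θ : ℝ => ((h j : ℂ) * Complex.exp ((j : ℂ) * (x : ℂ))) *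
        Complex.exp ((((j : ℂ) - (m : ℂ)) * Complex.I) * θ)) = (fun θ : ℝ => Fj j θ) from e00.symm]
    rw [e01, intervalIntegral.integral_const_mul]
    by_cases hjm : j = m
    · rw [if_pos hjm, hjm]
      simp
      ring
    · rw [if_neg hjm]
      have hne : (((j : ℂ) - (m : ℂ)) * Complex.I) ≠ 0 := by
        refine mul_ne_zero ?_ Complex.I_ne_zero
        rw [sub_ne_zero]
        exact_mod_cast hjm
      rw [integral_exp_mul_complex hne]
      have e3 : Complex.exp ((((j : ℂ) - (m : ℂ)) * Complex.I) * ((2 * Real.pi : ℝ) : ℂ)) = 1 := by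
        have := Complex.exp_int_mul_two_pi_mul_I (j - m)
        rw [← this]
        congr 1
        push_cast
        ring
      rw [e3]
      simp
  have hHS2 : HasSum (fun j : ℤ => if j = m then ((2 * Real.pi : ℝ) : ℂ) * ((h m : ℂ) * Complex.exp ((m : ℂ) * (x : ℂ))) else 0) 0 := by
    have : (fun j => ∫ a, Fj j a ∂(MeasureTheory.volume.restrict (Set.Ioc (0 : ℝ) (2 * Real.pi))))
        = fun j : ℤ => if j = m then ((2 * Real.pi : ℝ) : ℂ) * ((h m : ℂ) * Complex.exp ((m : ℂ) * (x : ℂ))) else 0 := funext hval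
    rw [← this]
    exact hHS
  have hHS3 := hasSum_ite_eq m (((2 * Real.pi : ℝ) : ℂ) * ((h m : ℂ) * Complex.exp ((m : ℂ) * (x : ℂ))))
  have hfin := hHS3.unique hHS2
  rcases mul_eq_zero.mp hfin with h1 | h1
  · exfalso
    have : (2 * Real.pi : ℝ) ≠ 0 := by positivity
    exact this (by exact_mod_cast h1)
  · rcases mul_eq_zero.mp h1 with h2 | h2
    · exact_mod_cast h2
    · exact absurd h2 (Complex.exp_ne_zero _)

end Pool.Helper187.HS
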