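import Pool.Agent.Helper187.HS.Defs

set_option autoImplicit false

/-! Heat smoothing on tail spaces: definitions (helper187). -/

namespace Pool.Helper187.HS
open scoped BigOperators
open Polynomial Filter Topology


theorem strip_summable (h : ℤ → ℝ) (B r : ℝ) (hr : 1 < r) (hB : ∀ i, |h i| ≤ B)
    (hdec : ∀ i : ℕ, |h (-(i : ℤ))| ≤ B * (1 / r) ^ i)
    (w : ℂ) (hw1 : -Real.log r < w.re) (hw2 : w.re < 0) :
    Summable (fun j : ℤ => ‖(h j : ℂ) * Complex.exp ((j : ℂ) * w)‖) := by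
  have hr0 : 0 < r := by linarith
  have hB0 : 0 ≤ B := (abs_nonneg _).trans (hB 0)
  have hn : ∀ j : ℤ, ‖(h j : ℂ) * Complex.exp ((j : ℂ) * w)‖ = |h j| * Real.exp ((j : ℝ) * w.re) := by
    intro j
    rw [norm_mul, Complex.norm_real, Real.norm_eq_abs, Complex.norm_exp]
    congr 2
    simp [Complex.mul_re]
  simp_rw [hn]
  apply Summable.of_nat_of_neg
  · have hq1 : Real.exp w.re < 1 := by
      rw [Real.exp_lt_one_iff]; exact hw2
    refine Summable.of_nonneg_of_le (fun i => by positivity) (fun i => ?_)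
      ((summable_geometric_of_lt_one (Real.exp_pos _).le hq1).mul_left B)
    have : Real.exp (((i : ℕ) : ℤ) * w.re : ℝ) = Real.exp w.re ^ i := by
      rw [← Real.exp_nat_mul]; norm_num
    rw [this]
    exact mul_le_mul_of_nonneg_right (hB _) (by positivity)
  · have hq1 : (1 / r) * Real.exp (-w.re) < 1 := by
      have : Real.exp (-w.re) < r := by
        calc Real.exp (-w.re) < Real.exp (Real.log r) := Real.exp_lt_exp.2 (by linarith)
          _ = r := Real.exp_log hr0
      rw [one_div, inv_mul_lt_iff₀ hr0]; linarith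
    refine Summable.of_nonneg_of_le (fun i => by positivity) (fun i => ?_)
      ((summable_geometric_of_lt_one (by positivity) hq1).mul_left B)
    have : Real.exp (((-((i : ℕ) : ℤ) : ℤ) : ℝ) * w.re) = Real.exp (-w.re) ^ i := by
      rw [← Real.exp_nat_mul]; congr 1; push_cast; ring
    rw [this, mul_pow, ← mul_assoc]
    exact mul_le_mul_of_nonneg_right (hdec i) (by positivity)

/-- the shear of `ℤ × ℤ` -/
def shr : ℤ × ℤ ≃ ℤ × ℤ where
  toFun p := (p.1 - p.2, p.2)
  invFun p := (p.1 + p.2, p.2)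
  left_inv p := by simp
  right_inv p := by simp

theorem tsum_shr (F : ℤ × ℤ → ℂ) (hF : Summable F) :
    ∑' z, F z = ∑' n : ℤ, ∑' l : ℤ, F (n - l, l) := by
  rw [← shr.tsum_eq F]
  have h1 : Summable (fun c => F (shr c)) := (shr.summable_iff (f := F)).2 hF
  rw [h1.tsum_prod]
  rfl

theorem strip_mul (h : ℤ → ℝ) (B r : ℝ) (hr : 1 < r) (hB : ∀ i, |h i| ≤ B)
    (hdec : ∀ i : ℕ, |h (-(i : ℤ))| ≤ B * (1 / r) ^ i)
    (hconv : ∀ n : ℤ, ∑' j : ℤ, (-1 : ℝ) ^ j * h j * h (n - j) = 0)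
    (w : ℂ) (hw1 : -Real.log r < w.re) (hw2 : w.re < 0) :
    (∑' j : ℤ, (h j : ℂ) * Complex.exp ((j : ℂ) * w)) *
      (∑' j : ℤ, (h j : ℂ) * Complex.exp ((j : ℂ) * (w + Real.pi * Complex.I))) = 0 := by
  have hsa := strip_summable h B r hr hB hdec w hw1 hw2
  have hsb := strip_summable h B r hr hB hdec (w + Real.pi * Complex.I)
    (by simpa using hw1) (by simpa using hw2)
  have hpi : ∀ l : ℤ, Complex.exp ((l : ℂ) * (w + Real.pi * Complex.I)) =
      (-1 : ℂ) ^ l * Complex.exp ((l : ℂ) * w) := by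
    intro l
    rw [mul_add, Complex.exp_add, Complex.exp_int_mul (Real.pi * Complex.I) l,
      Complex.exp_pi_mul_I, mul_comm]
  rw [tsum_mul_tsum_of_summable_norm hsa hsb]
  rw [tsum_shr _ (summable_mul_of_summable_norm hsa hsb)]
  have hz : ∀ n : ℤ, ∑' l : ℤ, (h (n - l) : ℂ) * Complex.exp (((n - l : ℤ) : ℂ) * w) *
      ((h l : ℂ) * Complex.exp ((l : ℂ) * (w + Real.pi * Complex.I))) = 0 := by
    intro n
    have h1 : ∀ l : ℤ, (h (n - l) : ℂ) * Complex.exp (((n - l : ℤ) : ℂ) * w) *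
        ((h l : ℂ) * Complex.exp ((l : ℂ) * (w + Real.pi * Complex.I))) =
        Complex.exp ((n : ℂ) * w) * (((-1 : ℝ) ^ l * h l * h (n - l) : ℝ) : ℂ) := by
      intro l
      rw [hpi]
      have h2 : Complex.exp ((n : ℂ) * w) = Complex.exp (((n - l : ℤ) : ℂ) * w) *
          Complex.exp ((l : ℂ) * w) := by
        rw [← Complex.exp_add]; congr 1; push_cast; ring
      rw [h2]; push_cast; ring
    simp_rw [h1]
    rw [tsum_mul_left, ← Complex.ofReal_tsum, hconv, Complex.ofReal_zero, mul_zero]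
  simp only [hz, tsum_zero]

end Pool.Helper187.HS
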