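import Pool.Agent.Helper187.HS.Defs
import Pool.Agent.Helper187.HS.P_strip_analytic
import Pool.Agent.Helper187.HS.P_strip_mul
import Pool.Agent.Helper187.HS.P_strip_coeff

set_option autoImplicit false

/-! Heat smoothing on tail spaces: definitions (helper187). -/

namespace Pool.Helper187.HS
open scoped BigOperators
open Polynomial Filter Topology


theorem conv_uniq (h : ℤ → ℝ) (B r : ℝ) (hr : 1 < r) (hB : ∀ i, |h i| ≤ B)
    (hdec : ∀ i : ℕ, |h (-(i : ℤ))| ≤ B * (1 / r) ^ i)
    (hconv : ∀ n : ℤ, ∑' j : ℤ, (-1 : ℝ) ^ j * h j * h (n - j) = 0) :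
    ∀ i, h i = 0 := by
  apply strip_coeff h B r hr hB hdec
  intro w0 hw1 hw2
  by_contra hne
  set U : Set ℂ := {w : ℂ | -Real.log r < w.re ∧ w.re < 0} with hU
  set f : ℂ → ℂ := fun w : ℂ => ∑' j : ℤ, (h j : ℂ) * Complex.exp ((j : ℂ) * w) with hf
  have hdiff : DifferentiableOn ℂ f U := strip_analytic h B r hr hB hdec
  have hUo : IsOpen U :=
    (isOpen_lt continuous_const Complex.continuous_re).inter
      (isOpen_lt Complex.continuous_re continuous_const)
  have hUc : Convex ℝ U :=
    (convex_halfSpace_re_gt (-Real.log r)).inter (convex_halfSpace_re_lt 0)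
  have han : AnalyticOnNhd ℂ f U := hdiff.analyticOnNhd hUo
  have hw0 : w0 ∈ U := ⟨hw1, hw2⟩
  have hcont : ContinuousAt f w0 := (han w0 hw0).continuousAt
  have hev : ∀ᶠ w in 𝓝 w0, f w ≠ 0 := hcont.eventually_ne hne
  have hev2 : ∀ᶠ w in 𝓝 w0, f (w + Real.pi * Complex.I) = 0 := by
    filter_upwards [hev, hUo.mem_nhds hw0] with w h1 h2
    have h3 := strip_mul h B r hr hB hdec hconv w h2.1 h2.2
    rcases mul_eq_zero.mp h3 with h4 | h4
    · exact absurd h4 h1
    · exact h4
  have hz0 : w0 + Real.pi * Complex.I ∈ U := by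
    have : (w0 + Real.pi * Complex.I).re = w0.re := by simp
    rw [hU, Set.mem_setOf_eq, this]
    exact hw0
  have hev3 : f =ᶠ[𝓝 (w0 + Real.pi * Complex.I)] 0 := by
    have ht : Tendsto (fun z : ℂ => z - Real.pi * Complex.I) (𝓝 (w0 + Real.pi * Complex.I))
        (𝓝 w0) := by
      have hc : Continuous (fun z : ℂ => z - Real.pi * Complex.I) := by fun_prop
      have := hc.tendsto (w0 + Real.pi * Complex.I)
      simpa using this
    have h5 := ht.eventually hev2
    filter_upwards [h5] with z hz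
    simpa using hz
  have := han.eqOn_zero_of_preconnected_of_eventuallyEq_zero hUc.isPreconnected hz0 hev3
  exact hne (this hw0)

end Pool.Helper187.HS
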