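import Pool.Agent.Helper187.HS.Defs

set_option autoImplicit false

/-! Heat smoothing on tail spaces: definitions (helper187). -/

namespace Pool.Helper187.HS
open scoped BigOperators
open Polynomial Filter Topology


theorem cpS_tendsto_eq (n M k0 : ℕ) (hn : 0 < n) (i : ℤ) (h0 : 0 ≤ (k0 : ℤ) + i)
    (h1 : (k0 : ℤ) + i + 1 ≤ M) :
    cpS n M k0 i = cpA M k0 i * Real.sqrt ((((k0 : ℝ) + i + 1) / M) / cpA M k0 i) := by
  obtain ⟨k, hk⟩ := Int.eq_ofNat_of_zero_le h0
  have hkM : k + 1 ≤ M := by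
    rw [hk] at h1
    exact_mod_cast h1
  have hkR : (k0 : ℝ) + i = k := by exact_mod_cast hk
  have hMpos : 0 < M := by omega
  have hMR : (0 : ℝ) < M := by exact_mod_cast hMpos
  have e1 : lamz n M k0 i = (n : ℝ) * (M.choose k : ℝ) / 2 ^ M := by
    unfold lamz
    rw [if_pos ⟨h0, by omega⟩, hk]
    simp
  have e2 : lamz n M k0 (i + 1) = (n : ℝ) * (M.choose (k + 1) : ℝ) / 2 ^ M := by
    unfold lamz
    have e3 : (k0 : ℤ) + (i + 1) = ((k + 1 : ℕ) : ℤ) := by
      rw [← add_assoc, hk]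
      push_cast
      rfl
    rw [e3, if_pos ⟨by positivity, by exact_mod_cast hkM⟩, Int.toNat_natCast]
  have hc1 : (0 : ℝ) < (M.choose k : ℝ) := by
    exact_mod_cast Nat.choose_pos (by omega)
  have hc2 : (0 : ℝ) < (M.choose (k + 1) : ℝ) := by
    exact_mod_cast Nat.choose_pos hkM
  have hn' : (0 : ℝ) < n := by exact_mod_cast hn
  have hch : (M.choose (k + 1) : ℝ) * ((k : ℝ) + 1) = (M.choose k : ℝ) * ((M : ℝ) - k) := by
    have h := Nat.choose_succ_right_eq M k
    have h2 : ((M - k : ℕ) : ℝ) = (M : ℝ) - k := Nat.cast_sub (by omega)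
    rw [← h2]
    exact_mod_cast h
  have hMk : (0 : ℝ) < (M : ℝ) - k := by
    have : (k : ℝ) + 1 ≤ M := by exact_mod_cast hkM
    linarith
  unfold cpS
  rw [← Real.sqrt_div' _ (by rw [e2]; positivity), e1, e2]
  congr 2
  unfold cpA
  have e4 : (M : ℝ) - k0 - i = (M : ℝ) - k := by linarith
  rw [e4, hkR]
  rw [div_div_div_cancel_right₀ (by positivity), mul_div_mul_left _ _ hn'.ne',
    div_div_div_cancel_right₀ hMR.ne', div_eq_div_iff hc2.ne' hMk.ne']
  linarith

theorem cpS_tendsto (L : ℕ) (hL : 1 ≤ L) (n : ℕ → ℕ) (hn : ∀ m, 0 < n m) (i : ℤ) :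
    Tendsto (fun m => cpS (n m) (MM L m) (KK L m) i) atTop
      (nhds (Real.sqrt ((L : ℝ) * (L + 1)) / (2 * L + 1))) := by
  have hLR : (1 : ℝ) ≤ L := by exact_mod_cast hL
  have hL1 : (0 : ℝ) < 2 * L + 1 := by linarith
  have hX : Tendsto (fun m : ℕ => cpA (MM L m) (KK L m) i) atTop
      (nhds (((L : ℝ) + 1) / (2 * L + 1))) := by
    have h1 : Tendsto (fun m : ℕ => ((L : ℝ) + 1) / (2 * L + 1) - ((i : ℝ) / (4 * (2 * L + 1))) / m)
        atTop (nhds (((L : ℝ) + 1) / (2 * L + 1) - 0)) :=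
      tendsto_const_nhds.sub (tendsto_const_div_atTop_nhds_zero_nat _)
    rw [sub_zero] at h1
    refine h1.congr' ?_
    filter_upwards [eventually_ge_atTop 1] with m hm
    have hmR : (0 : ℝ) < m := by exact_mod_cast hm
    unfold cpA MM KK
    push_cast
    field_simp
    ring
  have hY : Tendsto (fun m : ℕ => (((KK L m : ℕ) : ℝ) + i + 1) / (MM L m : ℕ)) atTop
      (nhds ((L : ℝ) / (2 * L + 1))) := by
    have h1 : Tendsto (fun m : ℕ => (L : ℝ) / (2 * L + 1) + (((i : ℝ) + 1) / (4 * (2 * L + 1))) / m)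
        atTop (nhds ((L : ℝ) / (2 * L + 1) + 0)) :=
      tendsto_const_nhds.add (tendsto_const_div_atTop_nhds_zero_nat _)
    rw [add_zero] at h1
    refine h1.congr' ?_
    filter_upwards [eventually_ge_atTop 1] with m hm
    have hmR : (0 : ℝ) < m := by exact_mod_cast hm
    unfold MM KK
    push_cast
    field_simp
    ring
  have hXne : ((L : ℝ) + 1) / (2 * L + 1) ≠ 0 := by positivity
  have hlim : Tendsto (fun m : ℕ => cpA (MM L m) (KK L m) i *
      Real.sqrt (((((KK L m : ℕ) : ℝ) + i + 1) / (MM L m : ℕ)) / cpA (MM L m) (KK L m) i)) atTop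
      (nhds (((L : ℝ) + 1) / (2 * L + 1) *
        Real.sqrt (((L : ℝ) / (2 * L + 1)) / (((L : ℝ) + 1) / (2 * L + 1))))) :=
    hX.mul ((hY.div hX hXne).sqrt)
  have hval : ((L : ℝ) + 1) / (2 * L + 1) *
        Real.sqrt (((L : ℝ) / (2 * L + 1)) / (((L : ℝ) + 1) / (2 * L + 1))) =
      Real.sqrt ((L : ℝ) * (L + 1)) / (2 * L + 1) := by
    have h1 : ((L : ℝ) / (2 * L + 1)) / (((L : ℝ) + 1) / (2 * L + 1)) =
        ((L : ℝ) * (L + 1)) / (L + 1) ^ 2 := by
      field_simp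
    rw [h1, Real.sqrt_div' _ (by positivity), Real.sqrt_sq (by positivity)]
    field_simp
  rw [hval] at hlim
  refine hlim.congr' ?_
  filter_upwards [eventually_ge_atTop (i.natAbs + 1)] with m hm
  symm
  apply cpS_tendsto_eq _ _ _ (hn m)
  · unfold KK
    push_cast
    have h1 : (i.natAbs : ℤ) + 1 ≤ m := by exact_mod_cast hm
    have h2 : -(i.natAbs : ℤ) ≤ i := by omega
    have h3 : (1 : ℤ) ≤ L := by exact_mod_cast hL
    nlinarith
  · unfold KK MM
    push_cast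
    have h1 : (i.natAbs : ℤ) + 1 ≤ m := by exact_mod_cast hm
    have h2 : i ≤ (i.natAbs : ℤ) := by omega
    have h3 : (1 : ℤ) ≤ L := by exact_mod_cast hL
    nlinarith

end Pool.Helper187.HS
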