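import Pool.Agent.Helper187.HS.Defs

set_option autoImplicit false

/-! Heat smoothing on tail spaces: definitions (helper187). -/

namespace Pool.Helper187.HS
open scoped BigOperators
open Polynomial Filter Topology


theorem chi_complete {ι : Type*} [Fintype ι] [DecidableEq ι] (x y : ι → Bool) :
    ∑ S : Finset ι, chi S y * chi S x = if y = x then (2 : ℝ) ^ (Fintype.card ι) else 0 := by
  have h1 : ∀ S : Finset ι, chi S y * chi S x =
      ∏ i ∈ S, ((if y i then (-1 : ℝ) else 1) * (if x i then (-1 : ℝ) else 1)) := by
    intro S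
    unfold chi
    rw [Finset.prod_mul_distrib]
  have h2 := Finset.prod_one_add (s := (Finset.univ : Finset ι))
    (f := fun i => (if y i then (-1 : ℝ) else 1) * (if x i then (-1 : ℝ) else 1))
  rw [Finset.powerset_univ] at h2
  simp only [h1]
  rw [← h2]
  by_cases hxy : y = x
  · subst hxy
    rw [if_pos rfl]
    have h3 : ∀ i : ι, (1 + (if y i then (-1 : ℝ) else 1) * (if y i then (-1 : ℝ) else 1)) = 2 := by
      intro i
      split_ifs <;> norm_num
    simp only [h3, Finset.prod_const, Finset.card_univ]
  · rw [if_neg hxy]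
    obtain ⟨i, hi⟩ := Function.ne_iff.1 hxy
    apply Finset.prod_eq_zero (Finset.mem_univ i)
    cases hy : y i <;> cases hx : x i <;> simp_all

theorem chi_expand {ι : Type*} [Fintype ι] [DecidableEq ι] (f : (ι → Bool) → ℝ) (x : ι → Bool) :
    f x = ∑ S : Finset ι, mean (fun y => f y * chi S y) * chi S x := by
  have hpos : (2 : ℝ) ^ (Fintype.card ι) ≠ 0 := by positivity
  have h1 : ∀ S : Finset ι, mean (fun y => f y * chi S y) * chi S x =
      (∑ y : ι → Bool, f y * (chi S y * chi S x)) / (2 : ℝ) ^ (Fintype.card ι) := by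
    intro S
    unfold mean
    rw [div_mul_eq_mul_div, Finset.sum_mul]
    congr 1
    exact Finset.sum_congr rfl fun y _ => by ring
  simp only [h1]
  rw [← Finset.sum_div, Finset.sum_comm]
  simp only [← Finset.mul_sum, chi_complete]
  simp only [mul_ite, mul_zero, Finset.sum_ite_eq', Finset.mem_univ, if_true]
  field_simp

end Pool.Helper187.HS
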