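import Pool.Agent.Helper187.HS.Defs

set_option autoImplicit false

/-! Heat smoothing on tail spaces: definitions (helper187). -/

namespace Pool.Helper187.HS
open scoped BigOperators
open Polynomial Filter Topology


theorem chi_orth {ι : Type*} [Fintype ι] [DecidableEq ι] (S T : Finset ι) :
    mean (fun x => chi S x * chi T x) = if S = T then 1 else 0 := by
  obtain ⟨g, hg⟩ : ∃ g : ι → Bool → ℝ, g = fun i b =>
      (if i ∈ S then (if b then (-1 : ℝ) else 1) else 1) *
        (if i ∈ T then (if b then (-1 : ℝ) else 1) else 1) := ⟨_, rfl⟩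
  have hprod : ∀ x : ι → Bool, chi S x * chi T x = ∏ i, g i (x i) := by
    intro x
    rw [hg]
    unfold chi
    rw [Finset.prod_mul_distrib, Finset.prod_ite_mem, Finset.prod_ite_mem, Finset.univ_inter,
      Finset.univ_inter]
  have hsum : ∑ x : ι → Bool, ∏ i, g i (x i) = ∏ i, ∑ b : Bool, g i b := by
    rw [Finset.prod_univ_sum, Fintype.piFinset_univ]
  unfold mean
  rw [Finset.sum_congr rfl (fun x _ => hprod x), hsum]
  by_cases hST : S = T
  · rw [if_pos hST]
    have h2 : ∀ i ∈ (Finset.univ : Finset ι), ∑ b : Bool, g i b = 2 := by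
      intro i _
      rw [hg, hST, Fintype.sum_bool]
      by_cases hi : i ∈ T
      · simp only [hi, if_true]
        norm_num
      · simp only [hi, if_false]
        norm_num
    rw [Finset.prod_congr rfl h2, Finset.prod_const, Finset.card_univ]
    exact div_self (by positivity)
  · rw [if_neg hST]
    obtain ⟨i, hi⟩ : ∃ i, ¬ (i ∈ S ↔ i ∈ T) := by
      by_contra hc
      push Not at hc
      exact hST (Finset.ext fun i => hc i)
    have h0 : ∑ b : Bool, g i b = 0 := by
      rw [hg, Fintype.sum_bool]
      by_cases h1 : i ∈ S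
      · have h2 : i ∉ T := fun h => hi ⟨fun _ => h, fun _ => h1⟩
        simp [h1, h2]
      · have h2 : i ∈ T := by
          by_contra h
          exact hi ⟨fun h' => absurd h' h1, fun h' => absurd h' h⟩
        simp [h1, h2]
    rw [Finset.prod_eq_zero (Finset.mem_univ i) h0, zero_div]

end Pool.Helper187.HS
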