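import Pool.Agent.Helper187.HS.Defs

set_option autoImplicit false

/-! Heat smoothing on tail spaces: definitions (helper187). -/

namespace Pool.Helper187.HS
open scoped BigOperators
open Polynomial Filter Topology


theorem chi_flip {ι : Type*} [DecidableEq ι] (S : Finset ι) (x : ι → Bool) (i : ι) :
    chi S (flip x i) = if i ∈ S then -chi S x else chi S x := by
  unfold chi flip
  split_ifs with h
  · rw [← Finset.mul_prod_erase S _ h, ← Finset.mul_prod_erase S (fun i => if x i then (-1:ℝ) else 1) h,
      Function.update_self]
    have h1 : ∏ j ∈ S.erase i, (if Function.update x i (!x i) j then (-1:ℝ) else 1) =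
        ∏ j ∈ S.erase i, (if x j then (-1:ℝ) else 1) := by
      apply Finset.prod_congr rfl
      intro j hj
      rw [Function.update_of_ne (Finset.ne_of_mem_erase hj)]
    rw [h1]
    cases x i <;> simp
  · apply Finset.prod_congr rfl
    intro j hj
    rw [Function.update_of_ne]
    rintro rfl
    exact h hj

theorem lap_chi {ι : Type*} [Fintype ι] [DecidableEq ι] (S : Finset ι) :
    lap (chi S) = fun x => (S.card : ℝ) * chi S x := by
  funext x
  unfold lap
  have h : ∀ i ∈ (Finset.univ : Finset ι), (chi S x - chi S (flip x i)) / 2 =
      if i ∈ S then chi S x else 0 := by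
    intro i _
    rw [chi_flip]
    split_ifs
    · ring
    · ring
  rw [Finset.sum_congr rfl h, Finset.sum_ite_mem, Finset.univ_inter, Finset.sum_const,
    nsmul_eq_mul]
end Pool.Helper187.HS
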