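import Pool.Agent.Helper187.HS.Defs
import Pool.Agent.Helper187.HS.P_lap_chi
import Pool.Agent.Helper187.HS.P_chi_orth
import Pool.Agent.Helper187.HS.P_chi_expand

set_option autoImplicit false

/-! Heat smoothing on tail spaces: definitions (helper187). -/

namespace Pool.Helper187.HS
open scoped BigOperators
open Polynomial Filter Topology


theorem mean_sum79 {ι κ : Type*} [Fintype ι] [DecidableEq ι] (s : Finset κ) (f : κ → (ι → Bool) → ℝ) :
    mean (fun y => ∑ i ∈ s, f i y) = ∑ i ∈ s, mean (f i) := by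
  unfold mean
  rw [Finset.sum_comm, Finset.sum_div]

theorem mean_mul79 {ι : Type*} [Fintype ι] [DecidableEq ι] (c : ℝ) (f : (ι → Bool) → ℝ) :
    mean (fun y => c * f y) = c * mean f := by
  unfold mean
  rw [← Finset.mul_sum, mul_div_assoc]

theorem pars79 {ι : Type*} [Fintype ι] [DecidableEq ι] (F : Finset (Finset ι)) (a : Finset ι → ℝ) :
    mean (fun y => (∑ S ∈ F, a S * chi S y) ^ 2) = ∑ S ∈ F, a S ^ 2 := by
  have h1 : (fun y : ι → Bool => (∑ S ∈ F, a S * chi S y) ^ 2) =
      fun y => ∑ S ∈ F, ∑ T ∈ F, (a S * a T) * (chi S y * chi T y) := by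
    funext y
    rw [sq, Finset.sum_mul_sum]
    refine Finset.sum_congr rfl fun S _ => Finset.sum_congr rfl fun T _ => by ring
  rw [h1, mean_sum79]
  refine Finset.sum_congr rfl fun S hS => ?_
  rw [mean_sum79]
  have h2 : ∀ T ∈ F, mean (fun y => (a S * a T) * (chi S y * chi T y)) =
      if S = T then a S * a T else 0 := by
    intro T _
    rw [mean_mul79, chi_orth]
    split_ifs <;> ring
  rw [Finset.sum_congr rfl h2, Finset.sum_ite_eq]
  rw [if_pos hS]
  ring

theorem tail79 {ι : Type*} [Fintype ι] [DecidableEq ι] (F : Finset (Finset ι)) (a : Finset ι → ℝ)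
    (d : ℕ) (hF : ∀ S ∈ F, d ≤ S.card) : Tail d (fun y => ∑ S ∈ F, a S * chi S y) := by
  intro S hS
  have h0 : mean (fun y : ι → Bool => (∑ T ∈ F, a T * chi T y) * chi S y) = 0 := by
    have h1 : (fun y : ι → Bool => (∑ T ∈ F, a T * chi T y) * chi S y) =
        fun y => ∑ T ∈ F, a T * (chi T y * chi S y) := by
      funext y
      rw [Finset.sum_mul]
      exact Finset.sum_congr rfl fun T _ => by ring
    rw [h1, mean_sum79]
    apply Finset.sum_eq_zero
    intro T hT
    rw [mean_mul79, chi_orth, if_neg, mul_zero]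
    rintro rfl
    have := hF T hT
    omega
  unfold mean at h0
  rw [div_eq_zero_iff] at h0
  rcases h0 with h0 | h0
  · exact h0
  · exact absurd h0 (by positivity)

theorem aeval79 (M : ℕ) (Φ : ℝ[X]) (S : Finset (Fin M)) :
    Polynomial.aeval ((M : ℝ)⁻¹ • lapL M) Φ (chi S) = Φ.eval ((S.card : ℝ) / M) • chi S := by
  have h1 : ((M : ℝ)⁻¹ • lapL M) (chi S) = ((S.card : ℝ) / M) • chi S := by
    funext x
    have : lapL M (chi S) = lap (chi S) := rfl
    rw [LinearMap.smul_apply, this, lap_chi]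
    simp only [Pi.smul_apply, smul_eq_mul]
    ring
  have h2 : (chi S : (Fin M → Bool) → ℝ) ≠ 0 := by
    intro h
    have := congrFun h (fun _ => false)
    simp [chi] at this
  have h3 : Module.End.HasEigenvector ((M : ℝ)⁻¹ • lapL M) ((S.card : ℝ) / M) (chi S) :=
    ⟨Module.End.mem_eigenspace_iff.2 h1, h2⟩
  exact Module.End.aeval_apply_of_hasEigenvector h3

theorem spectral_G (n M d : ℕ) (hM : 0 < M) (hd : 4 * d ≤ M)
    (G : ((Fin M → Bool) → ℝ) →ₗ[ℝ] ℝ)
    (ha : ∀ u, |G u| ≤ Real.sqrt ((n : ℝ) * mean (fun y => u y ^ 2)))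
    (hc : ∀ u, Tail d u → G u = 0)
    (Φ : ℝ[X]) (K : ℝ) (hK : 0 ≤ K) (hΦ : ∀ x ∈ Set.Icc (0 : ℝ) (1 / 4), |Φ.eval x| ≤ K)
    (u : (Fin M → Bool) → ℝ) :
    |G (Polynomial.aeval ((M : ℝ)⁻¹ • lapL M) Φ u)| ≤
      K * Real.sqrt ((n : ℝ) * mean (fun y => u y ^ 2)) := by
  classical
  set c : Finset (Fin M) → ℝ := fun S => mean (fun y => u y * chi S y) with hc'
  set φ : Finset (Fin M) → ℝ := fun S => Φ.eval ((S.card : ℝ) / M) with hφ
  have hu : u = ∑ S : Finset (Fin M), c S • (chi S : (Fin M → Bool) → ℝ) := by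
    funext x
    rw [Finset.sum_apply, chi_expand u x]
    rfl
  have hv : Polynomial.aeval ((M : ℝ)⁻¹ • lapL M) Φ u =
      ∑ S : Finset (Fin M), (c S * φ S) • (chi S : (Fin M → Bool) → ℝ) := by
    conv_lhs => rw [hu]
    rw [map_sum]
    refine Finset.sum_congr rfl fun S _ => ?_
    rw [map_smul, aeval79, smul_smul]
  set F := Finset.univ.filter (fun S : Finset (Fin M) => S.card < d) with hF
  set F' := Finset.univ.filter (fun S : Finset (Fin M) => ¬ S.card < d) with hF'
  have hsplit : ∑ S : Finset (Fin M), (c S * φ S) • (chi S : (Fin M → Bool) → ℝ) =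
      (fun y => ∑ S ∈ F, (c S * φ S) * chi S y) + (fun y => ∑ S ∈ F', (c S * φ S) * chi S y) := by
    funext y
    rw [Finset.sum_apply, Pi.add_apply, hF, hF', Finset.sum_filter_add_sum_filter_not]
    rfl
  rw [hv, hsplit, map_add, hc _ (tail79 F' (fun S => c S * φ S) d (fun S hS => by
    rw [hF', Finset.mem_filter] at hS
    omega)), add_zero]
  refine (ha _).trans ?_
  have e1 := pars79 F (fun S => c S * φ S)
  rw [e1]
  have e2 : mean (fun y => u y ^ 2) = ∑ S : Finset (Fin M), c S ^ 2 := by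
    rw [← pars79 Finset.univ c]
    congr 1
    funext y
    rw [chi_expand u y]
  rw [e2]
  have hM' : (0:ℝ) < M := by exact_mod_cast hM
  have e3 : ∑ S ∈ F, (c S * φ S) ^ 2 ≤ K ^ 2 * ∑ S : Finset (Fin M), c S ^ 2 := by
    rw [Finset.mul_sum]
    calc ∑ S ∈ F, (c S * φ S) ^ 2 ≤ ∑ S ∈ F, K ^ 2 * c S ^ 2 := by
          apply Finset.sum_le_sum
          intro S hS
          rw [hF, Finset.mem_filter] at hS
          have h1 : |φ S| ≤ K := by
            apply hΦ
            constructor
            · exact div_nonneg (Nat.cast_nonneg _) hM'.le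
            · rw [div_le_iff₀ hM']
              have : 4 * S.card ≤ M := by omega
              have : (4:ℝ) * S.card ≤ M := by exact_mod_cast this
              linarith
          have h2 : φ S ^ 2 ≤ K ^ 2 := by
            rw [← sq_abs]
            gcongr
          rw [mul_pow]
          nlinarith [sq_nonneg (c S)]
      _ ≤ ∑ S : Finset (Fin M), K ^ 2 * c S ^ 2 := by
          apply Finset.sum_le_sum_of_subset_of_nonneg (Finset.filter_subset _ _)
          intros
          positivity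
  calc Real.sqrt ((n : ℝ) * ∑ S ∈ F, (c S * φ S) ^ 2)
      ≤ Real.sqrt (K ^ 2 * ((n : ℝ) * ∑ S : Finset (Fin M), c S ^ 2)) := by
        apply Real.sqrt_le_sqrt
        have : (0:ℝ) ≤ n := Nat.cast_nonneg n
        nlinarith
    _ = K * Real.sqrt ((n : ℝ) * ∑ S : Finset (Fin M), c S ^ 2) := by
        rw [Real.sqrt_mul (by positivity), Real.sqrt_sq hK]

end Pool.Helper187.HS
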