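import Pool.Agent.Helper187.HS.Defs
import Pool.Agent.Helper187.HS.P_spectral_G
import Pool.Agent.Helper187.HS.P_aeval_ucnt
import Pool.Agent.Helper187.HS.P_mean_ucnt
import Pool.Agent.Helper187.HS.P_G_ucnt
import Pool.Agent.Helper187.HS.P_aeval_conj

set_option autoImplicit false

/-! Heat smoothing on tail spaces: definitions (helper187). -/

namespace Pool.Helper187.HS
open scoped BigOperators
open Polynomial Filter Topology


theorem gf_lamz_pos (n M k0 : ℕ) (hn : 0 < n) (i : ℤ) : 0 < lamz n M k0 i := by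
  unfold lamz
  split_ifs with h
  · have h1 : ((k0 : ℤ) + i).toNat ≤ M := by omega
    have h2 : 0 < M.choose ((k0 : ℤ) + i).toNat := Nat.choose_pos h1
    have h3 : (0 : ℝ) < (M.choose ((k0 : ℤ) + i).toNat : ℝ) := by exact_mod_cast h2
    have h4 : (0 : ℝ) < n := by exact_mod_cast hn
    positivity
  · exact one_pos

theorem good_FL (n M k0 d : ℕ) (hn : 0 < n) (hM : 0 < M) (hd : 4 * d ≤ M)
    (G : ((Fin M → Bool) → ℝ) →ₗ[ℝ] ℝ) (hG : Good n M k0 d G) :
    FL (Rng M k0) (cpS n M k0) (cmS n M k0) (hseq n M k0 G) := by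
  intro Φ K hK hΦ ψ hψ
  have hpos := gf_lamz_pos n M k0 hn
  have hsq : ∀ i, 0 < Real.sqrt (lamz n M k0 i) := fun i => Real.sqrt_pos.2 (hpos i)
  have key := spectral_G n M d hM hd G hG.ha hG.hc Φ K hK hΦ
    (ucnt M k0 (fun j => ψ j / Real.sqrt (lamz n M k0 j)))
  rw [aeval_ucnt M k0 hM, G_ucnt] at key
  have e1 : ∑ i ∈ Rng M k0, hseq n M k0 G i *
      (Polynomial.aeval (JacG (cpS n M k0) (cmS n M k0)) Φ ψ) i =
      ∑ i ∈ Rng M k0, (Polynomial.aeval (JacG (cpA M k0) (cmA M k0)) Φ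
        (fun j => ψ j / Real.sqrt (lamz n M k0 j))) i * G (lev M k0 i) := by
    refine Finset.sum_congr rfl fun i _ => ?_
    rw [aeval_conj n M k0 hn]
    unfold hseq
    have := (hsq i).ne'
    field_simp
  have e2 : (n : ℝ) * mean (fun y => ucnt M k0
      (fun j => ψ j / Real.sqrt (lamz n M k0 j)) y ^ 2) = ∑ i ∈ Rng M k0, ψ i ^ 2 := by
    have h1 := mean_ucnt n M k0 (fun j => (ψ j / Real.sqrt (lamz n M k0 j)) ^ 2)
    have h2 : (fun y => ucnt M k0
      (fun j => ψ j / Real.sqrt (lamz n M k0 j)) y ^ 2) =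
        ucnt M k0 (fun j => (ψ j / Real.sqrt (lamz n M k0 j)) ^ 2) := rfl
    rw [h2, h1]
    refine Finset.sum_congr rfl fun i _ => ?_
    rw [div_pow, Real.sq_sqrt (hpos i).le]
    have := (hpos i).ne'
    field_simp
  rw [e1, ← e2]
  exact key

end Pool.Helper187.HS
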