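import Pool.Agent.Helper187.HS.Defs

set_option autoImplicit false

/-! Heat smoothing on tail spaces: definitions (helper187). -/

namespace Pool.Helper187.HS
open scoped BigOperators
open Polynomial Filter Topology


theorem good_bound (n M k0 d : ℕ) (hn : 0 < n)
    (G : ((Fin M → Bool) → ℝ) →ₗ[ℝ] ℝ) (hG : Good n M k0 d G) (i : ℤ) (hi : i ∈ Rng M k0) :
    |hseq n M k0 G i| ≤ (lamz n M k0 i) ^ (1 / 4 : ℝ) := by
  have hpos : 0 < lamz n M k0 i := by
    unfold lamz
    split_ifs with h
    · have h1 : 0 < M.choose ((k0 : ℤ) + i).toNat := by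
        apply Nat.choose_pos
        omega
      positivity
    · exact one_pos
  unfold hseq
  rw [abs_div, abs_of_nonneg (Real.sqrt_nonneg _), div_le_iff₀ (Real.sqrt_pos.2 hpos),
    Real.sqrt_eq_rpow, ← Real.rpow_add hpos]
  refine (hG.hb i hi).trans (le_of_eq ?_)
  norm_num

end Pool.Helper187.HS
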