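import Pool.Agent.Helper187.HS.Defs
import Pool.Agent.Helper187.HS.P_mean_ucnt
import Pool.Agent.Helper187.HS.P_G_ucnt

set_option autoImplicit false

/-! Heat smoothing on tail spaces: definitions (helper187). -/

namespace Pool.Helper187.HS
open scoped BigOperators
open Polynomial Filter Topology


theorem lamz_pos_j20864 (n M k0 : ℕ) (hn : 0 < n) (i : ℤ) : 0 < lamz n M k0 i := by
  unfold lamz
  split_ifs with h
  · have h1 : ((k0 : ℤ) + i).toNat ≤ M := by omega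
    have h2 : 0 < M.choose ((k0 : ℤ) + i).toNat := Nat.choose_pos h1
    have h3 : (0:ℝ) < (M.choose ((k0 : ℤ) + i).toNat : ℝ) := by exact_mod_cast h2
    have h4 : (0:ℝ) < n := by exact_mod_cast hn
    positivity
  · exact one_pos

theorem good_sum (n M k0 d : ℕ) (hn : 0 < n)
    (G : ((Fin M → Bool) → ℝ) →ₗ[ℝ] ℝ) (hG : Good n M k0 d G)
    (s : Finset ℤ) (hs : s ⊆ Rng M k0) :
    ∑ i ∈ s, hseq n M k0 G i ^ 2 ≤ 1 := by
  classical
  obtain ⟨A, hA⟩ : ∃ A, A = ∑ i ∈ s, hseq n M k0 G i ^ 2 := ⟨_, rfl⟩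
  have hA0 : 0 ≤ A := by rw [hA]; exact Finset.sum_nonneg fun _ _ => sq_nonneg _
  obtain ⟨φ, hφ⟩ : ∃ φ : ℤ → ℝ, ∀ i, φ i =
    if i ∈ s then hseq n M k0 G i / Real.sqrt (lamz n M k0 i) else 0 := ⟨_, fun _ => rfl⟩
  have h1 : G (ucnt M k0 φ) = A := by
    rw [G_ucnt, hA, ← Finset.sum_subset hs]
    · refine Finset.sum_congr rfl fun i hi => ?_
      rw [hφ, if_pos hi, pow_two]
      unfold hseq
      ring
    · intro i _ hi
      rw [hφ, if_neg hi, zero_mul]
  have h2 : (n : ℝ) * mean (fun y => (ucnt M k0 φ) y ^ 2) = A := by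
    have h3 : (fun y => (ucnt M k0 φ) y ^ 2) = ucnt M k0 (fun i => φ i ^ 2) := rfl
    rw [h3, mean_ucnt, hA, ← Finset.sum_subset hs]
    · refine Finset.sum_congr rfl fun i hi => ?_
      have hl := lamz_pos_j20864 n M k0 hn i
      rw [hφ, if_pos hi, div_pow, Real.sq_sqrt hl.le]
      field_simp
    · intro i _ hi
      rw [hφ, if_neg hi]
      simp
  have h3 := hG.ha (ucnt M k0 φ)
  rw [h1, h2, abs_of_nonneg hA0] at h3
  rw [← hA]
  have h4 := Real.sqrt_nonneg A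
  have h5 : Real.sqrt A * Real.sqrt A = A := Real.mul_self_sqrt hA0
  by_contra hcon
  push Not at hcon
  nlinarith

end Pool.Helper187.HS
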