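import Pool.Agent.Helper187.HS.Defs
import Pool.Agent.Helper187.HS.P_JacG_support
import Pool.Agent.Helper187.HS.P_JacG_tendsto

set_option autoImplicit false

/-! Heat smoothing on tail spaces: definitions (helper187). -/

namespace Pool.Helper187.HS
open scoped BigOperators
open Polynomial Filter Topology


theorem lim_spec (F : Filter ℕ) [F.NeBot] (b : ℝ) (R : ℕ → Finset ℤ) (cp cm h : ℕ → ℤ → ℝ)
    (h0 : ℤ → ℝ) (hR : ∀ i : ℤ, ∀ᶠ m in F, i ∈ R m)
    (hcp : ∀ i, Tendsto (fun m => cp m i) F (nhds b))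
    (hcm : ∀ i, Tendsto (fun m => cm m i) F (nhds b))
    (hh : ∀ i, Tendsto (fun m => h m i) F (nhds (h0 i)))
    (hFL : ∀ᶠ m in F, FL (R m) (cp m) (cm m) (h m)) : Spec b h0 := by
  intro Φ K hK hΦ ψ hψ
  obtain ⟨W, hW, hW'⟩ := JacG_support Φ ψ hψ
  have hWR : ∀ᶠ m in F, W ⊆ R m := by
    have h1 : ∀ᶠ m in F, ∀ i ∈ W, i ∈ R m := (Filter.eventually_all_finset W).2 (fun i _ => hR i)
    filter_upwards [h1] with m hm
    exact hm
  have e1 : (∑' i, h0 i * (Polynomial.aeval (Jop b) Φ ψ) i) =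
      ∑ i ∈ W, h0 i * (Polynomial.aeval (Jop b) Φ ψ) i := by
    apply tsum_eq_sum
    intro i hi
    rw [Jop, hW' _ _ i hi, mul_zero]
  have e2 : (∑' i, ψ i ^ 2) = ∑ i ∈ W, ψ i ^ 2 := by
    apply tsum_eq_sum
    intro i hi
    rw [hW i hi]
    norm_num
  rw [e1, e2]
  have hb : ∀ᶠ m in F, |∑ i ∈ W, h m i * (Polynomial.aeval (JacG (cp m) (cm m)) Φ ψ) i| ≤
      K * Real.sqrt (∑ i ∈ W, ψ i ^ 2) := by
    filter_upwards [hWR, hFL] with m h1 h2
    have h3 := h2 Φ K hK hΦ ψ (fun i hi => hW i (fun h => hi (h1 h)))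
    rw [← Finset.sum_subset h1 (fun i _ hi => by rw [hW' _ _ i hi, mul_zero]),
      ← Finset.sum_subset h1 (fun i _ hi => by rw [hW i hi]; norm_num)] at h3
    exact h3
  have hlim : Tendsto (fun m => |∑ i ∈ W, h m i * (Polynomial.aeval (JacG (cp m) (cm m)) Φ ψ) i|) F
      (nhds |∑ i ∈ W, h0 i * (Polynomial.aeval (Jop b) Φ ψ) i|) :=
    (tendsto_finsetSum W (fun i _ => (hh i).mul (JacG_tendsto F b cp cm hcp hcm Φ ψ i))).abs
  exact le_of_tendsto hlim hb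

end Pool.Helper187.HS
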