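import Pool.Agent.Helper187.HS.Defs

set_option autoImplicit false

/-! Heat smoothing on tail spaces: definitions (helper187). -/

namespace Pool.Helper187.HS
open scoped BigOperators
open Polynomial Filter Topology


theorem lim_sum (F : Filter ℕ) [F.NeBot] (R : ℕ → Finset ℤ) (h : ℕ → ℤ → ℝ)
    (h0 : ℤ → ℝ) (hR : ∀ i : ℤ, ∀ᶠ m in F, i ∈ R m)
    (hh : ∀ i, Tendsto (fun m => h m i) F (nhds (h0 i)))
    (hs : ∀ᶠ m in F, ∀ s : Finset ℤ, s ⊆ R m → ∑ i ∈ s, h m i ^ 2 ≤ 1) :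
    (Summable fun i => h0 i ^ 2) ∧ ∀ i, |h0 i| ≤ 1 := by
  have key : ∀ s : Finset ℤ, ∑ i ∈ s, h0 i ^ 2 ≤ 1 := by
    intro s
    have h1 : Tendsto (fun m => ∑ i ∈ s, h m i ^ 2) F (nhds (∑ i ∈ s, h0 i ^ 2)) :=
      tendsto_finset_sum s (fun i _ => (hh i).pow 2)
    have h2 : ∀ᶠ m in F, s ⊆ R m := by
      have : ∀ᶠ m in F, ∀ i ∈ s, i ∈ R m := by
        rw [Filter.eventually_all_finset]
        intro i _
        exact hR i
      filter_upwards [this] with m hm i hi
      exact hm i hi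
    refine le_of_tendsto h1 ?_
    filter_upwards [h2, hs] with m hm1 hm2
    exact hm2 s hm1
  refine ⟨?_, ?_⟩
  · exact summable_of_sum_le (fun i => sq_nonneg _) key
  · intro i
    have := key {i}
    rw [Finset.sum_singleton] at this
    exact abs_le_one_iff_mul_self_le_one.mpr (by nlinarith [this])

end Pool.Helper187.HS
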