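import Pool.Agent.Helper187.HS.Defs
import Pool.Agent.Helper187.HS.P_Spec_conv
import Pool.Agent.Helper187.HS.P_conv_uniq
import Pool.Agent.Helper187.HS.P_good_FL
import Pool.Agent.Helper187.HS.P_good_sum
import Pool.Agent.Helper187.HS.P_good_bound
import Pool.Agent.Helper187.HS.P_lim_spec
import Pool.Agent.Helper187.HS.P_lim_sum
import Pool.Agent.Helper187.HS.P_cpS_tendsto
import Pool.Agent.Helper187.HS.P_cmS_tendsto
import Pool.Agent.Helper187.HS.P_Rng_ev
import Pool.Agent.Helper187.HS.P_lamz_left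

set_option autoImplicit false

/-! Heat smoothing on tail spaces: definitions (helper187). -/

namespace Pool.Helper187.HS
open scoped BigOperators
open Polynomial Filter Topology


theorem main_small (L : ℕ) (hL : 1 ≤ L) (i : ℤ) (η : ℝ) (hη : 0 < η) :
    ∀ᶠ m in atTop, ∀ n : ℕ, 0 < n → lamz n (MM L m) (KK L m) 0 ≤ 2 →
      ∀ G : ((Fin (MM L m) → Bool) → ℝ) →ₗ[ℝ] ℝ, Good n (MM L m) (KK L m) (DD L m) G →
        |hseq n (MM L m) (KK L m) G i| ≤ η := by
  classical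
  by_contra hcon
  rw [Filter.not_eventually] at hcon
  set S : Set ℕ := {m | ¬ ∀ n : ℕ, 0 < n → lamz n (MM L m) (KK L m) 0 ≤ 2 →
      ∀ G : ((Fin (MM L m) → Bool) → ℝ) →ₗ[ℝ] ℝ, Good n (MM L m) (KK L m) (DD L m) G →
        |hseq n (MM L m) (KK L m) G i| ≤ η} with hS
  have hch : ∀ m, ∃ (n : ℕ) (G : ((Fin (MM L m) → Bool) → ℝ) →ₗ[ℝ] ℝ), 0 < n ∧
      (m ∈ S → lamz n (MM L m) (KK L m) 0 ≤ 2 ∧ Good n (MM L m) (KK L m) (DD L m) G ∧
        η < |hseq n (MM L m) (KK L m) G i|) := by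
    intro m
    by_cases hm : m ∈ S
    · have hm' : ¬ ∀ n : ℕ, 0 < n → lamz n (MM L m) (KK L m) 0 ≤ 2 →
        ∀ G : ((Fin (MM L m) → Bool) → ℝ) →ₗ[ℝ] ℝ, Good n (MM L m) (KK L m) (DD L m) G →
          |hseq n (MM L m) (KK L m) G i| ≤ η := hm
      push Not at hm'
      obtain ⟨n, hn, hl, G, hG, hlt⟩ := hm'
      exact ⟨n, G, hn, fun _ => ⟨hl, hG, hlt⟩⟩
    · exact ⟨1, 0, one_pos, fun h => absurd h hm⟩
  choose n G hn hG using hch
  have hne : (atTop ⊓ 𝓟 S).NeBot := Filter.frequently_mem_iff_neBot.1 hcon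
  set U : Ultrafilter ℕ := Ultrafilter.of (atTop ⊓ 𝓟 S) with hU
  have hU1 : (U : Filter ℕ) ≤ atTop ⊓ 𝓟 S := Ultrafilter.of_le _
  have hUat : (U : Filter ℕ) ≤ atTop := hU1.trans inf_le_left
  have hUS : ∀ᶠ m in (U : Filter ℕ), m ∈ S := (hU1.trans inf_le_right) (mem_principal_self S)
  have hRng : ∀ j : ℤ, ∀ᶠ m in (U : Filter ℕ), j ∈ Rng (MM L m) (KK L m) :=
    fun j => hUat (Rng_ev L hL j)
  have hm1 : ∀ᶠ m in (U : Filter ℕ), 1 ≤ m := hUat (eventually_ge_atTop 1)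
  have hlim : ∀ j : ℤ, ∃ x : ℝ, Tendsto (fun m => hseq (n m) (MM L m) (KK L m) (G m) j)
      (U : Filter ℕ) (𝓝 x) := by
    intro j
    have h1 : ((U.map (fun m => hseq (n m) (MM L m) (KK L m) (G m) j) : Ultrafilter ℝ) :
        Filter ℝ) ≤ 𝓟 (Set.Icc (-1 : ℝ) 1) := by
      rw [Ultrafilter.coe_map, Filter.le_principal_iff, Filter.mem_map]
      filter_upwards [hUS, hRng j] with m hm hj
      have h2 := good_sum (n m) (MM L m) (KK L m) (DD L m) (hn m) (G m) (hG m hm).2.1 {j}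
        (Finset.singleton_subset_iff.2 hj)
      rw [Finset.sum_singleton] at h2
      exact abs_le.1 ((sq_le_one_iff_abs_le_one _).1 h2)
    obtain ⟨x, -, hx⟩ := isCompact_Icc.ultrafilter_le_nhds _ h1
    rw [Ultrafilter.coe_map] at hx
    exact ⟨x, hx⟩
  choose h0 hh0 using hlim
  have hspec : Spec (Real.sqrt ((L : ℝ) * (L + 1)) / (2 * L + 1)) h0 := by
    refine lim_spec (U : Filter ℕ) _ (fun m => Rng (MM L m) (KK L m))
      (fun m => cpS (n m) (MM L m) (KK L m)) (fun m => cmS (n m) (MM L m) (KK L m))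
      (fun m => hseq (n m) (MM L m) (KK L m) (G m)) h0 hRng ?_ ?_ hh0 ?_
    · intro j
      exact (cpS_tendsto L hL n hn j).mono_left hUat
    · intro j
      exact (cmS_tendsto L hL n hn j).mono_left hUat
    · filter_upwards [hUS, hm1] with m hm hm1
      have hM : 0 < MM L m := by
        unfold MM
        positivity
      have hd : 4 * DD L m ≤ MM L m := by
        unfold DD MM
        apply le_of_eq
        ring
      exact good_FL (n m) (MM L m) (KK L m) (DD L m) (hn m) hM hd (G m) (hG m hm).2.1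
  obtain ⟨hsum, hb1⟩ := lim_sum (U : Filter ℕ) (fun m => Rng (MM L m) (KK L m))
    (fun m => hseq (n m) (MM L m) (KK L m) (G m)) h0 hRng hh0 (by
      filter_upwards [hUS] with m hm
      intro s hs
      exact good_sum (n m) (MM L m) (KK L m) (DD L m) (hn m) (G m) (hG m hm).2.1 s hs)
  have hL0 : (0 : ℝ) < L := by exact_mod_cast hL
  obtain ⟨q, hq⟩ : ∃ q : ℝ, q = (L : ℝ) / (L + 1) := ⟨_, rfl⟩
  have hq0 : 0 < q := by rw [hq]; positivity
  have hq1 : q < 1 := by rw [hq, div_lt_one (by positivity)]; linarith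
  have hqr0 : 0 < q ^ (1 / 4 : ℝ) := Real.rpow_pos_of_pos hq0 _
  have hqr1 : q ^ (1 / 4 : ℝ) < 1 := Real.rpow_lt_one hq0.le hq1 (by norm_num)
  have hz : ∀ j, h0 j = 0 := by
    refine conv_uniq h0 2 (q ^ (1 / 4 : ℝ))⁻¹ ((one_lt_inv₀ hqr0).2 hqr1)
      (fun j => (hb1 j).trans (by norm_num)) ?_ (Spec_conv _ h0 hsum hspec)
    intro j
    rw [one_div, inv_inv]
    have h1 : Tendsto (fun m => |hseq (n m) (MM L m) (KK L m) (G m) (-(j : ℤ))|)
      (U : Filter ℕ) (𝓝 |h0 (-(j : ℤ))|) := (hh0 _).abs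
    refine le_of_tendsto h1 ?_
    filter_upwards [hUS, hm1, hRng (-(j : ℤ)), hUat (eventually_ge_atTop j)] with m hm hm1 hj hjm
    have hjK : j ≤ KK L m := by
      unfold KK
      calc j ≤ m := hjm
        _ = 1 * m := (one_mul m).symm
        _ ≤ 4 * L * m := Nat.mul_le_mul_right m (by omega)
    have h2 := good_bound (n m) (MM L m) (KK L m) (DD L m) (hn m) (G m) (hG m hm).2.1 _ hj
    have h3 := lamz_left L m (n m) hL hm1 (hG m hm).1 j hjK
    rw [← hq] at h3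
    have hlam : 0 ≤ lamz (n m) (MM L m) (KK L m) (-(j : ℤ)) := by
      unfold lamz
      split_ifs
      · positivity
      · norm_num
    calc |hseq (n m) (MM L m) (KK L m) (G m) (-(j : ℤ))|
        ≤ (lamz (n m) (MM L m) (KK L m) (-(j : ℤ))) ^ (1 / 4 : ℝ) := h2
      _ ≤ (2 * q ^ j) ^ (1 / 4 : ℝ) := Real.rpow_le_rpow hlam h3 (by norm_num)
      _ = (2 : ℝ) ^ (1 / 4 : ℝ) * (q ^ (1 / 4 : ℝ)) ^ j := by
        rw [Real.mul_rpow (by norm_num) (by positivity), Real.rpow_pow_comm hq0.le]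
      _ ≤ 2 * (q ^ (1 / 4 : ℝ)) ^ j := by
        apply mul_le_mul_of_nonneg_right _ (by positivity)
        calc (2 : ℝ) ^ (1 / 4 : ℝ) ≤ (2 : ℝ) ^ (1 : ℝ) :=
              Real.rpow_le_rpow_of_exponent_le (by norm_num) (by norm_num)
          _ = 2 := Real.rpow_one 2
  have h1 : Tendsto (fun m => |hseq (n m) (MM L m) (KK L m) (G m) i|)
      (U : Filter ℕ) (𝓝 |h0 i|) := (hh0 _).abs
  have h2 : η ≤ |h0 i| := by
    refine ge_of_tendsto h1 ?_
    filter_upwards [hUS] with m hm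
    exact (hG m hm).2.2.le
  rw [hz i, abs_zero] at h2
  linarith

end Pool.Helper187.HS
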