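import Pool.Agent.Helper187.HS.Defs
import Pool.Agent.Helper187.HS.P_G_ucnt
import Pool.Agent.Helper187.HS.P_Rng_ev
import Pool.Agent.Helper187.HS.P_lamz_left
import Pool.Agent.Helper187.HS.P_lamz_right
import Pool.Agent.Helper187.HS.P_main_small

set_option autoImplicit false

/-! Heat smoothing on tail spaces: definitions (helper187). -/

namespace Pool.Helper187.HS
open scoped BigOperators
open Polynomial Filter Topology


theorem h120_lamz_pos (n M k0 : ℕ) (hn : 0 < n) (i : ℤ) : 0 < lamz n M k0 i := by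
  unfold lamz
  split_ifs with h
  · have h1 : ((k0 : ℤ) + i).toNat ≤ M := by omega
    have h2 : 0 < M.choose ((k0 : ℤ) + i).toNat := Nat.choose_pos h1
    positivity
  · exact one_pos

theorem h120_prof_abs (L : ℕ) (hL : 1 ≤ L) (i : ℤ) : |prof L i| ≤ 1 := by
  unfold prof
  have hL' : (0 : ℝ) < L := by exact_mod_cast hL
  split_ifs with h
  · have h1 : ((i : ℝ) / (L : ℝ)) ^ 2 ≤ 1 := by
      rw [div_pow, div_le_one (by positivity)]
      exact sq_le_sq' (by linarith [(abs_le.mp h).1]) (abs_le.mp h).2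
    have h0 : 0 ≤ ((i : ℝ) / (L : ℝ)) ^ 2 := sq_nonneg _
    rw [abs_of_nonneg (sq_nonneg _)]
    nlinarith
  · simp

theorem h120_prof_zero (L : ℕ) (i : ℤ) (hi : i ∉ Finset.Icc (-(L : ℤ)) (L : ℤ)) : prof L i = 0 := by
  unfold prof
  rw [if_neg]
  intro h
  apply hi
  rw [Finset.mem_Icc]
  rw [abs_le] at h
  constructor
  · exact_mod_cast h.1
  · exact_mod_cast h.2

theorem h120_lamz_bd (L m n : ℕ) (hL : 1 ≤ L) (hm : 1 ≤ m)
    (h2 : lamz n (MM L m) (KK L m) 0 ≤ 2) (i : ℤ) (hi : i ∈ Finset.Icc (-(L : ℤ)) (L : ℤ))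
    (hiR : i ∈ Rng (MM L m) (KK L m)) :
    lamz n (MM L m) (KK L m) i ≤ 2 * 2 ^ L := by
  have hL' : (1 : ℝ) ≤ L := by exact_mod_cast hL
  rw [Finset.mem_Icc] at hi
  have hone : (1 : ℝ) ≤ 2 ^ L := one_le_pow₀ (by norm_num)
  rcases le_or_gt i 0 with h | h
  · obtain ⟨j, hj⟩ : ∃ j : ℕ, i = -(j : ℤ) := ⟨(-i).toNat, by omega⟩
    subst hj
    have hjK : j ≤ KK L m := by
      unfold KK
      have : j ≤ L := by omega
      nlinarith
    refine (lamz_left L m n hL hm h2 j hjK).trans ?_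
    have h3 : ((L : ℝ) / (L + 1)) ^ j ≤ 1 := by
      apply pow_le_one₀ (by positivity)
      rw [div_le_one (by positivity)]
      linarith
    linarith
  · obtain ⟨j, hj⟩ : ∃ j : ℕ, i = (j : ℤ) := ⟨i.toNat, by omega⟩
    subst hj
    have hjK : KK L m + j ≤ MM L m := by
      unfold Rng at hiR
      rw [Finset.mem_Icc] at hiR
      omega
    refine (lamz_right L m n hL hm h2 j hjK).trans ?_
    have h3 : (((L : ℝ) + 1) / L) ^ j ≤ 2 ^ j := by
      apply pow_le_pow_left₀ (by positivity)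
      rw [div_le_iff₀ (by positivity)]
      linarith
    have h4 : (2 : ℝ) ^ j ≤ 2 ^ L := pow_le_pow_right₀ (by norm_num) (by omega)
    linarith

theorem main_profile (L : ℕ) (hL : 1 ≤ L) (η : ℝ) (hη : 0 < η) :
    ∀ᶠ m in atTop, ∀ n : ℕ, 0 < n → lamz n (MM L m) (KK L m) 0 ≤ 2 →
      ∀ G : ((Fin (MM L m) → Bool) → ℝ) →ₗ[ℝ] ℝ, Good n (MM L m) (KK L m) (DD L m) G →
        |G (ucnt (MM L m) (KK L m) (prof L))| ≤ η := by
  set C : ℝ := Real.sqrt (2 * 2 ^ L) with hC
  have hC0 : 0 ≤ C := Real.sqrt_nonneg _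
  set η' : ℝ := η / ((2 * L + 1) * (C + 1)) with hη'
  have hη'0 : 0 < η' := by positivity
  have hev : ∀ᶠ m in atTop, ∀ i ∈ Finset.Icc (-(L : ℤ)) (L : ℤ), ∀ n : ℕ, 0 < n →
      lamz n (MM L m) (KK L m) 0 ≤ 2 →
      ∀ G : ((Fin (MM L m) → Bool) → ℝ) →ₗ[ℝ] ℝ, Good n (MM L m) (KK L m) (DD L m) G →
        |hseq n (MM L m) (KK L m) G i| ≤ η' := by
    rw [Filter.eventually_all_finset]
    intro i _
    exact main_small L hL i η' hη'0
  filter_upwards [hev, eventually_ge_atTop 1] with m hm hm1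
  intro n hn h2 G hG
  rw [G_ucnt]
  have hterm : ∀ i ∈ Rng (MM L m) (KK L m), |prof L i * G (lev (MM L m) (KK L m) i)| ≤
      if i ∈ Finset.Icc (-(L : ℤ)) (L : ℤ) then C * η' else 0 := by
    intro i hi
    split_ifs with hiL
    · have h3 := hm i hiL n hn h2 G hG
      have hpos := h120_lamz_pos n (MM L m) (KK L m) hn i
      have hsq : 0 < Real.sqrt (lamz n (MM L m) (KK L m) i) := Real.sqrt_pos.mpr hpos
      have h4 : G (lev (MM L m) (KK L m) i) =
          Real.sqrt (lamz n (MM L m) (KK L m) i) * hseq n (MM L m) (KK L m) G i := by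
        unfold hseq
        field_simp
      have h5 : Real.sqrt (lamz n (MM L m) (KK L m) i) ≤ C :=
        Real.sqrt_le_sqrt (h120_lamz_bd L m n hL hm1 h2 i hiL hi)
      rw [h4, abs_mul, abs_mul, abs_of_pos hsq]
      calc |prof L i| * (Real.sqrt (lamz n (MM L m) (KK L m) i) * |hseq n (MM L m) (KK L m) G i|)
          ≤ 1 * (C * η') := by
            apply mul_le_mul (h120_prof_abs L hL i) _ (by positivity) (by norm_num)
            exact mul_le_mul h5 h3 (abs_nonneg _) hC0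
        _ = C * η' := one_mul _
    · rw [h120_prof_zero L i hiL]
      simp
  calc |∑ i ∈ Rng (MM L m) (KK L m), prof L i * G (lev (MM L m) (KK L m) i)|
      ≤ ∑ i ∈ Rng (MM L m) (KK L m), |prof L i * G (lev (MM L m) (KK L m) i)| :=
        Finset.abs_sum_le_sum_abs _ _
    _ ≤ ∑ i ∈ Rng (MM L m) (KK L m),
        (if i ∈ Finset.Icc (-(L : ℤ)) (L : ℤ) then C * η' else 0) := Finset.sum_le_sum hterm
    _ = ∑ i ∈ (Rng (MM L m) (KK L m)).filter (fun i => i ∈ Finset.Icc (-(L : ℤ)) (L : ℤ)),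
        C * η' := by rw [Finset.sum_filter]
    _ ≤ ∑ i ∈ Finset.Icc (-(L : ℤ)) (L : ℤ), C * η' := by
        apply Finset.sum_le_sum_of_subset_of_nonneg
        · intro i hi
          exact (Finset.mem_filter.mp hi).2
        · intro i _ _
          positivity
    _ = (2 * L + 1) * (C * η') := by
        rw [Finset.sum_const, Int.card_Icc, nsmul_eq_mul]
        congr 1
        have : ((L : ℤ) + 1 - -(L : ℤ)).toNat = 2 * L + 1 := by omega
        rw [this]
        push_cast
        ring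
    _ ≤ η := by
        rw [hη']
        have hL0 : (0 : ℝ) ≤ L := Nat.cast_nonneg _
        have e : (2 * (L : ℝ) + 1) * (C * (η / ((2 * L + 1) * (C + 1)))) = η * (C / (C + 1)) := by
          field_simp
        rw [e]
        have h6 : C / (C + 1) ≤ 1 := by
          rw [div_le_one (by positivity)]
          linarith
        nlinarith

end Pool.Helper187.HS
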