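import Pool.Agent.Helper187.HS.Defs
import Pool.Agent.Helper187.HS.P_main_profile
import Pool.Agent.Helper187.HS.P_hahn_banach
import Pool.Agent.Helper187.HS.P_good_of_functional

set_option autoImplicit false

/-! Heat smoothing on tail spaces: definitions (helper187). -/

namespace Pool.Helper187.HS
open scoped BigOperators
open Polynomial Filter Topology


theorem approx (L : ℕ) (hL : 1 ≤ L) (η : ℝ) (hη : 0 < η) :
    ∃ m0 : ℕ, ∀ m, m0 ≤ m → 1 ≤ m → ∀ n : ℕ, 0 < n → lamz n (MM L m) (KK L m) 0 ≤ 2 →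
      ∃ w : (Idx n (MM L m) → Bool) → ℝ, Tail (DD L m) w ∧
        nrm (4 / 3) (fun x => Ysum n (MM L m) (ucnt (MM L m) (KK L m) (prof L)) x - w x) ≤ η := by
  obtain ⟨m0, hm0⟩ := eventually_atTop.mp (main_profile L hL (η / 2) (by positivity))
  refine ⟨m0, fun m hm _ n hn hlam => ?_⟩
  obtain ⟨w, hw1, hw2⟩ := hahn_banach (DD L m)
    (Ysum n (MM L m) (ucnt (MM L m) (KK L m) (prof L))) (η / 2)
    (by
      intro g hg h0
      obtain ⟨G, hG, hGu⟩ := good_of_functional n (MM L m) (KK L m) (DD L m) hn g hg h0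
      rw [← hGu]
      exact hm0 m hm n hn hlam G hG) (η / 2) (by positivity)
  refine ⟨w, hw1, hw2.trans (by linarith)⟩

end Pool.Helper187.HS
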