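import Pool.Agent.Helper187.HS.Defs

set_option autoImplicit false

/-! Heat smoothing on tail spaces: definitions (helper187). -/

namespace Pool.Helper187.HS
open scoped BigOperators
open Polynomial Filter Topology


theorem holder {ι : Type*} [Fintype ι] [DecidableEq ι] (f g : (ι → Bool) → ℝ) :
    |mean (fun x => f x * g x)| ≤ nrm (4 / 3) f * nrm 4 g := by
  have hpq : (4 / 3 : ℝ).HolderConjugate 4 := by
    rw [Real.holderConjugate_iff]
    constructor <;> norm_num
  have hH := Real.inner_le_Lp_mul_Lq Finset.univ (fun x : ι → Bool => |f x|)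
    (fun x : ι → Bool => |g x|) hpq
  simp only [abs_abs] at hH
  unfold nrm mean
  set N : ℝ := (2 : ℝ) ^ (Fintype.card ι) with hN
  have hN0 : 0 < N := by positivity
  set S1 : ℝ := ∑ x : ι → Bool, |f x| ^ (4 / 3 : ℝ) with hS1
  set S2 : ℝ := ∑ x : ι → Bool, |g x| ^ (4 : ℝ) with hS2
  have hS10 : 0 ≤ S1 := Finset.sum_nonneg fun x _ => Real.rpow_nonneg (abs_nonneg _) _
  have hS20 : 0 ≤ S2 := Finset.sum_nonneg fun x _ => Real.rpow_nonneg (abs_nonneg _) _
  rw [Real.div_rpow hS10 hN0.le, Real.div_rpow hS20 hN0.le, div_mul_div_comm,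
    ← Real.rpow_add hN0]
  have he : (1 / (4 / 3 : ℝ) + 1 / 4) = 1 := by norm_num
  rw [he, Real.rpow_one, abs_div, abs_of_pos hN0]
  apply div_le_div_of_nonneg_right _ hN0.le
  refine (Finset.abs_sum_le_sum_abs _ _).trans ?_
  simp only [abs_mul]
  exact hH

end Pool.Helper187.HS
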