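import Pool.Agent.Helper187.HS.Defs

set_option autoImplicit false

/-! Heat smoothing on tail spaces: definitions (helper187). -/

namespace Pool.Helper187.HS
open scoped BigOperators
open Polynomial Filter Topology


theorem flip_flip_aux {ι : Type*} [DecidableEq ι] (x : ι → Bool) (i : ι) :
    flip (flip x i) i = x := by
  unfold flip
  simp

theorem lap_symm {ι : Type*} [Fintype ι] [DecidableEq ι] (f g : (ι → Bool) → ℝ) :
    mean (fun x => f x * lap g x) = mean (fun x => lap f x * g x) := by
  unfold mean
  congr 1
  unfold lap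
  simp only [Finset.mul_sum, Finset.sum_mul]
  rw [Finset.sum_comm]
  rw [Finset.sum_comm (s := (Finset.univ : Finset (ι → Bool)))]
  apply Finset.sum_congr rfl
  intro i _
  have h1 : ∑ x : ι → Bool, f x * g (flip x i) = ∑ x : ι → Bool, f (flip x i) * g x := by
    let e : (ι → Bool) ≃ (ι → Bool) :=
      ⟨fun x => flip x i, fun x => flip x i, fun x => flip_flip_aux x i,
        fun x => flip_flip_aux x i⟩
    rw [← Equiv.sum_comp e]
    apply Finset.sum_congr rfl
    intro x _
    show f (flip x i) * g (flip (flip x i) i) = f (flip x i) * g x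
    rw [flip_flip_aux]
  have h2 : ∑ x : ι → Bool, f x * ((g x - g (flip x i)) / 2) =
      (∑ x : ι → Bool, f x * g x - ∑ x : ι → Bool, f x * g (flip x i)) / 2 := by
    rw [← Finset.sum_sub_distrib, Finset.sum_div]
    apply Finset.sum_congr rfl; intro x _; ring
  have h3 : ∑ x : ι → Bool, (f x - f (flip x i)) / 2 * g x =
      (∑ x : ι → Bool, f x * g x - ∑ x : ι → Bool, f (flip x i) * g x) / 2 := by
    rw [← Finset.sum_sub_distrib, Finset.sum_div]
    apply Finset.sum_congr rfl; intro x _; ring
  rw [h2, h3, h1]

end Pool.Helper187.HS
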