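import Pool.Agent.Helper187.HS.Defs

set_option autoImplicit false

/-! Heat smoothing on tail spaces: definitions (helper187). -/

namespace Pool.Helper187.HS
open scoped BigOperators
open Polynomial Filter Topology


theorem nrm_tri {ι : Type*} [Fintype ι] [DecidableEq ι] (f g : (ι → Bool) → ℝ) :
    nrm (4 / 3) (fun x => f x + g x) ≤ nrm (4 / 3) f + nrm (4 / 3) g := by
  have h := Real.Lp_add_le (Finset.univ : Finset (ι → Bool)) f g (p := 4 / 3) (by norm_num)
  have key : ∀ u : (ι → Bool) → ℝ, nrm (4 / 3) u =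
      (∑ x, |u x| ^ (4 / 3 : ℝ)) ^ (1 / (4 / 3) : ℝ) / ((2 : ℝ) ^ (Fintype.card ι)) ^ (1 / (4 / 3) : ℝ) := by
    intro u
    unfold nrm mean
    rw [Real.div_rpow (Finset.sum_nonneg fun x _ => Real.rpow_nonneg (abs_nonneg _) _) (by positivity)]
  rw [key, key, key, ← add_div]
  exact div_le_div_of_nonneg_right h (Real.rpow_nonneg (by positivity) _)

end Pool.Helper187.HS
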