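import Pool.Agent.Helper187.HS.Defs
import Pool.Agent.Helper187.HS.P_lap_chi
import Pool.Agent.Helper187.HS.P_chi_orth
import Pool.Agent.Helper187.HS.P_chi_expand

set_option autoImplicit false

/-! Heat smoothing on tail spaces: definitions (helper187). -/

namespace Pool.Helper187.HS
open scoped BigOperators
open Polynomial Filter Topology


theorem tail_inv {ι : Type*} [Fintype ι] [DecidableEq ι] (d : ℕ) (hd : 1 ≤ d)
    (f : (ι → Bool) → ℝ) (hf : Tail d f) : ∃ g : (ι → Bool) → ℝ, Tail d g ∧ lap g = f := by
  obtain ⟨c, hc⟩ : ∃ c : Finset ι → ℝ, ∀ S, c S = mean (fun y => f y * chi S y) :=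
    ⟨_, fun _ => rfl⟩
  have hc0 : ∀ S, S.card < d → c S = 0 := by
    intro S hS
    rw [hc]
    unfold mean
    rw [hf S hS, zero_div]
  have hfx : ∀ x, f x = ∑ S, c S * chi S x := by
    intro x
    rw [chi_expand f x]
    exact Finset.sum_congr rfl fun S _ => by rw [hc]
  refine ⟨fun x => ∑ S, (c S / (S.card:ℝ)) * chi S x, ?_, ?_⟩
  · intro T hT
    have h1 : ∀ x, (∑ S, (c S / (S.card:ℝ)) * chi S x) * chi T x =
        ∑ S, (c S / (S.card:ℝ)) * (chi S x * chi T x) := by
      intro x
      rw [Finset.sum_mul]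
      exact Finset.sum_congr rfl fun S _ => by ring
    simp only [h1]
    rw [Finset.sum_comm]
    refine Finset.sum_eq_zero fun S _ => ?_
    rw [← Finset.mul_sum]
    by_cases hST : S = T
    · rw [hST, hc0 T hT, zero_div, zero_mul]
    · have h2 := chi_orth S T
      rw [if_neg hST] at h2
      unfold mean at h2
      have h3 : (2:ℝ)^(Fintype.card ι) ≠ 0 := by positivity
      rw [div_eq_zero_iff] at h2
      rcases h2 with h2 | h2
      · rw [h2, mul_zero]
      · exact absurd h2 h3
  · funext x
    have h1 : lap (fun x => ∑ S, (c S / (S.card:ℝ)) * chi S x) x =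
        ∑ S, (c S / (S.card:ℝ)) * lap (chi S) x := by
      unfold lap
      simp only [Finset.mul_sum]
      rw [Finset.sum_comm]
      refine Finset.sum_congr rfl fun i _ => ?_
      rw [← Finset.sum_sub_distrib, Finset.sum_div]
      exact Finset.sum_congr rfl fun S _ => by ring
    rw [h1, hfx x]
    refine Finset.sum_congr rfl fun S _ => ?_
    rw [lap_chi]
    by_cases h : S.card = 0
    · rw [hc0 S (by omega), zero_div, zero_mul, zero_mul]
    · have h2 : (S.card : ℝ) ≠ 0 := by exact_mod_cast h
      field_simp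

end Pool.Helper187.HS
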