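import Pool.Agent.Helper187.HS.Defs
import Pool.Agent.Helper187.HS.P_lap_symm
import Pool.Agent.Helper187.HS.P_holder
import Pool.Agent.Helper187.HS.P_nrm_tri
import Pool.Agent.Helper187.HS.P_tail_inv

set_option autoImplicit false

/-! Heat smoothing on tail spaces: definitions (helper187). -/

namespace Pool.Helper187.HS
open scoped BigOperators
open Polynomial Filter Topology


lemma j20878_nonneg {ι : Type*} [Fintype ι] [DecidableEq ι] (p : ℝ) (f : (ι → Bool) → ℝ) :
    0 ≤ nrm p f := by
  unfold nrm mean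
  apply Real.rpow_nonneg
  apply div_nonneg
  · exact Finset.sum_nonneg fun x _ => Real.rpow_nonneg (abs_nonneg _) _
  · positivity

lemma j20878_neg {ι : Type*} [Fintype ι] [DecidableEq ι] (p : ℝ) (f : (ι → Bool) → ℝ) :
    nrm p (fun x => -(f x)) = nrm p f := by
  unfold nrm
  simp only [abs_neg]

theorem dual_bound {ι : Type*} [Fintype ι] [DecidableEq ι] (d : ℕ) (hd : 1 ≤ d) (c : ℝ)
    (hc : 0 < c)
    (hW : ∀ f : (ι → Bool) → ℝ, Tail d f → (d : ℝ) * c * nrm (4 / 3) f ≤ nrm (4 / 3) (lap f))
    (F w : (ι → Bool) → ℝ) (hw : Tail d w) :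
    mean (fun x => F x ^ 2) ≤ nrm (4 / 3) (fun x => F x - w x) * nrm 4 F +
      (nrm (4 / 3) F + nrm (4 / 3) (fun x => F x - w x)) * nrm 4 (lap F) / (d * c) := by
  have hdc : 0 < (d:ℝ) * c := by
    have : (0:ℝ) < d := by exact_mod_cast hd
    positivity
  obtain ⟨T, hT, hTw⟩ := tail_inv d hd w hw
  have h1 : mean (fun x => F x ^ 2) = mean (fun x => (F x - w x) * F x) +
      mean (fun x => T x * lap F x) := by
    have h2 : mean (fun x => T x * lap F x) = mean (fun x => F x * w x) := by
      rw [← hTw, lap_symm F T]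
      congr 1
      funext x
      ring
    rw [h2]
    unfold mean
    rw [← add_div, ← Finset.sum_add_distrib]
    congr 1
    refine Finset.sum_congr rfl fun x _ => ?_
    ring
  have h3 := (le_abs_self _).trans (holder (fun x => F x - w x) F)
  have h4 := (le_abs_self _).trans (holder T (lap F))
  have h5 := hW T hT
  rw [hTw] at h5
  have h6 : nrm (4 / 3) w ≤ nrm (4 / 3) F + nrm (4 / 3) (fun x => F x - w x) := by
    have h7 := nrm_tri F (fun x => -(F x - w x))
    rw [j20878_neg (4 / 3) (fun x => F x - w x)] at h7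
    have h8 : (fun x => F x + -(F x - w x)) = w := by
      funext x
      ring
    rw [h8] at h7
    exact h7
  have h9 : nrm (4 / 3) T ≤ (nrm (4 / 3) F + nrm (4 / 3) (fun x => F x - w x)) / (d * c) := by
    rw [le_div_iff₀ hdc, mul_comm]
    exact h5.trans h6
  have h10 : nrm (4 / 3) T * nrm 4 (lap F) ≤
      (nrm (4 / 3) F + nrm (4 / 3) (fun x => F x - w x)) * nrm 4 (lap F) / (d * c) := by
    calc nrm (4 / 3) T * nrm 4 (lap F)
        ≤ (nrm (4 / 3) F + nrm (4 / 3) (fun x => F x - w x)) / (d * c) * nrm 4 (lap F) :=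
          mul_le_mul_of_nonneg_right h9 (j20878_nonneg _ _)
      _ = _ := by ring
  rw [h1]
  linarith

end Pool.Helper187.HS
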