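import Pool.Agent.Helper187.HS.Defs

set_option autoImplicit false

/-! Heat smoothing on tail spaces: definitions (helper187). -/

namespace Pool.Helper187.HS
open scoped BigOperators
open Polynomial Filter Topology


theorem exists_n (L m : ℕ) (hL : 1 ≤ L) (hm : 1 ≤ m) :
    ∃ n : ℕ, 0 < n ∧ 1 ≤ lamz n (MM L m) (KK L m) 0 ∧ lamz n (MM L m) (KK L m) 0 ≤ 2 := by
  have hk : KK L m ≤ MM L m := by
    unfold KK MM
    nlinarith
  generalize KK L m = k at hk ⊢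
  generalize MM L m = M at hk ⊢
  have hC : 0 < M.choose k := Nat.choose_pos hk
  have hC' : (0 : ℝ) < (M.choose k : ℝ) := by exact_mod_cast hC
  have hC2 : (M.choose k : ℝ) ≤ 2 ^ M := by exact_mod_cast Nat.choose_le_two_pow M k
  have h2 : (0 : ℝ) < 2 ^ M := by positivity
  have hlam : ∀ n : ℕ, lamz n M k 0 = (n : ℝ) * (M.choose k : ℝ) / 2 ^ M := by
    intro n
    unfold lamz
    rw [if_pos (by constructor <;> omega), add_zero, Int.toNat_natCast]
  refine ⟨⌈(2 : ℝ) ^ M / (M.choose k : ℝ)⌉₊, Nat.ceil_pos.2 (by positivity), ?_, ?_⟩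
  · rw [hlam, le_div_iff₀ h2, one_mul]
    exact (div_le_iff₀ hC').1 (Nat.le_ceil _)
  · rw [hlam, div_le_iff₀ h2]
    have h3 : (⌈(2 : ℝ) ^ M / (M.choose k : ℝ)⌉₊ : ℝ) < 2 ^ M / (M.choose k : ℝ) + 1 :=
      Nat.ceil_lt_add_one (by positivity)
    have h4 : (⌈(2 : ℝ) ^ M / (M.choose k : ℝ)⌉₊ : ℝ) * (M.choose k : ℝ) <
        (2 ^ M / (M.choose k : ℝ) + 1) * (M.choose k : ℝ) := mul_lt_mul_of_pos_right h3 hC'
    have h5 : ((2 : ℝ) ^ M / (M.choose k : ℝ) + 1) * (M.choose k : ℝ) = 2 ^ M + M.choose k := by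
      field_simp
    linarith

end Pool.Helper187.HS
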