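import Pool.Agent.Helper187.HS.Defs
import Pool.Agent.Helper187.HS.P_lap_chi
import Pool.Agent.Helper187.HS.P_chi_expand
import Pool.Agent.Helper187.HS.P_nrm_tri

set_option autoImplicit false

/-! Heat smoothing on tail spaces: definitions (helper187). -/

namespace Pool.Helper187.HS
open scoped BigOperators
open Polynomial Filter Topology


theorem htw_smul {ι : Type*} [Fintype ι] [DecidableEq ι] (t : ℝ) (ht : 0 < t)
    (g : (ι → Bool) → ℝ) : nrm (4 / 3) (fun x => t * g x) = t * nrm (4 / 3) g := by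
  unfold nrm mean
  have h1 : ∀ x, |t * g x| ^ (4 / 3 : ℝ) = t ^ (4 / 3 : ℝ) * |g x| ^ (4 / 3 : ℝ) := by
    intro x
    rw [abs_mul, abs_of_pos ht, Real.mul_rpow ht.le (abs_nonneg _)]
  simp only [h1]
  rw [← Finset.mul_sum, mul_div_assoc, Real.mul_rpow (by positivity)
    (div_nonneg (Finset.sum_nonneg fun x _ => by positivity) (by positivity)),
    ← Real.rpow_mul ht.le]
  norm_num

theorem htw_lim (s : ℝ) : Tendsto (fun t : ℝ => (1 - Real.exp (-t * s)) / t) (𝓝[>] 0) (𝓝 s) := by
  have h : HasDerivAt (fun t : ℝ => 1 - Real.exp (-t * s)) s 0 := by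
    have h1 : HasDerivAt (fun t : ℝ => -t * s) (-1 * s) 0 := (hasDerivAt_neg (0:ℝ)).mul_const s
    have h2 := h1.exp.const_sub 1
    simpa using h2
  rw [hasDerivAt_iff_tendsto_slope_zero] at h
  have h3 := h.mono_left (nhdsWithin_mono (0:ℝ) (fun x (hx : x ∈ Set.Ioi (0:ℝ)) =>
    (ne_of_gt hx : x ≠ 0)))
  refine h3.congr fun t => ?_
  simp only [zero_add, smul_eq_mul, neg_zero, zero_mul, Real.exp_zero, sub_self, sub_zero]
  rw [div_eq_inv_mul]

theorem heat_to_weak (n d : ℕ) (c : ℝ) (f : (Fin n → Bool) → ℝ)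
    (hheat : ∀ t : ℝ, 0 ≤ t →
      nrm (4 / 3) (fun x => ∑ S : Finset (Fin n),
        Real.exp (-t * (S.card : ℝ)) * mean (fun y => f y * chi S y) * chi S x) ≤
        Real.exp (-t * (d : ℝ) * c) * nrm (4 / 3) f) :
    (d : ℝ) * c * nrm (4 / 3) f ≤ nrm (4 / 3) (lap f) := by
  set a : Finset (Fin n) → ℝ := fun S => mean (fun y => f y * chi S y) with ha
  have hf : ∀ x, f x = ∑ S, a S * chi S x := chi_expand f
  have hlap : ∀ x, lap f x = ∑ S, (S.card : ℝ) * (a S * chi S x) := by
    intro x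
    calc lap f x = ∑ i : Fin n, ∑ S, a S * ((chi S x - chi S (flip x i)) / 2) := by
          unfold lap
          refine Finset.sum_congr rfl fun i _ => ?_
          rw [hf x, hf (flip x i), ← Finset.sum_sub_distrib, Finset.sum_div]
          refine Finset.sum_congr rfl fun S _ => ?_
          ring
      _ = ∑ S, a S * lap (chi S) x := by
          rw [Finset.sum_comm]
          refine Finset.sum_congr rfl fun S _ => ?_
          rw [← Finset.mul_sum]
          rfl
      _ = _ := by
          refine Finset.sum_congr rfl fun S _ => ?_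
          rw [lap_chi]; ring
  -- the difference quotient
  let g : ℝ → (Fin n → Bool) → ℝ := fun t x =>
    ∑ S, ((1 - Real.exp (-t * (S.card : ℝ))) / t) * (a S * chi S x)
  have hg : ∀ x, Tendsto (fun t => g t x) (𝓝[>] 0) (𝓝 (lap f x)) := by
    intro x
    rw [hlap x]
    exact tendsto_finset_sum _ fun S _ => (htw_lim _).mul_const _
  have hng : Tendsto (fun t => nrm (4 / 3) (g t)) (𝓝[>] 0) (𝓝 (nrm (4 / 3) (lap f))) := by
    unfold nrm mean
    refine Tendsto.rpow_const ?_ (Or.inr (by norm_num))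
    refine Tendsto.div_const (tendsto_finset_sum _ fun x _ => ?_) _
    exact Tendsto.rpow_const (hg x).abs (Or.inr (by norm_num))
  have hl : Tendsto (fun t : ℝ => (1 - Real.exp (-t * ((d : ℝ) * c))) / t * nrm (4 / 3) f)
      (𝓝[>] 0) (𝓝 ((d : ℝ) * c * nrm (4 / 3) f)) := (htw_lim _).mul_const _
  refine le_of_tendsto_of_tendsto hl hng ?_
  filter_upwards [self_mem_nhdsWithin] with t ht
  have ht0 : (0:ℝ) < t := ht
  have h1 := hheat t ht0.le
  have h2 := nrm_tri (fun x => ∑ S : Finset (Fin n),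
        Real.exp (-t * (S.card : ℝ)) * a S * chi S x) (fun x => t * g t x)
  have h3 : (fun x => (∑ S : Finset (Fin n),
        Real.exp (-t * (S.card : ℝ)) * a S * chi S x) + t * g t x) = f := by
    funext x
    rw [hf x, Finset.mul_sum, ← Finset.sum_add_distrib]
    refine Finset.sum_congr rfl fun S _ => ?_
    field_simp
    ring
  rw [h3, htw_smul t ht0] at h2
  have h4 : nrm (4 / 3) f ≤ Real.exp (-t * (d : ℝ) * c) * nrm (4 / 3) f + t * nrm (4 / 3) (g t) :=
    h2.trans (add_le_add h1 le_rfl)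
  have e : -t * ((d : ℝ) * c) = -t * (d : ℝ) * c := by ring
  rw [e, div_mul_eq_mul_div, div_le_iff₀ ht0]
  linarith

end Pool.Helper187.HS
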