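import Pool.Agent.Helper187.HS.Defs

set_option autoImplicit false

/-! Heat smoothing on tail spaces: definitions (helper187). -/

namespace Pool.Helper187.HS
open scoped BigOperators
open Polynomial Filter Topology


theorem lamz_right_lower_choose (L m : ℕ) (i : ℕ) (hi : i ≤ 2 * m) :
    (MM L m).choose (KK L m) ≤ (MM L m).choose (KK L m + i) := by
  induction i with
  | zero => simp
  | succ k ih =>
    refine (ih (by omega)).trans ?_
    have h : KK L m + k < MM L m / 2 := by
      have h2 : MM L m = 2 * (KK L m + 2 * m) := by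
        unfold MM KK; ring
      rw [h2]
      omega
    have := Nat.choose_le_succ_of_lt_half_left h
    rw [← Nat.add_assoc]
    exact this

theorem lamz_right_lower_eq (L m n : ℕ) (i : ℕ) (hi : i ≤ 2 * m) :
    lamz n (MM L m) (KK L m) (i : ℤ) =
      (n : ℝ) * ((MM L m).choose (KK L m + i) : ℝ) / 2 ^ (MM L m) := by
  have h2 : MM L m = 2 * (KK L m + 2 * m) := by
    unfold MM KK; ring
  unfold lamz
  rw [if_pos]
  · have : ((KK L m : ℤ) + (i : ℤ)).toNat = KK L m + i := by omega
    rw [this]
  · constructor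
    · positivity
    · omega

theorem lamz_right_lower (L m n : ℕ) (hL : 1 ≤ L) (hm : 1 ≤ m)
    (h1 : 1 ≤ lamz n (MM L m) (KK L m) 0) (i : ℕ) (hi : i ≤ 2 * m) :
    1 ≤ lamz n (MM L m) (KK L m) (i : ℤ) := by
  have h0 := lamz_right_lower_eq L m n 0 (by omega)
  have h3 := lamz_right_lower_eq L m n i hi
  have h4 := lamz_right_lower_choose L m i hi
  simp only [Nat.cast_zero, Nat.add_zero] at h0
  rw [h0] at h1
  rw [h3]
  refine h1.trans ?_
  gcongr

end Pool.Helper187.HS
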