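import Pool.Agent.Helper187.HS.Defs
import Pool.Agent.Helper187.HS.P_lamz_left
import Pool.Agent.Helper187.HS.P_lamz_right

set_option autoImplicit false

/-! Heat smoothing on tail spaces: definitions (helper187). -/

namespace Pool.Helper187.HS
open scoped BigOperators
open Polynomial Filter Topology


theorem lamz_window (L m n : ℕ) (hL : 1 ≤ L) (hm : L ≤ m)
    (h2 : lamz n (MM L m) (KK L m) 0 ≤ 2) :
    ∑ i ∈ Finset.Icc (-((L : ℤ) + 1)) ((L : ℤ) + 1), lamz n (MM L m) (KK L m) i ≤
      30 * (L : ℝ) := by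
  classical
  have hL0 : (0 : ℝ) < L := by exact_mod_cast hL
  have hL1 : (1 : ℝ) ≤ L := by exact_mod_cast hL
  have hm1 : 1 ≤ m := hL.trans hm
  have hLm : L ≤ L * m := Nat.le_mul_of_pos_right L hm1
  have hKK : L + 1 ≤ KK L m := by unfold KK; nlinarith
  have hMM : KK L m + (L + 1) ≤ MM L m := by unfold KK MM; nlinarith
  set f := lamz n (MM L m) (KK L m) with hf
  have hsplit : Finset.Icc (-((L : ℤ) + 1)) ((L : ℤ) + 1) =
      Finset.Icc (-((L : ℤ) + 1)) (-1) ∪ Finset.Icc 0 ((L : ℤ) + 1) := by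
    ext x
    simp only [Finset.mem_union, Finset.mem_Icc]
    omega
  have hdisj : Disjoint (Finset.Icc (-((L : ℤ) + 1)) (-1)) (Finset.Icc 0 ((L : ℤ) + 1)) := by
    rw [Finset.disjoint_left]
    intro x hx hx2
    rw [Finset.mem_Icc] at hx hx2
    omega
  rw [hsplit, Finset.sum_union hdisj]
  have hneg : ∑ i ∈ Finset.Icc (-((L : ℤ) + 1)) (-1), f i ≤ 2 * ((L : ℝ) + 1) := by
    have h1 : ∀ i ∈ Finset.Icc (-((L : ℤ) + 1)) (-1), f i ≤ 2 := by
      intro i hi
      rw [Finset.mem_Icc] at hi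
      obtain ⟨k, hk⟩ : ∃ k : ℕ, i = -(k : ℤ) := ⟨(-i).toNat, by omega⟩
      have h3 := lamz_left L m n hL hm1 h2 k (by omega)
      rw [hk]
      refine h3.trans ?_
      have h4 : ((L : ℝ) / (L + 1)) ^ k ≤ 1 := by
        apply pow_le_one₀ (by positivity)
        rw [div_le_one (by positivity)]
        linarith
      linarith
    have h5 := Finset.sum_le_card_nsmul _ _ _ h1
    have h6 : (Finset.Icc (-((L : ℤ) + 1)) (-1)).card = L + 1 := by
      rw [Int.card_Icc]; omega
    rw [h6, nsmul_eq_mul] at h5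
    push_cast at h5
    linarith
  have hmap : Finset.Icc 0 ((L : ℤ) + 1) = (Finset.range (L + 2)).map Nat.castEmbedding := by
    ext x
    simp only [Finset.mem_Icc, Finset.mem_map, Finset.mem_range, Nat.castEmbedding_apply]
    constructor
    · rintro ⟨h1, h2⟩
      exact ⟨x.toNat, by omega, by omega⟩
    · rintro ⟨k, hk, rfl⟩
      omega
  have hpos : ∑ i ∈ Finset.Icc 0 ((L : ℤ) + 1), f i ≤
      2 * ∑ k ∈ Finset.range (L + 2), (((L : ℝ) + 1) / L) ^ k := by
    rw [hmap, Finset.sum_map, Finset.mul_sum]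
    apply Finset.sum_le_sum
    intro k hk
    rw [Finset.mem_range] at hk
    have := lamz_right L m n hL hm1 h2 k (by omega)
    simpa using this
  have hgeom : ∑ k ∈ Finset.range (L + 2), (((L : ℝ) + 1) / L) ^ k =
      L * ((((L : ℝ) + 1) / L) ^ (L + 2) - 1) := by
    have h1 := mul_geom_sum (((L : ℝ) + 1) / L) (L + 2)
    have h2 : ((L : ℝ) + 1) / L - 1 = 1 / L := by field_simp; ring
    rw [h2] at h1
    rw [← h1]
    field_simp
  have hq : (((L : ℝ) + 1) / L) ^ (L + 2) ≤ 3 * 4 := by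
    rw [pow_add]
    have h1 : (((L : ℝ) + 1) / L) ^ L ≤ 3 := by
      have h2 : ((L : ℝ) + 1) / L ≤ Real.exp (1 / L) := by
        have := Real.add_one_le_exp (1 / (L : ℝ))
        have h3 : ((L : ℝ) + 1) / L = 1 / L + 1 := by field_simp; ring
        rw [h3]; exact this
      calc (((L : ℝ) + 1) / L) ^ L ≤ (Real.exp (1 / L)) ^ L :=
            pow_le_pow_left₀ (by positivity) h2 L
        _ = Real.exp 1 := by
            rw [← Real.exp_nat_mul]
            congr 1
            field_simp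
        _ ≤ 3 := by
            have := Real.exp_one_lt_d9
            linarith
    have h3 : (((L : ℝ) + 1) / L) ^ 2 ≤ 4 := by
      have h4 : ((L : ℝ) + 1) / L ≤ 2 := by
        rw [div_le_iff₀ hL0]; linarith
      have h5 : 0 ≤ ((L : ℝ) + 1) / L := by positivity
      nlinarith
    exact mul_le_mul h1 h3 (by positivity) (by norm_num)
  have hfin : ∑ k ∈ Finset.range (L + 2), (((L : ℝ) + 1) / L) ^ k ≤ 11 * L := by
    rw [hgeom]
    nlinarith
  linarith

end Pool.Helper187.HS
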