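import Pool.Agent.Helper187.HS.Defs

set_option autoImplicit false

/-! Heat smoothing on tail spaces: definitions (helper187). -/

namespace Pool.Helper187.HS
open scoped BigOperators
open Polynomial Filter Topology


theorem prof_lower (L : ℕ) (hL : 1 ≤ L) (i : ℤ) (hi : 2 * |i| ≤ (L : ℤ)) : 9 / 16 ≤ prof L i := by
  have hLr : (1 : ℝ) ≤ (L : ℝ) := by exact_mod_cast hL
  have h1 : 2 * |(i : ℝ)| ≤ (L : ℝ) := by
    have : ((2 * |i| : ℤ) : ℝ) ≤ ((L : ℤ) : ℝ) := by exact_mod_cast hi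
    push_cast at this
    exact this
  have h2 : |(i : ℝ)| ≤ (L : ℝ) := by
    have := abs_nonneg (i : ℝ)
    linarith
  unfold prof
  rw [if_pos h2]
  have h3 : ((i : ℝ) / (L : ℝ)) ^ 2 ≤ 1 / 4 := by
    rw [div_pow, div_le_iff₀ (by positivity)]
    have h4 : (i : ℝ) ^ 2 = |(i : ℝ)| ^ 2 := (sq_abs _).symm
    rw [h4]
    have := abs_nonneg (i : ℝ)
    nlinarith
  have h5 : 0 ≤ ((i : ℝ) / (L : ℝ)) ^ 2 := sq_nonneg _
  nlinarith

end Pool.Helper187.HS
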