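import Pool.Agent.Helper187.HS.Defs
import Pool.Agent.Helper187.HS.P_mean_ucnt
import Pool.Agent.Helper187.HS.P_lamz_right_lower
import Pool.Agent.Helper187.HS.P_prof_lower

set_option autoImplicit false

/-! Heat smoothing on tail spaces: definitions (helper187). -/

namespace Pool.Helper187.HS
open scoped BigOperators
open Polynomial Filter Topology


theorem mean_lower (L m n : ℕ) (hL : 1 ≤ L) (hm : L ≤ m)
    (h1 : 1 ≤ lamz n (MM L m) (KK L m) 0) :
    (L : ℝ) / 7 ≤ (n : ℝ) * mean (fun y => ucnt (MM L m) (KK L m) (prof L) y ^ 2) := by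
  have hm1 : 1 ≤ m := hL.trans hm
  have h2 : (fun y : Fin (MM L m) → Bool => ucnt (MM L m) (KK L m) (prof L) y ^ 2) =
      ucnt (MM L m) (KK L m) (fun i => prof L i ^ 2) := rfl
  rw [h2, mean_ucnt]
  have hnn : ∀ i, 0 ≤ lamz n (MM L m) (KK L m) i := by
    intro i
    unfold lamz
    split_ifs
    · positivity
    · exact zero_le_one
  have hMK : (MM L m : ℤ) - (KK L m : ℤ) = 4 * (L + 1) * m := by
    unfold MM KK
    push_cast
    ring
  have hsub : Finset.Icc (0 : ℤ) ((L / 2 : ℕ) : ℤ) ⊆ Rng (MM L m) (KK L m) := by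
    intro i hi
    rw [Finset.mem_Icc] at hi
    unfold Rng
    rw [Finset.mem_Icc]
    refine ⟨by omega, ?_⟩
    rw [hMK]
    have h3 : ((L / 2 : ℕ) : ℤ) ≤ (m : ℤ) := by
      have : L / 2 ≤ m := (Nat.div_le_self _ _).trans hm
      exact_mod_cast this
    have h4 : (m : ℤ) ≤ 4 * (L + 1) * m := by
      have h5 : (1 : ℤ) ≤ 4 * (L + 1) := by
        have : (0 : ℤ) ≤ L := Int.natCast_nonneg _
        linarith
      have h6 : (0 : ℤ) ≤ m := Int.natCast_nonneg _
      nlinarith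
    linarith [hi.2]
  have hle : ∑ i ∈ Finset.Icc (0 : ℤ) ((L / 2 : ℕ) : ℤ),
      lamz n (MM L m) (KK L m) i * prof L i ^ 2 ≤
      ∑ i ∈ Rng (MM L m) (KK L m), lamz n (MM L m) (KK L m) i * prof L i ^ 2 :=
    Finset.sum_le_sum_of_subset_of_nonneg hsub fun i _ _ =>
      mul_nonneg (hnn i) (sq_nonneg _)
  have hterm : ∀ i ∈ Finset.Icc (0 : ℤ) ((L / 2 : ℕ) : ℤ),
      (81 / 256 : ℝ) ≤ lamz n (MM L m) (KK L m) i * prof L i ^ 2 := by
    intro i hi
    rw [Finset.mem_Icc] at hi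
    have h3 : ((i.toNat : ℕ) : ℤ) = i := Int.toNat_of_nonneg hi.1
    have h4 : i.toNat ≤ 2 * m := by omega
    have h5 := lamz_right_lower L m n hL hm1 h1 i.toNat h4
    rw [h3] at h5
    have h6 := prof_lower L hL i (by
      rw [abs_of_nonneg hi.1]
      omega)
    have h7 : (81 / 256 : ℝ) ≤ prof L i ^ 2 := by nlinarith
    nlinarith
  have hcard := Finset.card_nsmul_le_sum _ _ _ hterm
  rw [Int.card_Icc, nsmul_eq_mul] at hcard
  have h8 : (((L / 2 : ℕ) : ℤ) + 1 - 0).toNat = L / 2 + 1 := by omega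
  rw [h8] at hcard
  have h9 : (L : ℝ) + 1 ≤ 2 * ((L / 2 + 1 : ℕ) : ℝ) := by
    have : L + 1 ≤ 2 * (L / 2 + 1) := by omega
    exact_mod_cast this
  have h10 : (0 : ℝ) ≤ L := Nat.cast_nonneg _
  linarith

end Pool.Helper187.HS
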