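import Pool.Agent.Helper187.HS.Defs
import Pool.Agent.Helper187.HS.P_mean_ucnt
import Pool.Agent.Helper187.HS.P_lamz_window

set_option autoImplicit false

/-! Heat smoothing on tail spaces: definitions (helper187). -/

namespace Pool.Helper187.HS
open scoped BigOperators
open Polynomial Filter Topology


theorem mean_window (L m n : ℕ) (hL : 1 ≤ L) (hm : L ≤ m)
    (h2 : lamz n (MM L m) (KK L m) 0 ≤ 2) (u : (Fin (MM L m) → Bool) → ℝ) (K : ℝ) (hK : 0 ≤ K)
    (hu : ∀ y, |u y| ≤ K * (if |(cnt y : ℤ) - (KK L m : ℤ)| ≤ (L : ℤ) + 1 then 1 else 0)) :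
    (n : ℝ) * mean (fun y => u y ^ 2) ≤ K ^ 2 * (30 * L) ∧
      (n : ℝ) * mean (fun y => u y ^ 4) ≤ K ^ 4 * (30 * L) := by
  classical
  obtain ⟨φ, hφ⟩ : ∃ φ : ℤ → ℝ, φ = fun i => if |i| ≤ (L : ℤ) + 1 then 1 else 0 := ⟨_, rfl⟩
  have hm1 : 1 ≤ m := by omega
  have key : (n : ℝ) * mean (ucnt (MM L m) (KK L m) φ) ≤ 30 * L := by
    rw [mean_ucnt]
    refine le_trans (le_of_eq ?_) (lamz_window L m n hL hm h2)
    have hsub : Finset.Icc (-((L : ℤ) + 1)) ((L : ℤ) + 1) ⊆ Rng (MM L m) (KK L m) := by
      unfold Rng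
      apply Finset.Icc_subset_Icc
      · unfold KK
        push_cast
        have h1 : (1 : ℤ) ≤ L := by exact_mod_cast hL
        have h3 : (1 : ℤ) ≤ m := by exact_mod_cast hm1
        nlinarith
      · unfold KK MM
        push_cast
        have h1 : (1 : ℤ) ≤ L := by exact_mod_cast hL
        have h3 : (1 : ℤ) ≤ m := by exact_mod_cast hm1
        nlinarith
    rw [← Finset.sum_subset hsub]
    · apply Finset.sum_congr rfl
      intro i hi
      rw [Finset.mem_Icc] at hi
      rw [hφ]
      simp only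
      rw [if_pos (abs_le.2 hi), mul_one]
    · intro i _ hi
      rw [Finset.mem_Icc] at hi
      rw [hφ]
      simp only
      rw [if_neg (fun h => hi (abs_le.1 h)), mul_zero]
  have gen : ∀ p : ℕ, p ≠ 0 → (n : ℝ) * mean (fun y => |u y| ^ p) ≤ K ^ p * (30 * L) := by
    intro p hp
    have h1 : mean (fun y => |u y| ^ p) ≤ K ^ p * mean (ucnt (MM L m) (KK L m) φ) := by
      unfold mean
      rw [mul_div_assoc']
      apply div_le_div_of_nonneg_right _ (by positivity)
      rw [Finset.mul_sum]
      apply Finset.sum_le_sum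
      intro y _
      have h3 : ucnt (MM L m) (KK L m) φ y =
        (if |(cnt y : ℤ) - (KK L m : ℤ)| ≤ (L : ℤ) + 1 then 1 else 0) := by
        rw [hφ]
        rfl
      rw [h3]
      have h4 := pow_le_pow_left₀ (abs_nonneg _) (hu y) p
      rw [mul_pow] at h4
      refine h4.trans (le_of_eq ?_)
      congr 1
      split_ifs
      · simp
      · exact zero_pow hp
    calc (n : ℝ) * mean (fun y => |u y| ^ p) ≤ n * (K ^ p * mean (ucnt (MM L m) (KK L m) φ)) :=
          mul_le_mul_of_nonneg_left h1 (Nat.cast_nonneg _)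
      _ = K ^ p * (n * mean (ucnt (MM L m) (KK L m) φ)) := by ring
      _ ≤ K ^ p * (30 * L) := mul_le_mul_of_nonneg_left key (by positivity)
  constructor
  · have h := gen 2 (by norm_num)
    have e : (fun y => |u y| ^ 2) = fun y => u y ^ 2 := by
      funext y
      exact sq_abs _
    rw [e] at h
    exact h
  · have h := gen 4 (by norm_num)
    have e : (fun y => |u y| ^ 4) = fun y => u y ^ 4 := by
      funext y
      exact Even.pow_abs (by decide) _
    rw [e] at h
    exact h

end Pool.Helper187.HS
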