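import Pool.Agent.Helper187.HS.Defs
import Pool.Agent.Helper187.HS.P_Ysum_four
import Pool.Agent.Helper187.HS.P_mean_window

set_option autoImplicit false

/-! Heat smoothing on tail spaces: definitions (helper187). -/

namespace Pool.Helper187.HS
open scoped BigOperators
open Polynomial Filter Topology


theorem nrm4_Ysum (L m n : ℕ) (hL : 1 ≤ L) (hm : L ≤ m)
    (h2 : lamz n (MM L m) (KK L m) 0 ≤ 2) (u : (Fin (MM L m) → Bool) → ℝ) (K : ℝ) (hK : 0 ≤ K)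
    (hu : ∀ y, |u y| ≤ K * (if |(cnt y : ℤ) - (KK L m : ℤ)| ≤ (L : ℤ) + 1 then 1 else 0)) :
    nrm 4 (Ysum n (MM L m) u) ≤ 9 * K * Real.sqrt L := by
  have h0 : ∀ f : (Idx n (MM L m) → Bool) → ℝ, mean (fun x => |f x| ^ (4 : ℝ)) = mean (fun x => f x ^ 4) := by
    intro f
    congr 1
    funext x
    have h1 : |f x| ^ (4 : ℝ) = |f x| ^ (4 : ℕ) := by
      rw [← Real.rpow_natCast]
      norm_num
    rw [h1]
    have h2 : |f x| ^ 4 = (|f x| ^ 2) ^ 2 := by ring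
    rw [h2, sq_abs]
    ring
  have h1 := Ysum_four n (MM L m) u
  obtain ⟨h3, h4⟩ := mean_window L m n hL hm h2 u K hK hu
  have hL1 : (1 : ℝ) ≤ L := by exact_mod_cast hL
  have hmn : ∀ g : (Fin (MM L m) → Bool) → ℝ, (∀ y, 0 ≤ g y) → 0 ≤ mean g := by
    intro g hg
    unfold mean
    exact div_nonneg (Finset.sum_nonneg (fun y _ => hg y)) (by positivity)
  have h5 : 0 ≤ (n : ℝ) * mean (fun y => u y ^ 2) := mul_nonneg (Nat.cast_nonneg _) (hmn _ (fun y => sq_nonneg _))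
  have h6 : ((n : ℝ) * mean (fun y => u y ^ 2)) ^ 2 ≤ (K ^ 2 * (30 * L)) ^ 2 := pow_le_pow_left₀ h5 h3 2
  have hs : Real.sqrt L ^ 2 = (L : ℝ) := Real.sq_sqrt (by linarith)
  have h7 : mean (fun x => Ysum n (MM L m) u x ^ 4) ≤ (9 * K * Real.sqrt L) ^ 4 := by
    have e1 : (9 * K * Real.sqrt L) ^ 4 = 6561 * (K ^ 4 * (Real.sqrt L ^ 2) ^ 2) := by ring
    rw [e1, hs]
    have hK4 : 0 ≤ K ^ 4 := by positivity
    have h8 : K ^ 4 * (L : ℝ) ≤ K ^ 4 * (L : ℝ) ^ 2 := by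
      apply mul_le_mul_of_nonneg_left _ hK4
      nlinarith
    have h9 : 0 ≤ K ^ 4 * (L : ℝ) ^ 2 := by positivity
    nlinarith
  unfold nrm
  rw [h0]
  have hpos : 0 ≤ 9 * K * Real.sqrt L := by positivity
  have h8 : 0 ≤ mean (fun x => Ysum n (MM L m) u x ^ 4) := by
    unfold mean
    exact div_nonneg (Finset.sum_nonneg (fun y _ => by positivity)) (by positivity)
  have h9 := Real.rpow_le_rpow h8 h7 (by norm_num : (0 : ℝ) ≤ 1 / 4)
  refine h9.trans (le_of_eq ?_)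
  have h10 : (9 * K * Real.sqrt L) ^ 4 = (9 * K * Real.sqrt L) ^ (4 : ℝ) := by
    rw [← Real.rpow_natCast]
    norm_num
  rw [h10, ← Real.rpow_mul hpos]
  norm_num

end Pool.Helper187.HS
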