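import Pool.Agent.Helper187.HS.Defs

set_option autoImplicit false

/-! Heat smoothing on tail spaces: definitions (helper187). -/

namespace Pool.Helper187.HS
open scoped BigOperators
open Polynomial Filter Topology


theorem prof_bounds (L : ℕ) (hL : 1 ≤ L) (i : ℤ) : 0 ≤ prof L i ∧ prof L i ≤ 1 := by
  unfold prof
  split_ifs with h
  · have hLpos : (0 : ℝ) < (L : ℝ) := by exact_mod_cast hL
    have h1 : |(i : ℝ) / (L : ℝ)| ≤ 1 := by
      rw [abs_div, abs_of_pos hLpos, div_le_one hLpos]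
      exact h
    have h2 : ((i : ℝ) / (L : ℝ)) ^ 2 ≤ 1 := by
      rw [← sq_abs]
      exact pow_le_one₀ (abs_nonneg _) h1
    have h3 : 0 ≤ ((i : ℝ) / (L : ℝ)) ^ 2 := sq_nonneg _
    refine ⟨sq_nonneg _, ?_⟩
    exact pow_le_one₀ (by linarith) (by linarith)
  · exact ⟨le_refl _, zero_le_one⟩

end Pool.Helper187.HS
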