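import Pool.Agent.Helper187.HS.Defs

set_option autoImplicit false

/-! Heat smoothing on tail spaces: definitions (helper187). -/

namespace Pool.Helper187.HS
open scoped BigOperators
open Polynomial Filter Topology


theorem pd_clamp (L : ℕ) (hL : 1 ≤ L) (i : ℤ) :
    prof L i = (1 - (max (-1) (min ((i : ℝ) / (L : ℝ)) 1)) ^ 2) ^ 2 := by
  have hL0 : (0 : ℝ) < L := by exact_mod_cast hL
  unfold prof
  split_ifs with h
  · obtain ⟨h1, h2⟩ := abs_le.1 h
    have h3 : (i : ℝ) / L ≤ 1 := by rw [div_le_one hL0]; exact h2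
    have h4 : -1 ≤ (i : ℝ) / L := by rw [le_div_iff₀ hL0]; linarith
    rw [min_eq_left h3, max_eq_right h4]
  · rw [not_le, lt_abs] at h
    rcases h with h | h
    · have h3 : 1 ≤ (i : ℝ) / L := by rw [le_div_iff₀ hL0]; linarith
      rw [min_eq_right h3, max_eq_right (by norm_num)]
      norm_num
    · have h3 : (i : ℝ) / L ≤ -1 := by rw [div_le_iff₀ hL0]; linarith
      rw [min_eq_left (by linarith), max_eq_left h3]
      norm_num

theorem pd_poly (a b : ℝ) (hab : a ≤ b) (ha1 : -1 ≤ a) (hb2 : b ≤ 1) :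
    |(1 - a ^ 2) ^ 2 - (1 - b ^ 2) ^ 2| ≤ 2 * (b - a) := by
  have hs : |a + b| * (2 - a ^ 2 - b ^ 2) ≤ 2 := by
    have h0 := abs_nonneg (a + b)
    have h1 : |a + b| ^ 2 = (a + b) ^ 2 := sq_abs _
    have h2 : |a + b| ^ 2 ≤ 2 * (a ^ 2 + b ^ 2) := by
      rw [h1]
      nlinarith [sq_nonneg (a - b)]
    set s := |a + b| with hsdef
    have h3 : s * (2 - a ^ 2 - b ^ 2) ≤ s * (2 - s ^ 2 / 2) :=
      mul_le_mul_of_nonneg_left (by linarith) h0
    have h4 : 0 ≤ (s - 7 / 6) ^ 2 * (s + 7 / 3) := by positivity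
    nlinarith
  have hpos : 0 ≤ 2 - a ^ 2 - b ^ 2 := by nlinarith
  have e : (1 - a ^ 2) ^ 2 - (1 - b ^ 2) ^ 2 = (b - a) * ((a + b) * (2 - a ^ 2 - b ^ 2)) := by ring
  rw [e, abs_mul, abs_mul, abs_of_nonneg hpos, abs_of_nonneg (sub_nonneg.2 hab)]
  have := mul_le_mul_of_nonneg_left hs (sub_nonneg.2 hab)
  linarith

theorem prof_diff (L : ℕ) (hL : 1 ≤ L) (i : ℤ) :
    |prof L (i - 1) - prof L (i + 1)| ≤ 4 / (L : ℝ) := by
  have hL0 : (0 : ℝ) < L := by exact_mod_cast hL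
  rw [pd_clamp L hL, pd_clamp L hL]
  have hlt : ((i - 1 : ℤ) : ℝ) / L ≤ ((i + 1 : ℤ) : ℝ) / L := by
    gcongr
    linarith
  have hd : ((i + 1 : ℤ) : ℝ) / L - ((i - 1 : ℤ) : ℝ) / L = 2 / L := by
    push_cast
    ring
  set a := ((i - 1 : ℤ) : ℝ) / L with hadef
  set b := ((i + 1 : ℤ) : ℝ) / L with hbdef
  have h1 : max (-1) (min a 1) ≤ max (-1) (min b 1) := max_le_max le_rfl (min_le_min hlt le_rfl)
  have h2 : max (-1) (min b 1) - max (-1) (min a 1) ≤ b - a := by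
    simp only [max_def, min_def]
    split_ifs <;> linarith
  have h3 := pd_poly _ _ h1 (le_max_left _ _) (max_le (by norm_num) (min_le_right _ _))
  refine h3.trans ?_
  calc 2 * (max (-1) (min b 1) - max (-1) (min a 1)) ≤ 2 * (b - a) := by linarith
    _ = 4 / L := by rw [hd]; ring

end Pool.Helper187.HS
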