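import Pool.Agent.Helper187.HS.Defs

set_option autoImplicit false

/-! Heat smoothing on tail spaces: definitions (helper187). -/

namespace Pool.Helper187.HS
open scoped BigOperators
open Polynomial Filter Topology


theorem prof_in (L : ℕ) (i : ℤ) (h : |i| ≤ L) : prof L i = (1 - ((i : ℝ) / (L : ℝ)) ^ 2) ^ 2 := by
  unfold prof
  rw [if_pos]
  exact_mod_cast h

theorem prof_out (L : ℕ) (hL : 1 ≤ L) (i : ℤ) (h : (L : ℤ) ≤ |i|) : prof L i = 0 := by
  unfold prof
  split_ifs with h1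
  · have h2 : |i| ≤ (L : ℤ) := by exact_mod_cast h1
    have h3 : |i| = (L : ℤ) := le_antisymm h2 h
    have h4 : ((i : ℝ) / (L : ℝ)) ^ 2 = 1 := by
      rw [div_pow]
      have h5 : (i : ℝ) ^ 2 = (L : ℝ) ^ 2 := by
        rw [← sq_abs]
        have : |(i : ℝ)| = (L : ℝ) := by exact_mod_cast h3
        rw [this]
      rw [h5]
      have : (L : ℝ) ≠ 0 := by
        have : L ≠ 0 := by omega
        exact_mod_cast this
      field_simp
    rw [h4]
    norm_num
  · rfl

theorem prof_symm (L : ℕ) (i : ℤ) : prof L (-i) = prof L i := by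
  unfold prof
  push_cast
  rw [abs_neg]
  congr 2
  ring

theorem prof_diff2_aux (L : ℕ) (hL : 1 ≤ L) (i : ℤ) (hi : 0 ≤ i) :
    |2 * prof L i - prof L (i + 1) - prof L (i - 1)| ≤ 16 / (L : ℝ) ^ 2 := by
  have hLp : (0 : ℝ) < L := by exact_mod_cast (by omega : 0 < L)
  obtain ⟨h, hh⟩ : ∃ h : ℝ, h = 1 / L := ⟨_, rfl⟩
  obtain ⟨x, hx⟩ : ∃ x : ℝ, x = i / L := ⟨_, rfl⟩
  have hh0 : 0 < h := by rw [hh]; positivity
  have hh1 : h ≤ 1 := by
    rw [hh, div_le_one hLp]
    exact_mod_cast hL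
  have e16 : 16 / (L : ℝ) ^ 2 = 16 * h ^ 2 := by
    rw [hh]
    field_simp
  have ep : ((i + 1 : ℤ) : ℝ) / L = x + h := by
    rw [hx, hh]
    push_cast
    ring
  have em : ((i - 1 : ℤ) : ℝ) / L = x - h := by
    rw [hx, hh]
    push_cast
    ring
  have hx0 : 0 ≤ x := by
    rw [hx]
    have : (0 : ℝ) ≤ i := by exact_mod_cast hi
    positivity
  rw [e16]
  rcases lt_trichotomy i (L : ℤ) with h1 | h1 | h1
  · have i1 : prof L i = (1 - x ^ 2) ^ 2 := by
      rw [prof_in L i (by rw [abs_of_nonneg hi]; omega), hx]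
    have i2 : prof L (i + 1) = (1 - (x + h) ^ 2) ^ 2 := by
      rw [prof_in L (i + 1) (by rw [abs_of_nonneg (by omega)]; omega), ep]
    have i3 : prof L (i - 1) = (1 - (x - h) ^ 2) ^ 2 := by
      rw [prof_in L (i - 1) (by rw [abs_le]; constructor <;> omega), em]
    have hx1 : x ≤ 1 := by
      rw [hx, div_le_one hLp]
      exact_mod_cast h1.le
    rw [i1, i2, i3]
    have e : 2 * (1 - x ^ 2) ^ 2 - (1 - (x + h) ^ 2) ^ 2 - (1 - (x - h) ^ 2) ^ 2 =
        h ^ 2 * (4 - 12 * x ^ 2 - 2 * h ^ 2) := by ring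
    rw [e, abs_mul, abs_of_pos (by positivity : 0 < h ^ 2), mul_comm]
    apply mul_le_mul_of_nonneg_right _ (by positivity)
    have hx2 : x ^ 2 ≤ 1 := by nlinarith
    have hx3 : 0 ≤ x ^ 2 := sq_nonneg _
    have hh2 : h ^ 2 ≤ 1 := by nlinarith
    have hh3 : 0 ≤ h ^ 2 := sq_nonneg _
    rw [abs_le]
    constructor <;> linarith
  · have i1 : prof L i = 0 := prof_out L hL i (by rw [abs_of_nonneg hi]; omega)
    have i2 : prof L (i + 1) = 0 := prof_out L hL _ (by rw [abs_of_nonneg (by omega)]; omega)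
    have i3 : prof L (i - 1) = (1 - (x - h) ^ 2) ^ 2 := by
      rw [prof_in L (i - 1) (by rw [abs_le]; constructor <;> omega), em]
    have hx1 : x = 1 := by
      rw [hx, h1]
      push_cast
      field_simp
    rw [i1, i2, i3, hx1]
    have e : 2 * (0 : ℝ) - 0 - (1 - (1 - h) ^ 2) ^ 2 = - (h ^ 2 * (2 - h) ^ 2) := by ring
    rw [e, abs_neg, abs_of_nonneg (by positivity), mul_comm]
    apply mul_le_mul_of_nonneg_right _ (by positivity)
    nlinarith
  · have i1 : prof L i = 0 := prof_out L hL i (by rw [abs_of_nonneg hi]; omega)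
    have i2 : prof L (i + 1) = 0 := prof_out L hL _ (by rw [abs_of_nonneg (by omega)]; omega)
    have i3 : prof L (i - 1) = 0 := prof_out L hL _ (by rw [abs_of_nonneg (by omega)]; omega)
    rw [i1, i2, i3]
    simp
    positivity

theorem prof_diff2 (L : ℕ) (hL : 1 ≤ L) (i : ℤ) :
    |2 * prof L i - prof L (i + 1) - prof L (i - 1)| ≤ 16 / (L : ℝ) ^ 2 := by
  rcases le_total 0 i with hi | hi
  · exact prof_diff2_aux L hL i hi
  · have h := prof_diff2_aux L hL (-i) (by omega)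
    have e1 : -i + 1 = -(i - 1) := by ring
    have e2 : -i - 1 = -(i + 1) := by ring
    rw [e1, e2, prof_symm, prof_symm, prof_symm] at h
    have e3 : 2 * prof L i - prof L (i + 1) - prof L (i - 1) =
      2 * prof L i - prof L (i - 1) - prof L (i + 1) := by ring
    rw [e3]
    exact h

end Pool.Helper187.HS
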