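import Pool.Agent.Helper187.HS.Defs

set_option autoImplicit false

/-! Heat smoothing on tail spaces: definitions (helper187). -/

namespace Pool.Helper187.HS
open scoped BigOperators
open Polynomial Filter Topology


theorem prof_zero (L : ℕ) (hL : 1 ≤ L) (i : ℤ) (hi : (L : ℤ) ≤ |i|) : prof L i = 0 := by
  have hL0 : (0 : ℝ) < L := by exact_mod_cast hL
  unfold prof
  by_cases h : |(i : ℝ)| ≤ (L : ℝ)
  · have hi' : (L : ℝ) ≤ |(i : ℝ)| := by exact_mod_cast hi
    have h1 : |(i : ℝ)| = (L : ℝ) := le_antisymm h hi'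
    have h2 : ((i : ℝ)) ^ 2 = (L : ℝ) ^ 2 := by rw [← h1, sq_abs]
    rw [if_pos h, div_pow, h2, div_self (by positivity), sub_self]
    norm_num
  · rw [if_neg h]

end Pool.Helper187.HS
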