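import Pool.Agent.Helper187.HS.Defs
import Pool.Agent.Helper187.HS.P_lap_ucnt
import Pool.Agent.Helper187.HS.P_prof_bounds
import Pool.Agent.Helper187.HS.P_prof_zero
import Pool.Agent.Helper187.HS.P_prof_diff
import Pool.Agent.Helper187.HS.P_prof_diff2

set_option autoImplicit false

/-! Heat smoothing on tail spaces: definitions (helper187). -/

namespace Pool.Helper187.HS
open scoped BigOperators
open Polynomial Filter Topology


theorem prof_lap (L m : ℕ) (hL : 1 ≤ L) (hm : L ≤ m) (y : Fin (MM L m) → Bool) :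
    |ucnt (MM L m) (KK L m) (prof L) y + lap (ucnt (MM L m) (KK L m) (prof L)) y| ≤
      (10 * (MM L m : ℝ) / (L : ℝ) ^ 2) *
        (if |(cnt y : ℤ) - (KK L m : ℤ)| ≤ (L : ℤ) + 1 then 1 else 0) := by
  obtain ⟨i, hi⟩ : ∃ i : ℤ, i = (cnt y : ℤ) - (KK L m : ℤ) := ⟨_, rfl⟩
  have hu : ucnt (MM L m) (KK L m) (prof L) y = prof L i := by
    unfold ucnt; rw [hi]
  rw [hu, lap_ucnt]
  have e1 : (cnt y : ℤ) - ((KK L m : ℕ) : ℤ) = i := hi.symm
  rw [e1]
  have hk : (cnt y : ℝ) = 4 * L * m + (i : ℝ) := by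
    have h1 : (cnt y : ℤ) = (KK L m : ℤ) + i := by rw [hi]; ring
    have h2 : (cnt y : ℝ) = (KK L m : ℝ) + (i : ℝ) := by exact_mod_cast h1
    rw [h2]
    unfold KK
    push_cast
    ring
  have hM : (MM L m : ℝ) = 4 * (2 * L + 1) * m := by
    unfold MM; push_cast; ring
  have hL' : (1 : ℝ) ≤ L := by exact_mod_cast hL
  have hm' : (L : ℝ) ≤ m := by exact_mod_cast hm
  have hLp : (0 : ℝ) < L := by linarith
  have hL2 : (0 : ℝ) < (L : ℝ) ^ 2 := by positivity
  by_cases hc : |i| ≤ (L : ℤ) + 1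
  · rw [if_pos hc, mul_one]
    obtain ⟨h0, h1⟩ := prof_bounds L hL i
    have h2 := prof_diff L hL i
    have h3 := prof_diff2 L hL i
    have hib : |(i : ℝ)| ≤ (L : ℝ) + 1 := by
      have : ((|i| : ℤ) : ℝ) ≤ (L : ℝ) + 1 := by exact_mod_cast hc
      rwa [Int.cast_abs] at this
    have hexp : (((MM L m : ℕ) : ℝ) - (cnt y : ℝ)) * (prof L i - prof L (i + 1)) +
        (cnt y : ℝ) * (prof L i - prof L (i - 1)) =
        (2 * (2 * L + 1) * m) * (2 * prof L i - prof L (i + 1) - prof L (i - 1)) +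
          (2 * m - i) * (prof L (i - 1) - prof L (i + 1)) := by
      rw [hM, hk]
      ring
    rw [hexp]
    have hA : |(2 * (2 * (L : ℝ) + 1) * m) * (2 * prof L i - prof L (i + 1) - prof L (i - 1))| ≤
        (2 * (2 * (L : ℝ) + 1) * m) * (16 / (L : ℝ) ^ 2) := by
      rw [abs_mul, abs_of_nonneg (by positivity : (0:ℝ) ≤ 2 * (2 * (L : ℝ) + 1) * m)]
      exact mul_le_mul_of_nonneg_left h3 (by positivity)
    have hib2 : |2 * (m : ℝ) - i| ≤ 4 * m := by
      rw [abs_le] at hib ⊢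
      constructor <;> linarith [hib.1, hib.2]
    have hB : |(2 * (m : ℝ) - i) * (prof L (i - 1) - prof L (i + 1))| ≤ 4 * m * (4 / (L : ℝ)) := by
      rw [abs_mul]
      exact mul_le_mul hib2 h2 (abs_nonneg _) (by positivity)
    have hC : |prof L i| ≤ 1 := by rw [abs_of_nonneg h0]; exact h1
    have tri : |prof L i + ((2 * (2 * (L : ℝ) + 1) * m) * (2 * prof L i - prof L (i + 1) - prof L (i - 1)) +
          (2 * m - i) * (prof L (i - 1) - prof L (i + 1))) / 2| ≤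
        1 + ((2 * (2 * (L : ℝ) + 1) * m) * (16 / (L : ℝ) ^ 2) + 4 * m * (4 / (L : ℝ))) / 2 := by
      rw [abs_le] at hA hB hC ⊢
      constructor <;> linarith [hA.1, hA.2, hB.1, hB.2, hC.1, hC.2]
    refine tri.trans ?_
    rw [hM, le_div_iff₀ hL2]
    have e3 : (1 + ((2 * (2 * (L : ℝ) + 1) * m) * (16 / (L : ℝ) ^ 2) + 4 * m * (4 / (L : ℝ))) / 2) * (L : ℝ) ^ 2 =
        (L : ℝ) ^ 2 + 16 * ((2 * (L : ℝ) + 1) * m) + 8 * m * L := by
      field_simp
      ring
    rw [e3]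
    have h5 : (L : ℝ) * L ≤ L * m := mul_le_mul_of_nonneg_left hm' hLp.le
    have h6 : (0 : ℝ) ≤ m := by linarith
    have h7 : (0 : ℝ) ≤ L * m := by positivity
    nlinarith
  · rw [if_neg hc, mul_zero]
    push Not at hc
    have z0 : prof L i = 0 := prof_zero L hL i (by omega)
    have z1 : prof L (i + 1) = 0 := prof_zero L hL (i + 1) (by
      rcases abs_cases i with ⟨h1, h2⟩ | ⟨h1, h2⟩ <;> rcases abs_cases (i + 1) with ⟨h3, h4⟩ | ⟨h3, h4⟩ <;> omega)
    have z2 : prof L (i - 1) = 0 := prof_zero L hL (i - 1) (by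
      rcases abs_cases i with ⟨h1, h2⟩ | ⟨h1, h2⟩ <;> rcases abs_cases (i - 1) with ⟨h3, h4⟩ | ⟨h3, h4⟩ <;> omega)
    rw [z0, z1, z2]
    simp

end Pool.Helper187.HS
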