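import Pool.Agent.Helper187.HS.Defs

set_option autoImplicit false

/-! Heat smoothing on tail spaces: definitions (helper187). -/

namespace Pool.Helper187.HS
open scoped BigOperators
open Polynomial Filter Topology


/-- pull back of points along an equivalence of index types -/
def transport_T {ι κ : Type*} (e : ι ≃ κ) : (κ → Bool) ≃ (ι → Bool) where
  toFun y := fun i => y (e i)
  invFun x := fun k => x (e.symm k)
  left_inv y := by funext k; simp
  right_inv x := by funext i; simp

theorem transport_mean {ι κ : Type*} [Fintype ι] [DecidableEq ι] [Fintype κ] [DecidableEq κ]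
    (e : ι ≃ κ) (g : (ι → Bool) → ℝ) : mean (fun y => g (transport_T e y)) = mean g := by
  unfold mean
  rw [Equiv.sum_comp (transport_T e) g, Fintype.card_congr e]

theorem transport_nrm {ι κ : Type*} [Fintype ι] [DecidableEq ι] [Fintype κ] [DecidableEq κ]
    (e : ι ≃ κ) (p : ℝ) (g : (ι → Bool) → ℝ) : nrm p (fun y => g (transport_T e y)) = nrm p g := by
  unfold nrm
  rw [transport_mean e (fun x => |g x| ^ p)]

theorem transport_flip {ι κ : Type*} [DecidableEq ι] [DecidableEq κ]
    (e : ι ≃ κ) (y : κ → Bool) (i : ι) :
    transport_T e (flip y (e i)) = flip (transport_T e y) i := by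
  funext j
  simp only [transport_T, Equiv.coe_fn_mk, flip]
  by_cases h : j = i
  · subst h; simp
  · rw [Function.update_of_ne h, Function.update_of_ne (fun h' => h (e.injective h'))]

theorem transport_lap {ι κ : Type*} [Fintype ι] [DecidableEq ι] [Fintype κ] [DecidableEq κ]
    (e : ι ≃ κ) (f : (ι → Bool) → ℝ) :
    lap (fun y => f (transport_T e y)) = fun y => lap f (transport_T e y) := by
  funext y
  unfold lap
  rw [← Equiv.sum_comp e]
  apply Finset.sum_congr rfl
  intro i _
  simp only []
  rw [transport_flip]

theorem transport_Tail {ι κ : Type*} [Fintype ι] [DecidableEq ι] [Fintype κ] [DecidableEq κ]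
    (e : ι ≃ κ) (d : ℕ) (f : (ι → Bool) → ℝ) (hf : Tail d f) :
    Tail d (fun y => f (transport_T e y)) := by
  intro S hS
  have h := hf (S.map e.symm.toEmbedding) (by rwa [Finset.card_map])
  rw [← Equiv.sum_comp (transport_T e)] at h
  rw [← h]
  apply Finset.sum_congr rfl
  intro y _
  congr 1
  unfold chi
  rw [Finset.prod_map]
  apply Finset.prod_congr rfl
  intro k _
  simp [transport_T]

theorem transport {ι : Type*} [Fintype ι] [DecidableEq ι] (d : ℕ) (f : (ι → Bool) → ℝ)
    (hf : Tail d f) :
    ∃ f' : (Fin (Fintype.card ι) → Bool) → ℝ, Tail d f' ∧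
      nrm (4 / 3) f' = nrm (4 / 3) f ∧ nrm (4 / 3) (lap f') = nrm (4 / 3) (lap f) := by
  refine ⟨fun y => f (transport_T (Fintype.equivFin ι) y),
    transport_Tail (Fintype.equivFin ι) d f hf, transport_nrm _ _ _, ?_⟩
  rw [transport_lap, transport_nrm]

end Pool.Helper187.HS
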