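import Pool.Agent.Helper187.HS.Defs
import Pool.Agent.Helper187.HS.P_exists_n
import Pool.Agent.Helper187.HS.P_nrm_le_sq
import Pool.Agent.Helper187.HS.P_dual_bound
import Pool.Agent.Helper187.HS.P_Ysum_sq
import Pool.Agent.Helper187.HS.P_Ysum_lap
import Pool.Agent.Helper187.HS.P_approx
import Pool.Agent.Helper187.HS.P_prof_bounds
import Pool.Agent.Helper187.HS.P_prof_zero
import Pool.Agent.Helper187.HS.P_prof_lap
import Pool.Agent.Helper187.HS.P_mean_window
import Pool.Agent.Helper187.HS.P_mean_lower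
import Pool.Agent.Helper187.HS.P_nrm4_Ysum

set_option autoImplicit false

/-! Heat smoothing on tail spaces: definitions (helper187). -/

namespace Pool.Helper187.HS
open scoped BigOperators
open Polynomial Filter Topology


theorem weak_fails_nrm_nonneg {ι : Type*} [Fintype ι] [DecidableEq ι] (p : ℝ)
    (f : (ι → Bool) → ℝ) : 0 ≤ nrm p f := by
  unfold nrm mean
  apply Real.rpow_nonneg
  apply div_nonneg
  · exact Finset.sum_nonneg fun x _ => Real.rpow_nonneg (abs_nonneg _) _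
  · positivity

theorem weak_fails (c : ℝ) (hc : 0 < c) : ∃ n M d : ℕ, 1 ≤ d ∧
    ∃ f : (Idx n M → Bool) → ℝ, Tail d f ∧ nrm (4 / 3) (lap f) < (d : ℝ) * c * nrm (4 / 3) f := by
  by_contra hneg
  have hW : ∀ (n M d : ℕ), 1 ≤ d → ∀ f : (Idx n M → Bool) → ℝ, Tail d f →
      (d : ℝ) * c * nrm (4 / 3) f ≤ nrm (4 / 3) (lap f) := by
    intro n M d hd f hf
    by_contra hlt
    exact hneg ⟨n, M, d, hd, f, hf, not_le.mp hlt⟩
  obtain ⟨L, hLgt⟩ := exists_nat_gt (40000 / c + 1)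
  have hLr : (1 : ℝ) < L := by
    have : 0 < 40000 / c := by positivity
    linarith
  have hL : 1 ≤ L := by exact_mod_cast hLr.le
  have hLpos : (0 : ℝ) < L := by linarith
  have hL2 : 40000 < c * (L : ℝ) ^ 2 := by
    have h1 : 40000 / c < L := by linarith
    have h2 : 40000 < L * c := (div_lt_iff₀ hc).mp h1
    nlinarith [mul_pos hc hLpos]
  set r : ℝ := Real.sqrt L with hr
  have hrr : r * r = L := Real.mul_self_sqrt hLpos.le
  have hr1 : 0 < r := Real.sqrt_pos.mpr hLpos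
  obtain ⟨m0, hm0⟩ := approx L hL (r / 126) (by positivity)
  set m : ℕ := max m0 L with hm
  have hmm0 : m0 ≤ m := le_max_left _ _
  have hmL : L ≤ m := le_max_right _ _
  have hm1 : 1 ≤ m := hL.trans hmL
  obtain ⟨n, hn0, hn1, hn2⟩ := exists_n L m hL hm1
  obtain ⟨w, hwT, hwa⟩ := hm0 m hmm0 hm1 n hn0 hn2
  have hd1 : 1 ≤ DD L m := by
    unfold DD
    exact Nat.mul_pos (by omega) (by omega)
  have hdpos : (0 : ℝ) < (DD L m : ℝ) := by exact_mod_cast hd1
  have hMd : (MM L m : ℝ) = 4 * (DD L m : ℝ) := by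
    unfold MM DD; push_cast; ring
  set F : (Idx n (MM L m) → Bool) → ℝ := Ysum n (MM L m) (ucnt (MM L m) (KK L m) (prof L)) with hF
  have hdual := dual_bound (DD L m) hd1 c hc (hW n (MM L m) (DD L m) hd1) F w hwT
  have hu : ∀ y : Fin (MM L m) → Bool, |ucnt (MM L m) (KK L m) (prof L) y| ≤
      1 * (if |(cnt y : ℤ) - (KK L m : ℤ)| ≤ (L : ℤ) + 1 then 1 else 0) := by
    intro y
    unfold ucnt
    split_ifs with hc1
    · obtain ⟨p1, p2⟩ := prof_bounds L hL ((cnt y : ℤ) - (KK L m : ℤ))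
      rw [abs_of_nonneg p1]; linarith
    · rw [prof_zero L hL _ (by omega)]
      simp
  have h4F : nrm 4 F ≤ 9 * 1 * r := nrm4_Ysum L m n hL hmL hn2 _ 1 (by norm_num) hu
  have hsq : mean (fun x => F x ^ 2) = (n : ℝ) * mean (fun y => ucnt (MM L m) (KK L m) (prof L) y ^ 2) :=
    Ysum_sq n (MM L m) _
  have hlow : (L : ℝ) / 7 ≤ mean (fun x => F x ^ 2) := by
    rw [hsq]; exact mean_lower L m n hL hmL hn1
  have hup : mean (fun x => F x ^ 2) ≤ 30 * L := by
    rw [hsq]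
    have := (mean_window L m n hL hmL hn2 _ 1 (by norm_num) hu).1
    linarith
  have hnF : nrm (4 / 3) F ≤ 6 * r := by
    refine (nrm_le_sq F).trans ?_
    refine Real.sqrt_le_iff.mpr ⟨by positivity, ?_⟩
    nlinarith
  have hK : (0 : ℝ) ≤ 10 * (MM L m : ℝ) / (L : ℝ) ^ 2 := by positivity
  have hlap : nrm 4 (lap F) ≤ 9 * (10 * (MM L m : ℝ) / (L : ℝ) ^ 2) * r := by
    rw [hF, Ysum_lap]
    exact nrm4_Ysum L m n hL hmL hn2 _ _ hK (fun y => prof_lap L m hL hmL y)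
  have n1 := weak_fails_nrm_nonneg 4 F
  have n2 := weak_fails_nrm_nonneg (4 / 3) (fun x => F x - w x)
  have n3 := weak_fails_nrm_nonneg (4 / 3) F
  have n4 := weak_fails_nrm_nonneg 4 (lap F)
  have hwa' : nrm (4 / 3) (fun x => F x - w x) ≤ r / 126 := hwa
  have t1 : nrm (4 / 3) (fun x => F x - w x) * nrm 4 F ≤ (r / 126) * (9 * 1 * r) :=
    mul_le_mul hwa' h4F n1 (by positivity)
  have t2 : (nrm (4 / 3) F + nrm (4 / 3) (fun x => F x - w x)) * nrm 4 (lap F) ≤
      (7 * r) * (9 * (10 * (MM L m : ℝ) / (L : ℝ) ^ 2) * r) :=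
    mul_le_mul (by linarith) hlap n4 (by positivity)
  have hdc : 0 < (DD L m : ℝ) * c := mul_pos hdpos hc
  have t3 : (nrm (4 / 3) F + nrm (4 / 3) (fun x => F x - w x)) * nrm 4 (lap F) /
      ((DD L m : ℝ) * c) ≤
      (7 * r) * (9 * (10 * (MM L m : ℝ) / (L : ℝ) ^ 2) * r) / ((DD L m : ℝ) * c) :=
    div_le_div_of_nonneg_right t2 hdc.le
  have e1 : (7 * r) * (9 * (10 * (MM L m : ℝ) / (L : ℝ) ^ 2) * r) / ((DD L m : ℝ) * c)
      = 2520 / (c * L) := by
    rw [hMd]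
    have : (7 * r) * (9 * (10 * (4 * (DD L m : ℝ)) / (L : ℝ) ^ 2) * r)
        = (r * r) * (2520 * (DD L m : ℝ) / (L : ℝ) ^ 2) := by ring
    rw [this, hrr]
    field_simp
  have e2 : (r / 126) * (9 * 1 * r) = L / 14 := by
    have : (r / 126) * (9 * 1 * r) = (r * r) / 14 := by ring
    rw [this, hrr]
  rw [e1] at t3
  rw [e2] at t1
  have fin : (L : ℝ) / 14 ≤ 2520 / (c * L) := by linarith
  rw [le_div_iff₀ (mul_pos hc hLpos)] at fin
  nlinarith

end Pool.Helper187.HS
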